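import Mathlib

set_option autoImplicit false

/-!
# Definitions for the system of pairs `x + y = N`
-/

namespace Pool.Agent.GA

open Finset

/-- the primes `≡ 1 mod q` in `[z, z + ⌊z / J⌋)` -/
def PB (q J z : ℕ) : Finset ℕ := (Ico z (z + z / J)).filter (fun p => p.Prime ∧ p ≡ 1 [MOD q])

/-- the cosine transform on `[0, L]` -/
noncomputable def cosT (h : ℝ → ℝ) (L u : ℝ) : ℝ := ∫ t in (0 : ℝ)..L, h t * Real.cos (t * u)

/-- an edge: the right node is `a + Y N`, the left node `E N - B a`, and `B Y + E = D` -/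
structure Edge where
  Y : ℕ
  E : ℕ
  B : ℕ
  D : ℕ
  deriving DecidableEq

/-- the properties of the edges of a system -/
structure Good (S : Finset Edge) : Prop where
  B_pos : ∀ e ∈ S, 0 < e.B
  E_ge : ∀ e ∈ S, e.B ≤ e.E
  D_eq : ∀ e ∈ S, e.B * e.Y + e.E = e.D
  sqf : ∀ e ∈ S, Squarefree e.D
  cop : ∀ e ∈ S, ∀ e' ∈ S, e ≠ e' → Nat.Coprime e.D e'.D

end Pool.Agent.GA
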