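import Mathlib
import Pool.Agent.GA.Defs

set_option autoImplicit false

/-!
# From the system of edges to pairs `x + y = N`
-/

namespace Pool.Agent.GA

open Finset ArithmeticFunction

/-- the first summand attached to an edge and a base point -/
def xx (N : ℕ) (e : Edge) (a : ℕ) : ℕ := e.B * ((a + e.Y * N) / e.D)

theorem edge_identity {N a : ℕ} {e : Edge} (hB : 0 < e.B) (hE : e.B ≤ e.E)
    (hD : e.B * e.Y + e.E = e.D) (hd : e.D ∣ a + e.Y * N) (ha : 0 < a) (haN : a < N) :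
    ∃ u, 0 < u ∧ a + e.Y * N = e.D * u ∧ xx N e a = e.B * u ∧ e.B * u < N ∧
      e.E * N - e.B * a = e.D * (N - e.B * u) := by
  obtain ⟨u, hu⟩ := hd
  have hD0 : 0 < e.D := by omega
  have hu0 : 0 < u := by
    rcases Nat.eq_zero_or_pos u with h | h
    · rw [h, mul_zero] at hu; omega
    · exact h
  have h1 : e.D * (e.B * u) + (e.E * N - e.B * a) = e.D * N := by
    have h2 : e.B * a ≤ e.E * N := Nat.mul_le_mul hE haN.le
    have h3 : e.D * (e.B * u) = e.B * a + e.B * e.Y * N := by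
      calc e.D * (e.B * u) = e.B * (e.D * u) := by ring
        _ = e.B * (a + e.Y * N) := by rw [hu]
        _ = _ := by ring
    have h4 : e.D * N = e.B * e.Y * N + e.E * N := by rw [← hD]; ring
    omega
  have h5 : 0 < e.E * N - e.B * a := by
    have h6 : e.B * a < e.E * N := by
      calc e.B * a < e.B * N := Nat.mul_lt_mul_of_pos_left haN hB
        _ ≤ e.E * N := Nat.mul_le_mul_right _ hE
    omega
  have h7 : e.B * u < N := by
    have h8 : e.D * (e.B * u) < e.D * N := by omega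
    exact lt_of_mul_lt_mul_left h8 (Nat.zero_le _)
  refine ⟨u, hu0, hu, ?_, h7, ?_⟩
  · rw [xx, hu, Nat.mul_div_cancel_left _ hD0]
  · rw [Nat.mul_sub]; omega

theorem edge_step {k N K a : ℕ} {S : Finset Edge} (hS : Good S) (om : ℕ → ℕ)
    (hom : ∀ m n : ℕ, m ≠ 0 → n ≠ 0 → om (m * n) = om m + om n)
    (g : ℕ → ZMod k) (hg : ∀ m n : ℕ, m ≠ 0 → n ≠ 0 → g (m * n) = g m + g n) (r : ZMod k)
    (ha1 : N ≤ 4 * a) (ha2 : 2 * a ≤ N)
    (hN : ∀ e ∈ S, 16 * e.D ^ 2 < N) {e : Edge} (he : e ∈ S) (hd : e.D ∣ a + e.Y * N)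
    (hK1 : om (a + e.Y * N) ≤ K) (hK2 : om (e.E * N - e.B * a) ≤ K)
    (hr : g (a + e.Y * N) + (g (e.E * N - e.B * a) + g e.B) - 2 * g e.D = r) :
    xx N e a < N ∧ N < (xx N e a) ^ 2 ∧ N < (N - xx N e a) ^ 2 ∧
      om (xx N e a) ≤ K + ∑ e ∈ S, om e.B ∧
      om (N - xx N e a) ≤ K + ∑ e ∈ S, om e.B ∧
      g (xx N e a) + g (N - xx N e a) = r := by
  have hB := hS.B_pos e he
  have hE := hS.E_ge e he
  have hD := hS.D_eq e he
  have hNe := hN e he
  have hN0 : 0 < N := by omega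
  have ha0 : 0 < a := by omega
  obtain ⟨u, hu0, h1, h2, h3, h4⟩ := edge_identity hB hE hD hd ha0 (by omega)
  have hD0 : 0 < e.D := by omega
  rw [h2]
  have hBu : 0 < e.B * u := Nat.mul_pos hB hu0
  have hy : 0 < N - e.B * u := by omega
  have hsz1 : N ≤ 4 * e.D * (e.B * u) := by
    calc N ≤ 4 * a := ha1
      _ ≤ 4 * (a + e.Y * N) := by omega
      _ = 4 * (e.D * u) := by rw [h1]
      _ = 4 * e.D * (1 * u) := by ring
      _ ≤ 4 * e.D * (e.B * u) := Nat.mul_le_mul_left _ (Nat.mul_le_mul_right _ hB)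
  have hsz2 : N ≤ 4 * e.D * (N - e.B * u) := by
    have h5 : N ≤ 2 * (e.E * N - e.B * a) := by
      have h6 : e.B * N ≤ e.E * N := Nat.mul_le_mul_right _ hE
      have h7 : e.B * (2 * a) ≤ e.B * N := Nat.mul_le_mul_left _ ha2
      have h8 : e.B * (2 * a) = 2 * (e.B * a) := by ring
      have h9 : N ≤ e.B * N := Nat.le_mul_of_pos_left _ hB
      omega
    rw [h4] at h5
    calc N ≤ 2 * (e.D * (N - e.B * u)) := h5
      _ ≤ 4 * (e.D * (N - e.B * u)) := by omega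
      _ = _ := by ring
  have key : ∀ x, N ≤ 4 * e.D * x → N < x ^ 2 := by
    intro x hx
    have h5 : N * N ≤ (4 * e.D * x) * (4 * e.D * x) := Nat.mul_le_mul hx hx
    by_contra hcon
    push Not at hcon
    have h6 : (4 * e.D * x) * (4 * e.D * x) = 16 * e.D ^ 2 * x ^ 2 := by ring
    have h7 : 16 * e.D ^ 2 * x ^ 2 ≤ 16 * e.D ^ 2 * N := Nat.mul_le_mul_left _ hcon
    have h8 : 16 * e.D ^ 2 * N < N * N := Nat.mul_lt_mul_of_pos_right hNe hN0
    omega
  refine ⟨h3, key _ hsz1, key _ hsz2, ?_, ?_, ?_⟩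
  · rw [hom _ _ hB.ne' hu0.ne']
    rw [h1, hom _ _ hD0.ne' hu0.ne'] at hK1
    have h5 : om e.B ≤ ∑ e ∈ S, om e.B :=
      single_le_sum (f := fun e : Edge => om e.B) (fun _ _ => Nat.zero_le _) he
    omega
  · rw [h4, hom _ _ hD0.ne' hy.ne'] at hK2
    omega
  · rw [← hr, h1, h4, hg _ _ hB.ne' hu0.ne', hg _ _ hD0.ne' hu0.ne', hg _ _ hD0.ne' hy.ne']
    ring

theorem count_step {k N K : ℕ} {S : Finset Edge} (hS : Good S) (om : ℕ → ℕ)
    (hom : ∀ m n : ℕ, m ≠ 0 → n ≠ 0 → om (m * n) = om m + om n) (g : ℕ → ZMod k)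
    (hg : ∀ m n : ℕ, m ≠ 0 → n ≠ 0 → g (m * n) = g m + g n) (r : ZMod k) (A : Finset ℕ)
    (hA : ∀ a ∈ A, N ≤ 4 * a ∧ 2 * a ≤ N ∧ ∀ e ∈ S, e.D ∣ a + e.Y * N ∧
      om (a + e.Y * N) ≤ K ∧ om (e.E * N - e.B * a) ≤ K)
    (hU : ∀ a ∈ A, ∃ e ∈ S,
      g (a + e.Y * N) + (g (e.E * N - e.B * a) + g e.B) - 2 * g e.D = r)
    (hN : ∀ e ∈ S, 16 * e.D ^ 2 < N) (hN0 : 0 < N) :
    A.card ≤ (S.card * 2) * ((range N).filter (fun a => N < a ^ 2 ∧ 2 * a ≤ N ∧
      om a ≤ K + ∑ e ∈ S, om e.B ∧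
      om (N - a) ≤ K + ∑ e ∈ S, om e.B ∧ g a + g (N - a) = r)).card := by
  classical
  obtain ⟨W, hW⟩ : ∃ W, W = K + ∑ e ∈ S, om e.B := ⟨_, rfl⟩
  rw [← hW]
  obtain ⟨G, hG⟩ : ∃ G, G = (range N).filter (fun a => N < a ^ 2 ∧ 2 * a ≤ N ∧
      om a ≤ W ∧ om (N - a) ≤ W ∧ g a + g (N - a) = r) := ⟨_, rfl⟩
  rw [← hG]
  -- the image
  obtain ⟨f, hf⟩ : ∃ f : Edge × Bool → ℕ → ℕ,
    f = fun x a => if x.2 then xx N x.1 a else N - xx N x.1 a := ⟨_, rfl⟩
  obtain ⟨U, hU'⟩ : ∃ U : Edge × Bool → Finset ℕ,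
    U = fun x => A.filter (fun a => f x a ∈ G) := ⟨_, rfl⟩
  have hsub : A ⊆ (S ×ˢ (univ : Finset Bool)).biUnion U := by
    intro a ha
    obtain ⟨h1, h2, h3⟩ := hA a ha
    obtain ⟨e, he, hr⟩ := hU a ha
    obtain ⟨h4, h5, h6⟩ := h3 e he
    obtain ⟨k1, k2, k3, k4, k5, k6⟩ := edge_step hS om hom g hg r h1 h2 hN he h4 h5 h6 hr
    rw [mem_biUnion]
    rcases Nat.lt_or_ge N (2 * xx N e a) with hlt | hge
    · refine ⟨(e, false), mem_product.2 ⟨he, mem_univ _⟩, ?_⟩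
      rw [hU', mem_filter, hf, hG, mem_filter, mem_range]
      simp only [Bool.false_eq_true, if_false]
      have hxx : N - (N - xx N e a) = xx N e a := by omega
      rw [hxx, hW]
      refine ⟨ha, ?_, k3, by omega, k5, k4, ?_⟩
      · have : 0 < xx N e a := by
          rcases Nat.eq_zero_or_pos (xx N e a) with h | h
          · rw [h] at hlt; omega
          · exact h
        omega
      · rw [add_comm]; exact k6
    · refine ⟨(e, true), mem_product.2 ⟨he, mem_univ _⟩, ?_⟩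
      rw [hU', mem_filter, hf, hG, mem_filter, mem_range]
      simp only [if_true]
      rw [hW]
      exact ⟨ha, k1, k2, hge, k4, k5, k6⟩
  have hcard : ∀ x ∈ S ×ˢ (univ : Finset Bool), (U x).card ≤ G.card := by
    rintro ⟨e, b⟩ hx
    have he : e ∈ S := (mem_product.1 hx).1
    rw [hU']
    apply card_le_card_of_injOn (f (e, b))
    · intro a ha
      exact (mem_filter.1 (mem_coe.1 ha)).2
    · intro a ha a' ha' haa
      have h1 := (mem_filter.1 (mem_coe.1 ha)).1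
      have h1' := (mem_filter.1 (mem_coe.1 ha')).1
      obtain ⟨h2, h3, h4⟩ := hA a h1
      obtain ⟨h2', h3', h4'⟩ := hA a' h1'
      obtain ⟨u, hu0, q1, q2, q3, q4⟩ := edge_identity (hS.B_pos e he) (hS.E_ge e he)
        (hS.D_eq e he) (h4 e he).1 (by omega) (by omega)
      obtain ⟨u', hu0', q1', q2', q3', q4'⟩ := edge_identity (hS.B_pos e he) (hS.E_ge e he)
        (hS.D_eq e he) (h4' e he).1 (by omega) (by omega)
      have hxe : xx N e a = xx N e a' := by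
        rw [hf] at haa
        cases b with
        | true => simpa using haa
        | false =>
          simp only [Bool.false_eq_true, if_false] at haa
          rw [q2, q2'] at haa ⊢
          omega
      rw [q2, q2'] at hxe
      have h5 : u = u' := Nat.eq_of_mul_eq_mul_left (hS.B_pos e he) hxe
      rw [← h5] at q1'
      omega
  calc A.card ≤ ((S ×ˢ (univ : Finset Bool)).biUnion U).card := card_le_card hsub
    _ ≤ (S ×ˢ (univ : Finset Bool)).card * G.card := card_biUnion_le_card_mul _ _ _ hcard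
    _ = (S.card * 2) * G.card := by rw [card_product, card_univ, Fintype.card_bool]

/-- The count when for every base point a whole class of residues is reached. -/
theorem count_class {k N K : ℕ} (hk : 0 < k) {S : Finset Edge} (hS : Good S) (om : ℕ → ℕ)
    (hom : ∀ m n : ℕ, m ≠ 0 → n ≠ 0 → om (m * n) = om m + om n) (g : ℕ → ZMod k)
    (hg : ∀ m n : ℕ, m ≠ 0 → n ≠ 0 → g (m * n) = g m + g n) (A : Finset ℕ)
    (hA : ∀ a ∈ A, N ≤ 4 * a ∧ 2 * a ≤ N ∧ ∀ e ∈ S, e.D ∣ a + e.Y * N ∧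
      om (a + e.Y * N) ≤ K ∧ om (e.E * N - e.B * a) ≤ K)
    (hU : ∀ (cR : ℕ → ZMod k) (cL : ℕ × ℕ → ZMod k), ∃ s : ZMod k, ∀ j : ZMod k, ∃ e ∈ S,
      cR e.Y + cL (e.E, e.B) - 2 * g e.D = s + 2 * j)
    (hN : ∀ e ∈ S, 16 * e.D ^ 2 < N) (hN0 : 0 < N) :
    ∃ t : ZMod k, ∀ s : ZMod k,
      A.card ≤ (S.card * 4) * ((range N).filter (fun a => N < a ^ 2 ∧ 2 * a ≤ N ∧
      om a ≤ K + ∑ e ∈ S, om e.B ∧
      om (N - a) ≤ K + ∑ e ∈ S, om e.B ∧ g a + g (N - a) = t + 2 * s)).card := by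
  classical
  have : NeZero k := ⟨hk.ne'⟩
  have hcls : ∀ a : ℕ, ∃ t : Fin 2, ∀ j : ZMod k, ∃ e ∈ S,
      g (a + e.Y * N) + (g (e.E * N - e.B * a) + g e.B) - 2 * g e.D = t.val + 2 * j := by
    intro a
    obtain ⟨s, hs⟩ := hU (fun Y => g (a + Y * N)) (fun x => g (x.1 * N - x.2 * a) + g x.2)
    obtain ⟨t, u, htu⟩ : ∃ t : Fin 2, ∃ u : ℕ, s.val = t.val + 2 * u := by
      refine ⟨⟨s.val % 2, Nat.mod_lt _ two_pos⟩, s.val / 2, ?_⟩
      simp only
      omega
    refine ⟨t, ?_⟩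
    intro j
    obtain ⟨e, he, hes⟩ := hs (j - u)
    refine ⟨e, he, hes.trans ?_⟩
    have h1 : s = ((t.val + 2 * u : ℕ) : ZMod k) := by
      rw [← htu, ZMod.natCast_val, ZMod.cast_id]
    rw [h1]
    push_cast
    ring
  choose cls hcls using hcls
  obtain ⟨t, ht⟩ : ∃ t : Fin 2, A.card ≤ 2 * (A.filter (fun a => cls a = t)).card := by
    by_contra hcon
    push Not at hcon
    have h1 := Finset.card_eq_sum_card_fiberwise (f := cls) (s := A) (t := univ)
      (fun z _ => mem_univ _)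
    rw [Fin.sum_univ_two] at h1
    have h2 := hcon 0
    have h3 := hcon 1
    omega
  refine ⟨t.val, ?_⟩
  intro s
  have h1 := count_step (K := K) hS om hom g hg ((t.val : ZMod k) + 2 * s) (A.filter (fun a => cls a = t))
    (fun a ha => hA a (mem_filter.1 ha).1)
    (by
      intro a ha
      have := hcls a s
      rwa [(mem_filter.1 ha).2] at this) hN hN0
  calc A.card ≤ 2 * (A.filter (fun a => cls a = t)).card := ht
    _ ≤ 2 * ((S.card * 2) * _) := Nat.mul_le_mul_left _ h1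
    _ = _ := by ring

end Pool.Agent.GA
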