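import Mathlib
import Pool.Agent.GA.Defs

set_option autoImplicit false

/-!
# The explicit kernel (module M1b)

For `δ > 0` put `lam = 12 / δ`.  The function `h` below is continuous on `[0, 2 lam]` and its cosine
transform is `(δ² - u²) (1 - cos (lam u))² / u⁴`, which is non-positive for `|u| > δ` and has a
positive integral.
-/

namespace Pool.Agent.GA

open Finset MeasureTheory ArithmeticFunction Filter

/-- the normalised transform -/
noncomputable def kerPhi (v : ℝ) : ℝ := (144 - v ^ 2) * (1 - Real.cos v) ^ 2 / v ^ 4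

/-- the kernel -/
noncomputable def kerH (δ lam t : ℝ) : ℝ :=
  δ ^ 2 * ((2 * lam - t) ^ 3 / 12 - (max (lam - t) 0) ^ 3 / 3) - 2 * max (lam - t) 0
    + (2 * lam - t) / 2

theorem kerH_continuous (δ lam : ℝ) : Continuous (kerH δ lam) := by
  unfold kerH
  fun_prop

theorem one_sub_cos_nonneg (v : ℝ) : 0 ≤ 1 - Real.cos v := by
  have := Real.cos_le_one v
  linarith

theorem one_sub_cos_le_two (v : ℝ) : 1 - Real.cos v ≤ 2 := by
  have := Real.neg_one_le_cos v
  linarith

theorem one_sub_cos_le_sq (v : ℝ) : 1 - Real.cos v ≤ v ^ 2 / 2 := by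
  have := Real.one_sub_sq_div_two_le_cos (x := v)
  linarith

theorem one_sub_cos_ge (v : ℝ) (hv : |v| ≤ 1) : v ^ 2 / 4 ≤ 1 - Real.cos v := by
  have h := Real.cos_bound hv
  have h1 := (abs_le.1 h).2
  have h2 : |v| ^ 4 ≤ v ^ 2 := by
    have h3 : |v| ^ 2 ≤ 1 := by
      have := abs_nonneg v
      nlinarith
    have h4 : |v| ^ 4 = |v| ^ 2 * |v| ^ 2 := by ring
    rw [h4, sq_abs]
    rw [sq_abs] at h3
    nlinarith [sq_nonneg v]
  nlinarith [sq_nonneg v]

/-- `(1 - cos v)² ≤ v²` -/
theorem sq_one_sub_cos_le_sq (v : ℝ) : (1 - Real.cos v) ^ 2 ≤ v ^ 2 := by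
  have h1 := one_sub_cos_nonneg v
  have h2 := one_sub_cos_le_two v
  have h3 := one_sub_cos_le_sq v
  nlinarith

theorem sq_one_sub_cos_le_four (v : ℝ) : (1 - Real.cos v) ^ 2 ≤ 4 := by
  have h1 := one_sub_cos_nonneg v
  have h2 := one_sub_cos_le_two v
  nlinarith

theorem sq_one_sub_cos_le_pow (v : ℝ) : (1 - Real.cos v) ^ 2 ≤ v ^ 4 / 4 := by
  have h1 := one_sub_cos_nonneg v
  have h3 := one_sub_cos_le_sq v
  have : (v ^ 2 / 2) ^ 2 = v ^ 4 / 4 := by ring
  rw [← this]
  exact pow_le_pow_left₀ h1 h3 2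

theorem kerPhi_measurable : Measurable kerPhi := by
  unfold kerPhi
  fun_prop

theorem kerPhi_abs_le (v : ℝ) : |kerPhi v| ≤ 185 * (1 + v ^ 2)⁻¹ := by
  have hpos : 0 < 1 + v ^ 2 := by positivity
  by_cases hv : v = 0
  · subst hv
    simp [kerPhi]
  have hv4 : 0 < v ^ 4 := by positivity
  have hv2 : 0 < v ^ 2 := by positivity
  have hA : |144 - v ^ 2| ≤ 144 + v ^ 2 := by
    rw [abs_le]
    constructor <;> linarith
  unfold kerPhi
  rw [abs_div, abs_mul, abs_of_nonneg (sq_nonneg (1 - Real.cos v)), abs_of_pos hv4,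
    div_le_iff₀ hv4]
  have h1 := sq_one_sub_cos_le_sq v
  have h2 := sq_one_sub_cos_le_four v
  have h3 := sq_one_sub_cos_le_pow v
  set w := (1 - Real.cos v) ^ 2 with hw
  have hw0 : 0 ≤ w := by rw [hw]; positivity
  have key : (144 + v ^ 2) * w * (1 + v ^ 2) ≤ 185 * v ^ 4 := by
    have e : (144 + v ^ 2) * w * (1 + v ^ 2) = 144 * w + 145 * (v ^ 2 * w) + v ^ 4 * w := by ring
    rw [e]
    have e1 : v ^ 2 * w ≤ v ^ 2 * v ^ 2 := mul_le_mul_of_nonneg_left h1 hv2.le
    have e2 : v ^ 4 * w ≤ v ^ 4 * 4 := mul_le_mul_of_nonneg_left h2 hv4.le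
    have e3 : v ^ 2 * v ^ 2 = v ^ 4 := by ring
    rw [e3] at e1
    linarith
  calc |144 - v ^ 2| * w ≤ (144 + v ^ 2) * w := mul_le_mul_of_nonneg_right hA hw0
    _ ≤ 185 * (1 + v ^ 2)⁻¹ * v ^ 4 := by
      rw [mul_comm 185 _, mul_assoc, inv_mul_eq_div, le_div_iff₀ hpos]
      exact key

theorem kerPhi_integrable : Integrable kerPhi := by
  have h : Integrable (fun v : ℝ => 185 * (1 + v ^ 2)⁻¹) := integrable_inv_one_add_sq.const_mul 185
  refine h.mono' kerPhi_measurable.aestronglyMeasurable (Eventually.of_forall fun v => ?_)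
  rw [Real.norm_eq_abs]
  exact kerPhi_abs_le v

theorem kerPhi_ge (v : ℝ) (hv : v ≠ 0) :
    (Set.Icc (-1 : ℝ) 1).indicator (fun _ => (9 : ℝ)) v - 5 * (1 + v ^ 2)⁻¹ ≤ kerPhi v := by
  have hpos : 0 < 1 + v ^ 2 := by positivity
  have hv4 : 0 < v ^ 4 := by positivity
  have hv2 : 0 < v ^ 2 := by positivity
  have e : kerPhi v = 144 * ((1 - Real.cos v) ^ 2 / v ^ 4) - (1 - Real.cos v) ^ 2 / v ^ 2 := by
    unfold kerPhi
    field_simp
  have h1 : (1 - Real.cos v) ^ 2 / v ^ 2 ≤ 5 * (1 + v ^ 2)⁻¹ := by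
    rw [div_le_iff₀ hv2, mul_assoc, inv_mul_eq_div, mul_div_assoc', le_div_iff₀ hpos]
    have h1 := sq_one_sub_cos_le_sq v
    have h2 := sq_one_sub_cos_le_four v
    nlinarith
  have h2 : (Set.Icc (-1 : ℝ) 1).indicator (fun _ => (9 : ℝ)) v
      ≤ 144 * ((1 - Real.cos v) ^ 2 / v ^ 4) := by
    by_cases hm : v ∈ Set.Icc (-1 : ℝ) 1
    · rw [Set.indicator_of_mem hm]
      have hv1 : |v| ≤ 1 := abs_le.2 hm
      have h3 := one_sub_cos_ge v hv1
      have h4 : (v ^ 2 / 4) ^ 2 ≤ (1 - Real.cos v) ^ 2 := pow_le_pow_left₀ (by positivity) h3 2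
      have h5 : (v ^ 2 / 4) ^ 2 = v ^ 4 / 16 := by ring
      rw [h5] at h4
      have h6 : (1 : ℝ) / 16 ≤ (1 - Real.cos v) ^ 2 / v ^ 4 := by
        rw [le_div_iff₀ hv4]
        linarith
      linarith
    · rw [Set.indicator_of_notMem hm]
      positivity
  rw [e]
  linarith

theorem kerPhi_integral_pos : 0 < ∫ v, kerPhi v := by
  have hi1 : Integrable ((Set.Icc (-1 : ℝ) 1).indicator (fun _ => (9 : ℝ))) := by
    rw [integrable_indicator_iff measurableSet_Icc]
    exact integrableOn_const (by simp)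
  have hi2 : Integrable (fun v : ℝ => 5 * (1 + v ^ 2)⁻¹) := integrable_inv_one_add_sq.const_mul 5
  have h1 : ∫ v, ((Set.Icc (-1 : ℝ) 1).indicator (fun _ => (9 : ℝ)) v - 5 * (1 + v ^ 2)⁻¹)
      ≤ ∫ v, kerPhi v := by
    refine integral_mono_ae (hi1.sub hi2) kerPhi_integrable ?_
    have : ∀ᵐ v : ℝ, v ≠ 0 := by
      simp [ae_iff, measure_singleton]
    filter_upwards [this] with v hv
    exact kerPhi_ge v hv
  have h2 : ∫ v, ((Set.Icc (-1 : ℝ) 1).indicator (fun _ => (9 : ℝ)) v - 5 * (1 + v ^ 2)⁻¹)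
      = 18 - 5 * Real.pi := by
    rw [integral_sub hi1 hi2, integral_indicator measurableSet_Icc, integral_const_mul,
      integral_univ_inv_one_add_sq]
    simp
    norm_num
  rw [h2] at h1
  have h3 := Real.pi_lt_d2
  linarith

/-- `∫_0^a (a - t) cos (t u) = (1 - cos (a u)) / u²` -/
theorem integral_K (a u : ℝ) (hu : u ≠ 0) :
    ∫ t in (0 : ℝ)..a, (a - t) * Real.cos (t * u) = (1 - Real.cos (a * u)) / u ^ 2 := by
  have hd : ∀ t ∈ Set.uIcc (0 : ℝ) a, HasDerivAt
      (fun t : ℝ => (a - t) * Real.sin (t * u) / u - Real.cos (t * u) / u ^ 2)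
      ((a - t) * Real.cos (t * u)) t := by
    intro t _
    have h1 : HasDerivAt (fun t : ℝ => t * u) u t := by
      simpa using (hasDerivAt_id t).mul_const u
    have h2 : HasDerivAt (fun t : ℝ => a - t) (-1) t := by
      simpa using (hasDerivAt_id t).const_sub a
    have h3 := (h2.mul h1.sin).div_const u
    have h4 := h1.cos.div_const (u ^ 2)
    refine (h3.sub h4).congr_deriv ?_
    field_simp
    ring
  rw [intervalIntegral.integral_eq_sub_of_hasDerivAt hd]
  · simp
    field_simp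
    ring
  · apply Continuous.intervalIntegrable
    fun_prop

/-- `∫_0^a (a - t)³ cos (t u) = 3 a² / u² - 6 (1 - cos (a u)) / u⁴` -/
theorem integral_J (a u : ℝ) (hu : u ≠ 0) :
    ∫ t in (0 : ℝ)..a, (a - t) ^ 3 * Real.cos (t * u)
      = 3 * a ^ 2 / u ^ 2 - 6 * (1 - Real.cos (a * u)) / u ^ 4 := by
  have hd : ∀ t ∈ Set.uIcc (0 : ℝ) a, HasDerivAt
      (fun t : ℝ => (a - t) ^ 3 * Real.sin (t * u) / u - 3 * ((a - t) ^ 2 * Real.cos (t * u)) / u ^ 2
        - 6 * ((a - t) * Real.sin (t * u)) / u ^ 3 + 6 * Real.cos (t * u) / u ^ 4)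
      ((a - t) ^ 3 * Real.cos (t * u)) t := by
    intro t _
    have h1 : HasDerivAt (fun t : ℝ => t * u) u t := by
      simpa using (hasDerivAt_id t).mul_const u
    have h2 : HasDerivAt (fun t : ℝ => a - t) (-1) t := by
      simpa using (hasDerivAt_id t).const_sub a
    have h3 := ((h2.pow 3).mul h1.sin).div_const u
    have h4 := (((h2.pow 2).mul h1.cos).const_mul 3).div_const (u ^ 2)
    have h5 := ((h2.mul h1.sin).const_mul 6).div_const (u ^ 3)
    have h6 := (h1.cos.const_mul 6).div_const (u ^ 4)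
    refine (((h3.sub h4).sub h5).add h6).congr_deriv ?_
    simp
    field_simp
    ring
  rw [intervalIntegral.integral_eq_sub_of_hasDerivAt hd]
  · simp
    field_simp
    ring
  · apply Continuous.intervalIntegrable
    fun_prop

/-- the transform of the truncated part -/
theorem integral_trunc (g : ℝ → ℝ) (hg : Continuous g) (hg0 : g 0 = 0) (lam u : ℝ) (hl : 0 < lam) :
    ∫ t in (0 : ℝ)..(2 * lam), g (max (lam - t) 0) * Real.cos (t * u)
      = ∫ t in (0 : ℝ)..lam, g (lam - t) * Real.cos (t * u) := by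
  have hc : Continuous fun t : ℝ => g (max (lam - t) 0) * Real.cos (t * u) := by fun_prop
  rw [← intervalIntegral.integral_add_adjacent_intervals (hc.intervalIntegrable 0 lam)
    (hc.intervalIntegrable lam (2 * lam))]
  have h1 : ∫ t in lam..(2 * lam), g (max (lam - t) 0) * Real.cos (t * u) = 0 := by
    rw [intervalIntegral.integral_congr (g := fun _ => (0 : ℝ))]
    · simp
    · intro t ht
      rw [Set.uIcc_of_le (by linarith)] at ht
      have : max (lam - t) 0 = 0 := max_eq_right (by linarith [ht.1])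
      simp [this, hg0]
  rw [h1, add_zero]
  apply intervalIntegral.integral_congr
  intro t ht
  rw [Set.uIcc_of_le hl.le] at ht
  have : max (lam - t) 0 = lam - t := max_eq_left (by linarith [ht.2])
  simp [this]

theorem cosT_kerH (δ lam u : ℝ) (hl : 0 < lam) (hdl : δ * lam = 12) (hu : u ≠ 0) :
    cosT (kerH δ lam) (2 * lam) u = lam ^ 2 * kerPhi (lam * u) := by
  have e : ∀ t : ℝ, kerH δ lam t * Real.cos (t * u)
      = δ ^ 2 / 12 * ((2 * lam - t) ^ 3 * Real.cos (t * u))
        - δ ^ 2 / 3 * ((max (lam - t) 0) ^ 3 * Real.cos (t * u))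
        - 2 * ((max (lam - t) 0) * Real.cos (t * u))
        + 1 / 2 * ((2 * lam - t) * Real.cos (t * u)) := by
    intro t
    unfold kerH
    ring
  have i1 : IntervalIntegrable (fun t : ℝ => δ ^ 2 / 12 * ((2 * lam - t) ^ 3 * Real.cos (t * u)))
      volume 0 (2 * lam) := Continuous.intervalIntegrable (by fun_prop) _ _
  have i2 : IntervalIntegrable
      (fun t : ℝ => δ ^ 2 / 3 * ((max (lam - t) 0) ^ 3 * Real.cos (t * u)))
      volume 0 (2 * lam) := Continuous.intervalIntegrable (by fun_prop) _ _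
  have i3 : IntervalIntegrable (fun t : ℝ => 2 * ((max (lam - t) 0) * Real.cos (t * u)))
      volume 0 (2 * lam) := Continuous.intervalIntegrable (by fun_prop) _ _
  have i4 : IntervalIntegrable (fun t : ℝ => 1 / 2 * ((2 * lam - t) * Real.cos (t * u)))
      volume 0 (2 * lam) := Continuous.intervalIntegrable (by fun_prop) _ _
  unfold cosT
  simp only [e]
  rw [intervalIntegral.integral_add ((i1.sub i2).sub i3) i4,
    intervalIntegral.integral_sub (i1.sub i2) i3, intervalIntegral.integral_sub i1 i2,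
    intervalIntegral.integral_const_mul, intervalIntegral.integral_const_mul,
    intervalIntegral.integral_const_mul, intervalIntegral.integral_const_mul,
    integral_K _ _ hu, integral_J _ _ hu,
    integral_trunc (fun x => x ^ 3) (by fun_prop) (by simp) lam u hl,
    integral_trunc (fun x => x) (by fun_prop) (by simp) lam u hl,
    integral_K _ _ hu, integral_J _ _ hu]
  have hc2 : Real.cos (2 * lam * u) = 2 * Real.cos (lam * u) ^ 2 - 1 := by
    rw [mul_assoc, Real.cos_two_mul]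
  rw [hc2]
  unfold kerPhi
  have hl' : lam ≠ 0 := hl.ne'
  have hd : δ = 12 / lam := by
    field_simp
    exact hdl
  subst hd
  generalize Real.cos (lam * u) = c
  field_simp
  ring

/-- M1b (file `Kernel.lean`) -/
theorem exists_kernel (δ : ℝ) (hδ : 0 < δ) :
    ∃ (h : ℝ → ℝ) (L M : ℝ), Continuous h ∧ 0 < L ∧ 0 ≤ M ∧ Integrable (cosT h L) ∧
      (∀ u, |u| ≤ δ → cosT h L u ≤ M) ∧ (∀ u, δ < |u| → cosT h L u ≤ 0) ∧
      0 < ∫ u, cosT h L u := by
  set lam : ℝ := 12 / δ with hlam
  have hl : 0 < lam := by positivity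
  have hdl : δ * lam = 12 := by
    rw [hlam]
    field_simp
  have hf : ∀ u : ℝ, u ≠ 0 → cosT (kerH δ lam) (2 * lam) u = lam ^ 2 * kerPhi (lam * u) :=
    fun u hu => cosT_kerH δ lam u hl hdl hu
  have hne : ∀ᵐ v : ℝ, v ≠ 0 := by
    simp [ae_iff, measure_singleton]
  have hae : (fun u => lam ^ 2 * kerPhi (lam * u)) =ᵐ[volume] cosT (kerH δ lam) (2 * lam) := by
    filter_upwards [hne] with u hu
    exact (hf u hu).symm
  have hint : Integrable (fun u => lam ^ 2 * kerPhi (lam * u)) :=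
    (kerPhi_integrable.comp_mul_left' hl.ne').const_mul _
  refine ⟨kerH δ lam, 2 * lam, max (lam ^ 2 * 185) (cosT (kerH δ lam) (2 * lam) 0),
    kerH_continuous δ lam, by linarith, le_trans (by positivity) (le_max_left _ _),
    hint.congr hae, ?_, ?_, ?_⟩
  · intro u _
    by_cases hu : u = 0
    · subst hu
      exact le_max_right _ _
    · refine le_trans ?_ (le_max_left _ _)
      rw [hf u hu]
      have h1 := (le_abs_self _).trans (kerPhi_abs_le (lam * u))
      have h2 : (1 + (lam * u) ^ 2)⁻¹ ≤ 1 := by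
        apply inv_le_one_of_one_le₀
        nlinarith [sq_nonneg (lam * u)]
      have h3 : kerPhi (lam * u) ≤ 185 := by linarith
      exact mul_le_mul_of_nonneg_left h3 (by positivity)
  · intro u hu
    have hu0 : u ≠ 0 := by
      rintro rfl
      simp at hu
      linarith
    rw [hf u hu0]
    have h1 : 144 ≤ (lam * u) ^ 2 := by
      have h2 : 12 ≤ |lam * u| := by
        rw [abs_mul, abs_of_pos hl, ← hdl, mul_comm]
        exact mul_le_mul_of_nonneg_left hu.le hl.le
      rw [← sq_abs]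
      nlinarith
    have h2 : kerPhi (lam * u) ≤ 0 := by
      unfold kerPhi
      apply div_nonpos_of_nonpos_of_nonneg
      · exact mul_nonpos_of_nonpos_of_nonneg (by linarith) (by positivity)
      · positivity
    exact mul_nonpos_of_nonneg_of_nonpos (by positivity) h2
  · rw [← integral_congr_ae hae, integral_const_mul]
    have h1 : ∫ u, kerPhi (lam * u) = |lam⁻¹| • ∫ v, kerPhi v :=
      Measure.integral_comp_mul_left kerPhi lam
    rw [h1, smul_eq_mul]
    have h2 := kerPhi_integral_pos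
    positivity

end Pool.Agent.GA
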