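import Mathlib
import Pool.Agent.GA.Defs

set_option autoImplicit false

/-!
# A lower bound for the mass of primes `1 mod q` in short multiplicative windows
-/

namespace Pool.Agent.GA

open Finset MeasureTheory ArithmeticFunction Filter Topology

namespace Tauber

/-- `exp (-i t x)` -/
noncomputable def ex (t x : ℝ) : ℂ := Complex.exp (-((t * x : ℝ) : ℂ) * Complex.I)

lemma continuous_ex (x : ℝ) : Continuous (fun t => ex t x) := by
  unfold ex; fun_prop

lemma norm_ex (t x : ℝ) : ‖ex t x‖ = 1 := by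
  rw [ex, ← Complex.ofReal_neg, Complex.norm_exp_ofReal_mul_I]

lemma ex_mul_exp_re (t x u : ℝ) :
    (ex t x * Complex.exp (((t * u : ℝ) : ℂ) * Complex.I)).re = Real.cos (t * (u - x)) := by
  rw [ex, ← Complex.exp_add, ← add_mul, ← Complex.ofReal_neg, ← Complex.ofReal_add,
    Complex.exp_ofReal_mul_I_re]
  congr 1; ring

lemma term_re (f : ℕ → ℝ) (h0 : f 0 = 0) (σ t x : ℝ) (n : ℕ) :
    (ex t x * LSeries.term (fun n => ((f n : ℝ) : ℂ)) ((σ : ℂ) - t * Complex.I) n).re
      = f n / (n : ℝ) ^ σ * Real.cos (t * (Real.log n - x)) := by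
  rcases Nat.eq_zero_or_pos n with rfl | hn
  · simp [h0]
  · have hn' : (0 : ℝ) < n := by exact_mod_cast hn
    have hne : (n : ℂ) ≠ 0 := by exact_mod_cast hn.ne'
    rw [LSeries.term_of_ne_zero hn.ne', ← ex_mul_exp_re, Real.rpow_def_of_pos hn',
      Complex.cpow_def_of_ne_zero hne]
    have hlog : Complex.log (n : ℂ) = ((Real.log n : ℝ) : ℂ) := by
      rw [Complex.ofReal_log hn'.le]; simp
    rw [hlog]
    have e1 : (((f n : ℝ) : ℂ) / Complex.exp (((Real.log n : ℝ) : ℂ) * ((σ : ℂ) - t * Complex.I)))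
        = ((f n / Real.exp (Real.log n * σ) : ℝ) : ℂ)
          * Complex.exp (((t * Real.log n : ℝ) : ℂ) * Complex.I) := by
      have : (((Real.log n : ℝ) : ℂ) * ((σ : ℂ) - t * Complex.I))
          = (((Real.log n * σ : ℝ)) : ℂ) - (((t * Real.log n : ℝ) : ℂ) * Complex.I) := by
        push_cast; ring
      rw [this, Complex.exp_sub, Complex.ofReal_div, Complex.ofReal_exp]
      rw [div_div_eq_mul_div]
      ring
    rw [e1, mul_left_comm, Complex.re_ofReal_mul]

/-- the inner polar integral -/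
lemma polar_inner (ε t x : ℝ) (hε : 0 < ε) :
    ∫ u in Set.Ioi (0 : ℝ), Real.exp (-ε * u) * Real.cos (t * (u - x))
      = (ex t x / ((ε : ℂ) - t * Complex.I)).re := by
  have ha : (-((ε : ℂ) - t * Complex.I)).re < 0 := by simp [hε]
  have h1 := integral_exp_mul_complex_Ioi ha 0
  have h2 := integrableOn_exp_mul_complex_Ioi ha 0
  have h3 : (ex t x / ((ε : ℂ) - t * Complex.I))
      = ∫ u : ℝ in Set.Ioi 0, ex t x * Complex.exp (-((ε : ℂ) - t * Complex.I) * u) := by
    rw [integral_const_mul, h1]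
    simp only [Complex.ofReal_zero, mul_zero, Complex.exp_zero]
    rw [div_eq_mul_inv]
    congr 1
    rw [neg_div_neg_eq, one_div]
  rw [h3]
  have h4 := Complex.reCLM.integral_comp_comm (h2.const_mul (ex t x))
  simp only [Complex.reCLM_apply] at h4
  rw [← h4]
  refine integral_congr_ae (Eventually.of_forall fun u => ?_)
  simp only
  have : -((ε : ℂ) - t * Complex.I) * u
      = ((-ε * u : ℝ) : ℂ) + ((t * u : ℝ) : ℂ) * Complex.I := by push_cast; ring
  rw [this, Complex.exp_add, mul_left_comm, ← Complex.ofReal_exp, Complex.re_ofReal_mul,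
    ex_mul_exp_re]

/-- the polar part -/
lemma polar (h : ℝ → ℝ) (hh : Continuous h) (L : ℝ) (ε x : ℝ) (hε : 0 < ε) :
    ∫ t in (0 : ℝ)..L, h t * (ex t x / ((ε : ℂ) - t * Complex.I)).re
      = ∫ u in Set.Ioi (0 : ℝ), Real.exp (-ε * u) * cosT h L (u - x) := by
  have e1 : ∀ t : ℝ, h t * (ex t x / ((ε : ℂ) - t * Complex.I)).re
      = ∫ u in Set.Ioi (0 : ℝ), h t * (Real.exp (-ε * u) * Real.cos (t * (u - x))) := by
    intro t
    rw [integral_const_mul, polar_inner ε t x hε]
  simp_rw [e1]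
  rw [intervalIntegral_integral_swap]
  · refine integral_congr_ae (Eventually.of_forall fun u => ?_)
    simp only [cosT]
    rw [← intervalIntegral.integral_const_mul]
    refine intervalIntegral.integral_congr fun t _ => ?_
    ring
  · have i1 : Integrable h (volume.restrict (Set.uIoc 0 L)) := by
      have := hh.intervalIntegrable (μ := volume) 0 L
      rw [intervalIntegrable_iff] at this
      exact this
    have i2 : Integrable (fun u : ℝ => Real.exp (-ε * u)) (volume.restrict (Set.Ioi 0)) :=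
      integrableOn_exp_mul_Ioi (by linarith) 0
    have i3 := i1.mul_prod i2
    refine i3.mono ?_ ?_
    · apply Continuous.aestronglyMeasurable
      simp only [Function.uncurry_def]
      fun_prop
    · refine Eventually.of_forall fun z => ?_
      simp only [Function.uncurry_def]
      rw [← mul_assoc, norm_mul]
      have : ‖Real.cos (z.1 * (z.2 - x))‖ ≤ 1 := by
        rw [Real.norm_eq_abs]; exact Real.abs_cos_le_one _
      calc ‖h z.1 * Real.exp (-ε * z.2)‖ * ‖Real.cos (z.1 * (z.2 - x))‖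
          ≤ ‖h z.1 * Real.exp (-ε * z.2)‖ * 1 := by gcongr
        _ = _ := mul_one _

/-- the translated integral -/
lemma integral_translate (g : ℝ → ℝ) (x : ℝ) :
    ∫ u in Set.Ioi (0 : ℝ), g (u - x) = ∫ v in Set.Ioi (-x), g v := by
  rw [← integral_indicator measurableSet_Ioi, ← integral_indicator measurableSet_Ioi]
  rw [← integral_sub_right_eq_self (fun v => (Set.Ioi (-x)).indicator g v) x]
  refine integral_congr_ae (Eventually.of_forall fun u => ?_)
  simp only [Set.indicator, Set.mem_Ioi]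
  by_cases hu : 0 < u
  · rw [if_pos hu, if_pos (by linarith)]
  · rw [if_neg hu, if_neg (by linarith)]

lemma tendsto_translate (g : ℝ → ℝ) (hg : Integrable g) :
    Tendsto (fun x => ∫ u in Set.Ioi (0 : ℝ), g (u - x)) atTop (𝓝 (∫ u, g u)) := by
  simp_rw [integral_translate]
  exact (aecover_Ioi tendsto_neg_atTop_atBot).integral_tendsto_of_countably_generated hg

/-- Riemann-Lebesgue for the boundary term -/
lemma tendsto_RL (F : ℝ → ℂ) (L : ℝ) (hL : 0 < L) :
    Tendsto (fun x : ℝ => ∫ t in (0 : ℝ)..L, (ex t x * F t)) atTop (𝓝 0) := by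
  have h1 := Real.tendsto_integral_exp_smul_cocompact ((Set.Ioc 0 L).indicator F)
  have h2 : Tendsto (fun x : ℝ => x / (2 * Real.pi)) atTop (cocompact ℝ) := by
    have : Tendsto (fun x : ℝ => x / (2 * Real.pi)) atTop atTop :=
      tendsto_id.atTop_div_const (by positivity)
    exact this.mono_right atTop_le_cocompact
  refine (h1.comp h2).congr fun x => ?_
  simp only [Function.comp]
  rw [intervalIntegral.integral_of_le hL.le, ← integral_indicator measurableSet_Ioc]
  refine integral_congr_ae (Eventually.of_forall fun t => ?_)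
  simp only [Set.indicator]
  by_cases ht : t ∈ Set.Ioc 0 L
  · rw [if_pos ht, if_pos ht, Circle.smul_def, Real.fourierChar_apply, smul_eq_mul, ex]
    congr 2
    have : (Real.pi : ℂ) ≠ 0 := by exact_mod_cast Real.pi_ne_zero
    push_cast
    field_simp
  · rw [if_neg ht, if_neg ht, smul_zero]

variable {q : ℕ} [NeZero q]

/-- the weights -/
noncomputable def fw (q : ℕ) (n : ℕ) : ℝ := vonMangoldt.residueClass (1 : ZMod q) n

lemma fw_nonneg (q n : ℕ) : 0 ≤ fw q n := vonMangoldt.residueClass_nonneg _ n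

lemma fw_zero (q : ℕ) : fw q 0 = 0 := vonMangoldt.residueClass_apply_zero _

lemma fw_summable (q : ℕ) (σ : ℝ) (hσ : 1 < σ) : Summable fun n : ℕ => fw q n / (n : ℝ) ^ σ :=
  LSeries.summable_real_of_abscissaOfAbsConv_lt <|
    (vonMangoldt.abscissaOfAbsConv_residueClass_le_one (1 : ZMod q)).trans_lt <| mod_cast hσ

/-- the regular part -/
noncomputable def Ax0 (q : ℕ) [NeZero q] (s : ℂ) : ℂ :=
  vonMangoldt.LFunctionResidueClassAux (1 : ZMod q) s

lemma Ax0_continuousOn : ContinuousOn (Ax0 q) {s | 1 ≤ s.re} :=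
  vonMangoldt.continuousOn_LFunctionResidueClassAux (1 : ZMod q)

lemma LSeries_eq0 (s : ℂ) (hs : 1 < s.re) :
    LSeries (fun n => ((fw q n : ℝ) : ℂ)) s = Ax0 q s + (q.totient : ℂ)⁻¹ / (s - 1) := by
  have := vonMangoldt.eqOn_LFunctionResidueClassAux (q := q) (a := (1 : ZMod q)) isUnit_one hs
  simp only at this
  rw [Ax0, this]
  simp only [fw]
  ring

/-- there is a function `A` with the properties we need -/
lemma exists_Ax (q : ℕ) [NeZero q] : ∃ A : ℂ → ℂ, ContinuousOn A {s | 1 ≤ s.re} ∧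
    ∀ s : ℂ, 1 < s.re →
      LSeries (fun n => ((fw q n : ℝ) : ℂ)) s = A s + (q.totient : ℂ)⁻¹ / (s - 1) :=
  ⟨Ax0 q, Ax0_continuousOn, LSeries_eq0⟩

/-- continuity of the regular part, extended to the left by truncation -/
lemma trunc_continuous {A : ℂ → ℂ} (hA : ContinuousOn A {s | 1 ≤ s.re}) :
    Continuous (fun p : ℝ × ℝ => A ((((1 + max p.1 0 : ℝ)) : ℂ) - p.2 * Complex.I)) := by
  refine hA.comp_continuous (by fun_prop) fun p => ?_
  simp

lemma line_continuous {A : ℂ → ℂ} (hA : ContinuousOn A {s | 1 ≤ s.re}) (ε : ℝ) :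
    Continuous (fun t : ℝ => A ((((1 + max ε 0 : ℝ)) : ℂ) - t * Complex.I)) := by
  refine hA.comp_continuous (by fun_prop) fun p => ?_
  simp

/-- the swapped sum -/
lemma hasSum_swap (h : ℝ → ℝ) (hh : Continuous h) (L : ℝ) (σ x : ℝ) (hσ : 1 < σ) :
    HasSum (fun n : ℕ => fw q n / (n : ℝ) ^ σ * cosT h L (Real.log n - x))
      (∫ t in (0 : ℝ)..L, h t *
        (ex t x * LSeries (fun n => ((fw q n : ℝ) : ℂ)) ((σ : ℂ) - t * Complex.I)).re) := by
  have key := intervalIntegral.hasSum_integral_of_dominated_convergence (μ := volume)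
    (a := (0 : ℝ)) (b := L)
    (F := fun (n : ℕ) (t : ℝ) => h t * (fw q n / (n : ℝ) ^ σ * Real.cos (t * (Real.log n - x))))
    (f := fun t : ℝ => h t *
        (ex t x * LSeries (fun n => ((fw q n : ℝ) : ℂ)) ((σ : ℂ) - t * Complex.I)).re)
    (fun n t => |h t| * (fw q n / (n : ℝ) ^ σ))
    (fun n => (by fun_prop : Continuous _).aestronglyMeasurable)
    (fun n => Eventually.of_forall fun t _ => by
      have h0 : 0 ≤ fw q n / (n : ℝ) ^ σ :=
        div_nonneg (fw_nonneg q n) (Real.rpow_nonneg (Nat.cast_nonneg n) _)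
      rw [Real.norm_eq_abs, abs_mul, abs_mul, abs_of_nonneg h0]
      have := Real.abs_cos_le_one (t * (Real.log n - x))
      calc |h t| * (fw q n / (n : ℝ) ^ σ * |Real.cos (t * (Real.log n - x))|)
          ≤ |h t| * (fw q n / (n : ℝ) ^ σ * 1) := by gcongr
        _ = _ := by rw [mul_one])
    (Eventually.of_forall fun t _ => (fw_summable q σ hσ).mul_left _)
    (by
      simp_rw [tsum_mul_left]
      exact (hh.abs.mul continuous_const).intervalIntegrable _ _)
    (Eventually.of_forall fun t _ => by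
      have hs : LSeriesSummable (fun n => ((fw q n : ℝ) : ℂ)) ((σ : ℂ) - t * Complex.I) := by
        apply LSeriesSummable_of_abscissaOfAbsConv_lt_re
        refine (vonMangoldt.abscissaOfAbsConv_residueClass_le_one (1 : ZMod q)).trans_lt ?_
        simp only [Complex.sub_re, Complex.ofReal_re, Complex.mul_re, Complex.I_re, mul_zero,
          Complex.ofReal_im, Complex.I_im, mul_one, sub_self, sub_zero]
        exact_mod_cast hσ
      have h1 := (Complex.hasSum_re (hs.hasSum.mul_left (ex t x))).mul_left (h t)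
      have e : (fun n : ℕ => h t * (fw q n / (n : ℝ) ^ σ * Real.cos (t * (Real.log n - x))))
          = fun n : ℕ => h t * (ex t x * LSeries.term (fun n => ((fw q n : ℝ) : ℂ))
            ((σ : ℂ) - t * Complex.I) n).re :=
        funext fun n => by rw [term_re (fw q) (fw_zero q)]
      rw [e]
      exact h1)
  have e : (fun n : ℕ => fw q n / (n : ℝ) ^ σ * cosT h L (Real.log n - x))
      = fun n : ℕ => ∫ t in (0 : ℝ)..L,
        h t * (fw q n / (n : ℝ) ^ σ * Real.cos (t * (Real.log n - x))) := by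
    funext n
    unfold cosT
    rw [← intervalIntegral.integral_const_mul]
    refine intervalIntegral.integral_congr fun t _ => ?_
    ring
  rw [e]
  exact key

/-- the main inequality for `σ = 1 + ε` -/
lemma main_ineq {A : ℂ → ℂ} (hA : ContinuousOn A {s | 1 ≤ s.re})
    (hA2 : ∀ s : ℂ, 1 < s.re →
      LSeries (fun n => ((fw q n : ℝ) : ℂ)) s = A s + (q.totient : ℂ)⁻¹ / (s - 1))
    (h : ℝ → ℝ) (hh : Continuous h) (L δ M : ℝ) (hL : 0 < L) (hM : 0 ≤ M)
    (h1 : ∀ u, |u| ≤ δ → cosT h L u ≤ M) (h2 : ∀ u, δ < |u| → cosT h L u ≤ 0)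
    (ε x : ℝ) (hε : 0 < ε) :
    (∫ t in (0 : ℝ)..L, h t * (ex t x * A ((((1 + max ε 0 : ℝ)) : ℂ) - t * Complex.I)).re)
      + (q.totient : ℝ)⁻¹ * (∫ u in Set.Ioi (0 : ℝ), Real.exp (-ε * u) * cosT h L (u - x))
      ≤ M * ∑ n ∈ (range (⌊Real.exp (x + δ)⌋₊ + 1)).filter (fun n : ℕ => |Real.log n - x| ≤ δ),
        fw q n / n := by
  have hσ : 1 < 1 + ε := by linarith
  have hS := hasSum_swap (q := q) h hh L (1 + ε) x hσ
  -- the integral
  have hI : (∫ t in (0 : ℝ)..L, h t *
        (ex t x * LSeries (fun n => ((fw q n : ℝ) : ℂ)) (((1 + ε : ℝ) : ℂ) - t * Complex.I)).re)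
      = (∫ t in (0 : ℝ)..L, h t *
          (ex t x * A ((((1 + max ε 0 : ℝ)) : ℂ) - t * Complex.I)).re)
        + (q.totient : ℝ)⁻¹ *
          (∫ u in Set.Ioi (0 : ℝ), Real.exp (-ε * u) * cosT h L (u - x)) := by
    rw [← polar h hh L ε x hε, ← intervalIntegral.integral_const_mul,
      ← intervalIntegral.integral_add]
    · refine intervalIntegral.integral_congr fun t _ => ?_
      have hre : 1 < (((1 + ε : ℝ) : ℂ) - t * Complex.I).re := by simp [hε]
      rw [hA2 _ hre, max_eq_left hε.le, mul_add, Complex.add_re, mul_add]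
      congr 1
      have e1 : (((1 + ε : ℝ) : ℂ) - t * Complex.I) - 1 = (ε : ℂ) - t * Complex.I := by
        push_cast; ring
      rw [e1]
      have e2 : ex t x * ((q.totient : ℂ)⁻¹ / ((ε : ℂ) - t * Complex.I))
          = (((q.totient : ℝ)⁻¹ : ℝ) : ℂ) * (ex t x / ((ε : ℂ) - t * Complex.I)) := by
        push_cast; ring
      rw [e2, Complex.re_ofReal_mul]
      ring
    · apply Continuous.intervalIntegrable
      have c1 := line_continuous hA ε
      exact hh.mul (Complex.continuous_re.comp ((continuous_ex x).mul c1))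
    · apply Continuous.intervalIntegrable
      refine continuous_const.mul (hh.mul (Complex.continuous_re.comp
        ((continuous_ex x).div (by fun_prop) fun t => ?_)))
      intro h0
      have := congrArg Complex.re h0
      simp at this
      exact hε.ne' this
  rw [hI] at hS
  refine hS.tsum_eq ▸ ?_
  rw [Finset.mul_sum]
  -- compare
  set W := (range (⌊Real.exp (x + δ)⌋₊ + 1)).filter (fun n : ℕ => |Real.log n - x| ≤ δ) with hW
  have hle : ∀ n : ℕ, fw q n / (n : ℝ) ^ (1 + ε) * cosT h L (Real.log n - x)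
      ≤ if n ∈ W then M * (fw q n / n) else 0 := by
    intro n
    rcases Nat.eq_zero_or_pos n with rfl | hn
    · simp [fw_zero]
    · have hn' : (0 : ℝ) < n := by exact_mod_cast hn
      have hn1 : (1 : ℝ) ≤ n := by exact_mod_cast hn
      have hfn := fw_nonneg q n
      have hpow : (n : ℝ) ≤ (n : ℝ) ^ (1 + ε) := by
        nth_rw 1 [← Real.rpow_one (n : ℝ)]
        exact Real.rpow_le_rpow_of_exponent_le hn1 (by linarith)
      have h0 : 0 ≤ fw q n / (n : ℝ) ^ (1 + ε) := div_nonneg hfn (by positivity)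
      by_cases hb : |Real.log n - x| ≤ δ
      · have hmem : n ∈ W := by
          rw [hW, mem_filter, mem_range]
          refine ⟨Nat.lt_succ_of_le (Nat.le_floor ?_), hb⟩
          have : Real.log n ≤ x + δ := by
            have := (abs_le.mp hb).2; linarith
          calc (n : ℝ) = Real.exp (Real.log n) := (Real.exp_log hn').symm
            _ ≤ _ := Real.exp_le_exp.mpr this
        rw [if_pos hmem]
        calc fw q n / (n : ℝ) ^ (1 + ε) * cosT h L (Real.log n - x)
            ≤ fw q n / (n : ℝ) ^ (1 + ε) * M := mul_le_mul_of_nonneg_left (h1 _ hb) h0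
          _ ≤ fw q n / n * M := by gcongr
          _ = _ := mul_comm _ _
      · have hle0 : fw q n / (n : ℝ) ^ (1 + ε) * cosT h L (Real.log n - x) ≤ 0 :=
          mul_nonpos_of_nonneg_of_nonpos h0 (h2 _ (not_le.mp hb))
        refine hle0.trans ?_
        split_ifs
        · exact mul_nonneg hM (div_nonneg hfn hn'.le)
        · exact le_rfl
  have hs2 : HasSum (fun n : ℕ => if n ∈ W then M * (fw q n / n) else 0)
      (∑ n ∈ W, M * (fw q n / n)) := by
    have h3 : HasSum (fun n : ℕ => if n ∈ W then M * (fw q n / n) else 0)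
        (∑ n ∈ W, if n ∈ W then M * (fw q n / n) else 0) :=
      hasSum_sum_of_ne_finset_zero (fun n hn => if_neg hn)
    rwa [Finset.sum_congr rfl fun n hn => if_pos hn] at h3
  exact hasSum_le hle hS.summable.hasSum hs2

/-- the inequality in the limit -/
lemma limit_ineq {A : ℂ → ℂ} (hA : ContinuousOn A {s | 1 ≤ s.re})
    (hA2 : ∀ s : ℂ, 1 < s.re →
      LSeries (fun n => ((fw q n : ℝ) : ℂ)) s = A s + (q.totient : ℂ)⁻¹ / (s - 1))
    (h : ℝ → ℝ) (hh : Continuous h) (L δ M : ℝ) (hL : 0 < L) (hM : 0 ≤ M)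
    (hint : Integrable (cosT h L))
    (h1 : ∀ u, |u| ≤ δ → cosT h L u ≤ M) (h2 : ∀ u, δ < |u| → cosT h L u ≤ 0)
    (x : ℝ) :
    (∫ t in (0 : ℝ)..L, h t * (ex t x * A ((((1 + max 0 0 : ℝ)) : ℂ) - t * Complex.I)).re)
      + (q.totient : ℝ)⁻¹ * (∫ u in Set.Ioi (0 : ℝ), cosT h L (u - x))
      ≤ M * ∑ n ∈ (range (⌊Real.exp (x + δ)⌋₊ + 1)).filter (fun n : ℕ => |Real.log n - x| ≤ δ),
        fw q n / n := by
  have hc : Continuous fun ε : ℝ => ∫ t in (0 : ℝ)..L,
      h t * (ex t x * A ((((1 + max ε 0 : ℝ)) : ℂ) - t * Complex.I)).re := by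
    apply intervalIntegral.continuous_parametric_intervalIntegral_of_continuous'
    simp only [Function.uncurry_def]
    exact (hh.comp continuous_snd).mul (Complex.continuous_re.comp
      (((continuous_ex x).comp continuous_snd).mul (trunc_continuous hA)))
  have t1 := (hc.tendsto 0).mono_left (nhdsWithin_le_nhds (s := Set.Ioi (0 : ℝ)))
  have t2 : Tendsto (fun ε : ℝ => ∫ u in Set.Ioi (0 : ℝ), Real.exp (-ε * u) * cosT h L (u - x))
      (𝓝[>] 0) (𝓝 (∫ u in Set.Ioi (0 : ℝ), cosT h L (u - x))) := by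
    have hi : Integrable (fun u => cosT h L (u - x)) (volume.restrict (Set.Ioi (0 : ℝ))) :=
      (hint.comp_sub_right x).integrableOn
    refine tendsto_integral_filter_of_dominated_convergence (fun u => ‖cosT h L (u - x)‖)
      (Eventually.of_forall fun ε => ?_) ?_ hi.norm ?_
    · exact (by fun_prop : Continuous fun u : ℝ => Real.exp (-ε * u)).aestronglyMeasurable.mul
        hi.aestronglyMeasurable
    · filter_upwards [self_mem_nhdsWithin] with ε hε
      rw [Set.mem_Ioi] at hε
      filter_upwards [self_mem_ae_restrict measurableSet_Ioi] with u hu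
      rw [Set.mem_Ioi] at hu
      rw [norm_mul]
      have : ‖Real.exp (-ε * u)‖ ≤ 1 := by
        rw [Real.norm_eq_abs, abs_of_pos (Real.exp_pos _), Real.exp_le_one_iff]
        nlinarith
      calc _ ≤ 1 * ‖cosT h L (u - x)‖ := by gcongr
        _ = _ := one_mul _
    · refine Eventually.of_forall fun u => ?_
      have : Tendsto (fun ε : ℝ => Real.exp (-ε * u)) (𝓝[>] 0) (𝓝 1) := by
        have hcont : Continuous fun ε : ℝ => Real.exp (-ε * u) := by fun_prop
        have := (hcont.tendsto 0).mono_left (nhdsWithin_le_nhds (s := Set.Ioi (0 : ℝ)))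
        simpa using this
      simpa using this.mul_const (cosT h L (u - x))
  refine le_of_tendsto (t1.add (t2.const_mul _)) ?_
  filter_upwards [self_mem_nhdsWithin] with ε hε
  exact main_ineq hA hA2 h hh L δ M hL hM h1 h2 ε x hε

end Tauber

open Tauber in
/-- M1a (file `Tauber.lean`) -/
theorem mass_ge (q : ℕ) (hq : 0 < q) (h : ℝ → ℝ) (hh : Continuous h) (L δ M : ℝ) (hL : 0 < L)
    (hδ : 0 < δ) (hM : 0 ≤ M) (hint : Integrable (cosT h L))
    (h1 : ∀ u, |u| ≤ δ → cosT h L u ≤ M) (h2 : ∀ u, δ < |u| → cosT h L u ≤ 0)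
    (hpos : 0 < ∫ u, cosT h L u) :
    ∃ c x0 : ℝ, 0 < c ∧ ∀ x, x0 ≤ x →
      c ≤ ∑ n ∈ (range (⌊Real.exp (x + δ)⌋₊ + 1)).filter (fun n : ℕ => |Real.log n - x| ≤ δ),
        vonMangoldt.residueClass (1 : ZMod q) n / n := by
  have : NeZero q := ⟨hq.ne'⟩
  obtain ⟨A, hA, hA2⟩ := exists_Ax q
  have hφ : 0 < (q.totient : ℝ)⁻¹ := inv_pos.mpr (mod_cast q.totient_pos.mpr hq)
  set I := ∫ u, cosT h L u with hIdef
  -- the boundary term tends to zero
  have t1 : Tendsto (fun x : ℝ => ∫ t in (0 : ℝ)..L,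
      h t * (ex t x * A ((((1 + max 0 0 : ℝ)) : ℂ) - t * Complex.I)).re) atTop (𝓝 0) := by
    have c1 := line_continuous hA 0
    have t0 := tendsto_RL (fun t => ((h t : ℝ) : ℂ)
      * A ((((1 + max 0 0 : ℝ)) : ℂ) - t * Complex.I)) L hL
    have t0' := (Complex.continuous_re.tendsto 0).comp t0
    rw [Complex.zero_re] at t0'
    refine t0'.congr fun x => ?_
    simp only [Function.comp]
    have hint2 : IntervalIntegrable (fun t : ℝ => ex t x * (((h t : ℝ) : ℂ)
        * A ((((1 + max 0 0 : ℝ)) : ℂ) - t * Complex.I))) volume 0 L :=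
      ((continuous_ex x).mul ((Complex.continuous_ofReal.comp hh).mul c1)).intervalIntegrable _ _
    have := Complex.reCLM.intervalIntegral_comp_comm hint2
    simp only [Complex.reCLM_apply] at this
    rw [← this]
    refine intervalIntegral.integral_congr fun t _ => ?_
    rw [mul_left_comm, Complex.re_ofReal_mul]
  have t2 := tendsto_translate (cosT h L) hint
  have t3 := t1.add (t2.const_mul (q.totient : ℝ)⁻¹)
  rw [zero_add] at t3
  have hc0 : 0 < (q.totient : ℝ)⁻¹ * I := mul_pos hφ hpos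
  have hev := t3.eventually (lt_mem_nhds (show (q.totient : ℝ)⁻¹ * I / 2
    < (q.totient : ℝ)⁻¹ * I by linarith))
  obtain ⟨x0, hx0⟩ := eventually_atTop.mp hev
  have key : ∀ x, x0 ≤ x → (q.totient : ℝ)⁻¹ * I / 2
      ≤ M * ∑ n ∈ (range (⌊Real.exp (x + δ)⌋₊ + 1)).filter
        (fun n : ℕ => |Real.log n - x| ≤ δ), fw q n / n := fun x hx =>
    (hx0 x hx).le.trans (limit_ineq hA hA2 h hh L δ M hL hM hint h1 h2 x)
  have hMpos : 0 < M := by
    rcases hM.lt_or_eq with hM' | hM'
    · exact hM'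
    · exfalso
      have := key x0 le_rfl
      rw [← hM', zero_mul] at this
      linarith
  refine ⟨(q.totient : ℝ)⁻¹ * I / 2 / M, x0, by positivity, fun x hx => ?_⟩
  rw [div_le_iff₀' hMpos]
  exact key x hx

end Pool.Agent.GA
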