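import Mathlib
import Pool.Agent.GA.Defs
import Pool.Agent.GA.Kernel
import Pool.Agent.GA.Tauber

set_option autoImplicit false

/-!
# Primes `1 mod q` in short intervals `[z, z + z / J)` (module M1c)
-/

namespace Pool.Agent.GA

open Finset MeasureTheory ArithmeticFunction Filter

theorem exists_small_delta (J : ℕ) (hJ : 0 < J) :
    ∃ δ : ℝ, 0 < δ ∧ Real.exp (2 * δ) < 1 + 1 / (2 * (J : ℝ)) := by
  have hJ0 : (0 : ℝ) < J := by exact_mod_cast hJ
  have h1 : (0 : ℝ) < 1 / (2 * (J : ℝ)) := by positivity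
  refine ⟨Real.log (1 + 1 / (2 * (J : ℝ))) / 4, ?_, ?_⟩
  · have := Real.log_pos (by linarith : (1 : ℝ) < 1 + 1 / (2 * (J : ℝ)))
    positivity
  · have h2 := Real.log_pos (by linarith : (1 : ℝ) < 1 + 1 / (2 * (J : ℝ)))
    have h3 : 2 * (Real.log (1 + 1 / (2 * (J : ℝ))) / 4) < Real.log (1 + 1 / (2 * (J : ℝ))) := by
      linarith
    calc Real.exp (2 * (Real.log (1 + 1 / (2 * (J : ℝ))) / 4))
        < Real.exp (Real.log (1 + 1 / (2 * (J : ℝ)))) := Real.exp_lt_exp.2 h3
      _ = 1 + 1 / (2 * (J : ℝ)) := Real.exp_log (by linarith)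

/-- the non-primes far out carry little mass -/
theorem nonprime_tail (q : ℕ) (ε : ℝ) (hε : 0 < ε) :
    ∃ n0 : ℕ, ∀ F : Finset ℕ, (∀ n ∈ F, n0 ≤ n) →
      ∑ n ∈ F, (if n.Prime then 0 else vonMangoldt.residueClass (1 : ZMod q) n) / (n : ℝ) < ε := by
  have hs := vonMangoldt.summable_residueClass_non_primes_div (1 : ZMod q)
  obtain ⟨s, hs⟩ := summable_iff_vanishing_norm.1 hs ε hε
  refine ⟨s.sup id + 1, fun F hF => ?_⟩
  have hd : Disjoint F s := by
    rw [Finset.disjoint_left]
    intro n hn hns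
    have h1 := hF n hn
    have h2 : n ≤ s.sup id := Finset.le_sup (f := id) hns
    omega
  have h1 := hs F hd
  exact lt_of_le_of_lt (le_abs_self _) h1

theorem modEq_of_residueClass_ne (q n : ℕ) (h : vonMangoldt.residueClass (1 : ZMod q) n ≠ 0) :
    n ≡ 1 [MOD q] := by
  by_contra hm
  apply h
  rw [vonMangoldt.residueClass, Set.indicator_of_notMem]
  intro h'
  apply hm
  rw [Set.mem_ofPred_eq] at h'
  have h'' : (n : ZMod q) = ((1 : ℕ) : ZMod q) := by rw [h']; simp
  rwa [ZMod.natCast_eq_natCast_iff] at h''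

/-- M1c (file `Prim.lean`, uses M1a and M1b) -/
theorem card_PB_ge (q J : ℕ) (hq : 0 < q) (hJ : 0 < J) :
    ∃ C z0 : ℕ, ∀ z, z0 ≤ z → z ≤ C * Nat.log 2 z * (PB q J z).card := by
  obtain ⟨δ, hδ, hδJ⟩ := exists_small_delta J hJ
  obtain ⟨h, L, M, hh, hL, hM, hint, h1, h2, hpos⟩ := exists_kernel δ hδ
  obtain ⟨c, x0, hc, hmass⟩ := mass_ge q hq h hh L δ M hL hδ hM hint h1 h2 hpos
  obtain ⟨n0, hn0⟩ := nonprime_tail q (c / 2) (by positivity)
  have hJ0 : (0 : ℝ) < J := by exact_mod_cast hJ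
  refine ⟨⌈6 / c⌉₊, n0 + 2 * J + 2 + ⌈Real.exp x0⌉₊, fun z hz => ?_⟩
  have hzn : n0 ≤ z := by omega
  have hzJ : 2 * J ≤ z := by omega
  have hz2 : 2 ≤ z := by omega
  have hzx : x0 ≤ Real.log z := by
    have h3 : Real.exp x0 ≤ z := by
      have h4 : ⌈Real.exp x0⌉₊ ≤ z := by omega
      exact (Nat.le_ceil _).trans (by exact_mod_cast h4)
    rw [Real.le_log_iff_exp_le (by positivity)]
    exact h3
  have hz0 : (0 : ℝ) < z := by positivity
  have hm := hmass (Real.log z + δ) (by linarith)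
  set W := (range (⌊Real.exp (Real.log z + δ + δ)⌋₊ + 1)).filter
    (fun n : ℕ => |Real.log n - (Real.log z + δ)| ≤ δ) with hW
  -- the window
  have hwin : ∀ n ∈ W, z ≤ n ∧ n < z + z / J := by
    intro n hn
    rw [hW, mem_filter, abs_le] at hn
    obtain ⟨_, ha, hb⟩ := hn
    have hn1 : n ≠ 0 := by
      rintro rfl
      simp at ha
      have h3 : 0 < Real.log z := Real.log_pos (by exact_mod_cast hz2)
      linarith
    have hn0' : (0 : ℝ) < n := by
      have : 0 < n := Nat.pos_of_ne_zero hn1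
      exact_mod_cast this
    have hlo : (z : ℝ) ≤ n := by
      rw [← Real.log_le_log_iff hz0 hn0']
      linarith
    have hhi : (n : ℝ) ≤ z * Real.exp (2 * δ) := by
      rw [← Real.log_le_log_iff hn0' (by positivity), Real.log_mul hz0.ne' (Real.exp_pos _).ne',
        Real.log_exp]
      linarith
    refine ⟨by exact_mod_cast hlo, ?_⟩
    have h3 : (n : ℝ) < z * (1 + 1 / (2 * (J : ℝ))) :=
      hhi.trans_lt (mul_lt_mul_of_pos_left hδJ hz0)
    have h4 : (z : ℝ) / J < (z / J : ℕ) + 1 := by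
      have := Nat.lt_floor_add_one ((z : ℝ) / J)
      rwa [Nat.floor_div_eq_div] at this
    have h5 : (1 : ℝ) ≤ z / (2 * J) := by
      rw [le_div_iff₀ (by positivity)]
      have : ((2 * J : ℕ) : ℝ) ≤ z := by exact_mod_cast hzJ
      push_cast at this
      linarith
    have h6 : (z : ℝ) * (1 + 1 / (2 * (J : ℝ))) = z + z / J - z / (2 * J) := by
      field_simp
      ring
    have h7 : (n : ℝ) < ((z + z / J : ℕ) : ℝ) := by
      push_cast
      linarith
    exact_mod_cast h7
  have hsplit : ∑ n ∈ W, vonMangoldt.residueClass (1 : ZMod q) n / (n : ℝ)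
      = ∑ n ∈ W, (if n.Prime then vonMangoldt.residueClass (1 : ZMod q) n else 0) / (n : ℝ)
        + ∑ n ∈ W, (if n.Prime then 0 else vonMangoldt.residueClass (1 : ZMod q) n) / (n : ℝ) := by
    rw [← sum_add_distrib]
    refine sum_congr rfl fun n _ => ?_
    split_ifs <;> simp
  have htail := hn0 W (fun n hn => hzn.trans (hwin n hn).1)
  have hprime : ∑ n ∈ W, (if n.Prime then vonMangoldt.residueClass (1 : ZMod q) n else 0) / (n : ℝ)
      ≤ (PB q J z).card * (Real.log (2 * z) / z) := by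
    have e : (PB q J z).card * (Real.log (2 * z) / z) = ∑ n ∈ PB q J z, Real.log (2 * z) / z := by
      rw [sum_const, nsmul_eq_mul]
    rw [e]
    have hlog0 : 0 ≤ Real.log (2 * z) / z := by
      have h3 : (1 : ℝ) ≤ 2 * z := by
        have : (2 : ℝ) ≤ z := by exact_mod_cast hz2
        linarith
      have := Real.log_nonneg h3
      positivity
    have hsub : ∑ n ∈ W, (if n.Prime then vonMangoldt.residueClass (1 : ZMod q) n else 0) / (n : ℝ)
        ≤ ∑ n ∈ W, if n ∈ PB q J z then Real.log (2 * z) / z else 0 := by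
      refine sum_le_sum fun n hn => ?_
      obtain ⟨hzn', hnz⟩ := hwin n hn
      have hzn'' : (z : ℝ) ≤ n := by exact_mod_cast hzn'
      by_cases hp : n.Prime
      · rw [if_pos hp]
        by_cases hr : vonMangoldt.residueClass (1 : ZMod q) n = 0
        · rw [hr, zero_div]
          split_ifs
          · exact hlog0
          · exact le_rfl
        · have hmem : n ∈ PB q J z := by
            rw [PB, mem_filter, mem_Ico]
            exact ⟨⟨hzn', hnz⟩, hp, modEq_of_residueClass_ne q n hr⟩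
          rw [if_pos hmem]
          have h3 : vonMangoldt.residueClass (1 : ZMod q) n ≤ Real.log n :=
            (vonMangoldt.residueClass_le _ _).trans vonMangoldt_le_log
          have h4 : Real.log n ≤ Real.log (2 * z) := by
            apply Real.log_le_log (by linarith)
            have h5 : z / J ≤ z := Nat.div_le_self z J
            have h6 : n ≤ 2 * z := by omega
            exact_mod_cast h6
          have h5 : 0 ≤ Real.log (2 * z) := (Real.log_natCast_nonneg n).trans h4
          exact div_le_div₀ h5 (h3.trans h4) hz0 hzn''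
      · rw [if_neg hp, zero_div]
        split_ifs
        · exact hlog0
        · exact le_rfl
    refine hsub.trans ?_
    rw [← sum_filter]
    refine sum_le_sum_of_subset_of_nonneg ?_ (fun _ _ _ => hlog0)
    intro n hn
    exact (mem_filter.1 hn).2
  rw [hsplit] at hm
  have hmain : c / 2 ≤ (PB q J z).card * (Real.log (2 * z) / z) := by linarith
  have hlog : Real.log (2 * z) ≤ 3 * (Nat.log 2 z : ℕ) := by
    have h3 : z < 2 ^ (Nat.log 2 z + 1) := Nat.lt_pow_succ_log_self (by norm_num) z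
    have h4 : (2 * z : ℝ) ≤ 2 ^ (Nat.log 2 z + 2) := by
      have h5 : 2 * z ≤ 2 ^ (Nat.log 2 z + 2) := by
        rw [pow_succ]
        omega
      exact_mod_cast h5
    have h5 := Real.log_le_log (by positivity) h4
    rw [Real.log_pow] at h5
    have h6 : Real.log 2 ≤ 1 := by
      have := Real.log_two_lt_d9
      linarith
    have h7 : 1 ≤ Nat.log 2 z := by
      rw [Nat.one_le_iff_ne_zero]
      intro h8
      rw [Nat.log_eq_zero_iff] at h8
      omega
    have h8 : (1 : ℝ) ≤ (Nat.log 2 z : ℕ) := by exact_mod_cast h7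
    have h9 : (0 : ℝ) ≤ ((Nat.log 2 z + 2 : ℕ) : ℝ) := by positivity
    calc Real.log (2 * z) ≤ ((Nat.log 2 z + 2 : ℕ) : ℝ) * Real.log 2 := h5
      _ ≤ ((Nat.log 2 z + 2 : ℕ) : ℝ) * 1 := mul_le_mul_of_nonneg_left h6 h9
      _ ≤ 3 * (Nat.log 2 z : ℕ) := by
        push_cast
        linarith
  have hceil : 6 / c ≤ (⌈6 / c⌉₊ : ℝ) := Nat.le_ceil _
  have hfin : (z : ℝ) ≤ ((⌈6 / c⌉₊ * Nat.log 2 z * (PB q J z).card : ℕ) : ℝ) := by
    push_cast
    have h3 : c / 2 * z ≤ (PB q J z).card * Real.log (2 * z) := by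
      rw [mul_div_assoc', le_div_iff₀ hz0] at hmain
      exact hmain
    have h4 : (PB q J z).card * Real.log (2 * z) ≤ (PB q J z).card * (3 * (Nat.log 2 z : ℕ)) :=
      mul_le_mul_of_nonneg_left hlog (Nat.cast_nonneg _)
    have h5 : (z : ℝ) ≤ 6 / c * ((Nat.log 2 z : ℕ) * (PB q J z).card) := by
      rw [div_mul_eq_mul_div, le_div_iff₀ hc]
      linarith
    calc (z : ℝ) ≤ 6 / c * ((Nat.log 2 z : ℕ) * (PB q J z).card) := h5
      _ ≤ (⌈6 / c⌉₊ : ℝ) * ((Nat.log 2 z : ℕ) * (PB q J z).card) :=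
        mul_le_mul_of_nonneg_right hceil (by positivity)
      _ = _ := by ring
  exact_mod_cast hfin

end Pool.Agent.GA
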