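import Mathlib
import Pool.Agent.GA.Defs
import Pool.Agent.GA.Prim

set_option autoImplicit false

/-!
# A pattern of almost primes of the same size, by the pigeonhole principle
-/

namespace Pool.Agent.GA

open Finset

theorem mem_PB {q J z p : ℕ} :
    p ∈ PB q J z ↔ z ≤ p ∧ p < z + z / J ∧ p.Prime ∧ p ≡ 1 [MOD q] := by
  rw [PB, mem_filter, mem_Ico, and_assoc]

theorem exists_family {σ : Type} [Fintype σ] (B : Finset ℕ) (n : ℕ)
    (h : Fintype.card σ * n ≤ B.card) :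
    ∃ Q : σ → ℕ → ℕ, (∀ s a, a < n → Q s a ∈ B) ∧
      (∀ s a s' a', a < n → a' < n → Q s a = Q s' a' → s = s' ∧ a = a') := by
  classical
  have hemb : Nonempty ((σ × Fin n) ↪ {x // x ∈ B}) := by
    apply Function.Embedding.nonempty_of_card_le
    rw [Fintype.card_prod, Fintype.card_fin, Fintype.card_coe]
    exact h
  obtain ⟨e⟩ := hemb
  refine ⟨fun s a => if ha : a < n then (e (s, ⟨a, ha⟩) : ℕ) else 0, ?_, ?_⟩
  · intro s a ha
    simp only [ha, dif_pos]
    exact (e (s, ⟨a, ha⟩)).2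
  · intro s a s' a' ha ha' heq
    simp only [ha, ha', dif_pos] at heq
    have h1 := e.injective (Subtype.ext heq)
    have h2 := Prod.mk.inj h1
    exact ⟨h2.1, Fin.mk.inj h2.2⟩

/-- the slots -/
abbrev Slot (k : ℕ) : Type := Σ l : Fin k, Fin (2 * k - l.val)

/-- the weight of a slot -/
def wt {k : ℕ} (s : Slot k) : ℕ := if s.2.val < s.1.val then 2 else 1

theorem wt_pos {k : ℕ} (s : Slot k) : 1 ≤ wt s := by
  rw [wt]; split_ifs <;> omega

theorem wt_le {k : ℕ} (s : Slot k) : wt s ≤ 2 := by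
  rw [wt]; split_ifs <;> omega

theorem sum_wt {k : ℕ} (l : Fin k) : ∑ i : Fin (2 * k - l.val), wt (⟨l, i⟩ : Slot k) = 2 * k := by
  have hl := l.2
  have h1 : ∑ i : Fin (2 * k - l.val), wt (⟨l, i⟩ : Slot k) =
      ∑ i ∈ range (2 * k - l.val), if i < l.val then 2 else 1 := by
    rw [← Fin.sum_univ_eq_sum_range (fun i => if i < l.val then 2 else 1)]
    rfl
  rw [h1, sum_ite]
  have h2 : (range (2 * k - l.val)).filter (fun i => i < l.val) = range l.val := by
    ext i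
    rw [mem_filter, mem_range, mem_range]
    omega
  have h3 : (range (2 * k - l.val)).filter (fun i => ¬ i < l.val) = Ico l.val (2 * k - l.val) := by
    ext i
    rw [mem_filter, mem_range, mem_Ico]
    omega
  rw [h2, h3, sum_const, sum_const, card_range, Nat.card_Ico]
  simp only [smul_eq_mul]
  omega

theorem card_slot_pos {k : ℕ} (hk : 0 < k) : 0 < Fintype.card (Slot k) := by
  rw [Fintype.card_pos_iff]
  exact ⟨⟨⟨0, hk⟩, ⟨0, by simp only; omega⟩⟩⟩

theorem bern {k W n J : ℕ} (hW : 0 < W) (hn : n ≤ 2 * k) (hJ : J = 4 * k * W) :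
    W * (J + 1) ^ n ≤ (W + 1) * J ^ n := by
  have hJ1 : (0 : ℝ) < (J : ℝ) + 1 := by positivity
  have hW0 : (0 : ℝ) < (W : ℝ) := by exact_mod_cast hW
  have h1 : 1 + (n : ℝ) * (-1 / (J + 1)) ≤ (1 + (-1 / (J + 1))) ^ n := by
    apply one_add_mul_le_pow
    rw [neg_div, neg_le_neg_iff, div_le_iff₀ hJ1]
    have : (0 : ℝ) ≤ J := Nat.cast_nonneg _
    linarith
  have h2 : (1 : ℝ) + (-1 / (J + 1)) = J / (J + 1) := by field_simp; ring
  rw [h2, div_pow] at h1
  have h3 : (n : ℝ) * (W + 1) ≤ J + 1 := by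
    have h4 : n * (W + 1) ≤ J + 1 := by
      calc n * (W + 1) ≤ 2 * k * (W + 1) := Nat.mul_le_mul_right _ hn
        _ ≤ 2 * k * (W + W) := by gcongr; exact hW
        _ = J := by rw [hJ]; ring
        _ ≤ J + 1 := Nat.le_succ _
    exact_mod_cast h4
  have h5 : (W : ℝ) / (W + 1) ≤ 1 + (n : ℝ) * (-1 / (J + 1)) := by
    have h6 : (n : ℝ) / (J + 1) ≤ 1 / (W + 1) := by
      rw [div_le_div_iff₀ hJ1 (by positivity)]
      linarith
    have h7 : (W : ℝ) / (W + 1) = 1 - 1 / (W + 1) := by field_simp; ring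
    have h8 : 1 + (n : ℝ) * (-1 / (J + 1)) = 1 - n / (J + 1) := by ring
    rw [h7, h8]
    linarith
  have h9 := h5.trans h1
  rw [div_le_div_iff₀ (by positivity) (by positivity)] at h9
  have h10 : ((W * (J + 1) ^ n : ℕ) : ℝ) ≤ (((W + 1) * J ^ n : ℕ) : ℝ) := by
    push_cast
    linarith
  exact_mod_cast h10

theorem exists_large (c M : ℕ) : ∃ j0 : ℕ, ∀ j, j0 ≤ j → c * (j + 1) ^ M < 2 ^ j := by
  have h1 : Filter.Tendsto (fun j : ℕ => (c : ℝ) * ((j : ℝ) + 1) ^ M / 2 ^ j) Filter.atTop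
      (nhds 0) := by
    have h2 := (tendsto_pow_const_div_const_pow_of_one_lt M (r := (2 : ℝ)) (by norm_num)).comp
      (Filter.tendsto_add_atTop_nat 1)
    have h3 := h2.const_mul ((c : ℝ) * 2)
    rw [mul_zero] at h3
    refine h3.congr ?_
    intro j
    simp only [Function.comp_apply]
    push_cast
    rw [pow_succ]
    field_simp
  have h4 := h1.eventually_lt_const (show (0 : ℝ) < 1 by norm_num)
  obtain ⟨j0, hj0⟩ := Filter.eventually_atTop.1 h4
  refine ⟨j0, ?_⟩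
  intro j hj
  have h5 := hj0 j hj
  rw [div_lt_one (by positivity)] at h5
  exact_mod_cast h5

/-- the parameters -/
theorem exists_params (k R K p0 W : ℕ) (hk : 0 < k) (hK : 0 < K) (hW : 0 < W) :
    ∃ z : ℕ, 2 ≤ z ∧ p0 ≤ z ∧ W * K ≤ z ∧ ∃ nn : ℕ → ℕ,
      (∀ w, Fintype.card (Slot k) * nn w ≤ (PB K (4 * k * W) (z ^ w)).card) ∧
      (R + 1) * 4 ^ k * z ^ (2 * k * k) < z * ∏ s : Slot k, nn (wt s) := by
  obtain ⟨J, hJ⟩ : ∃ J, J = 4 * k * W := ⟨_, rfl⟩
  have hJ0 : 0 < J := by rw [hJ]; positivity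
  rw [← hJ]
  obtain ⟨C, z0, hC⟩ := card_PB_ge K J hK hJ0
  obtain ⟨M, hM⟩ : ∃ M, M = Fintype.card (Slot k) := ⟨_, rfl⟩
  have hM0 : 0 < M := by rw [hM]; exact card_slot_pos hk
  rw [← hM]
  obtain ⟨j0, hj0⟩ := exists_large ((R + 1) * 4 ^ k * (4 * C * M) ^ M) M
  obtain ⟨j1, hj1⟩ := exists_large (4 * C * M) 1
  obtain ⟨j, hj⟩ : ∃ j, j = max (max j0 j1) (max (max z0 1) (max p0 (W * K))) := ⟨_, rfl⟩
  have hja : j0 ≤ j := by rw [hj]; exact (le_max_left _ _).trans (le_max_left _ _)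
  have hjb : j1 ≤ j := by rw [hj]; exact (le_max_right _ _).trans (le_max_left _ _)
  have hjc : z0 ≤ j := by
    rw [hj]; exact ((le_max_left _ _).trans (le_max_left _ _)).trans (le_max_right _ _)
  have hjd : 1 ≤ j := by
    rw [hj]; exact ((le_max_right _ _).trans (le_max_left _ _)).trans (le_max_right _ _)
  have hje : p0 ≤ j := by
    rw [hj]; exact ((le_max_left _ _).trans (le_max_right _ _)).trans (le_max_right _ _)
  have hjf : W * K ≤ j := by
    rw [hj]; exact ((le_max_right _ _).trans (le_max_right _ _)).trans (le_max_right _ _)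
  have hj2 : j ≤ 2 ^ j := Nat.lt_two_pow_self.le
  have h0 := hj0 j hja
  have h1 := hj1 j hjb
  rw [pow_one] at h1
  refine ⟨2 ^ j, ?_, hje.trans hj2, hjf.trans hj2, fun w => (PB K J ((2 ^ j) ^ w)).card / M, ?_, ?_⟩
  · calc 2 = 2 ^ 1 := by norm_num
      _ ≤ 2 ^ j := Nat.pow_le_pow_right (by norm_num) hjd
  · intro w
    exact Nat.mul_div_le _ _
  · obtain ⟨Q, hQ⟩ : ∃ Q, Q = 4 * C * M * (j + 1) := ⟨_, rfl⟩
    have hterm : ∀ s : Slot k, (2 ^ j) ^ wt s ≤ Q * ((PB K J ((2 ^ j) ^ wt s)).card / M) := by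
      intro s
      obtain ⟨w, hw⟩ : ∃ w, w = wt s := ⟨_, rfl⟩
      have hw1 : 1 ≤ w := by rw [hw]; exact wt_pos s
      have hw2 : w ≤ 2 := by rw [hw]; exact wt_le s
      rw [← hw]
      have hzw : 2 ^ j ≤ (2 ^ j) ^ w := Nat.le_self_pow (by omega) _
      have h2 := hC ((2 ^ j) ^ w) (hjc.trans (hj2.trans hzw))
      have h3 : Nat.log 2 ((2 ^ j) ^ w) ≤ 2 * (j + 1) := by
        rw [← pow_mul, Nat.log_pow (by norm_num)]
        calc j * w ≤ j * 2 := Nat.mul_le_mul_left _ hw2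
          _ ≤ 2 * (j + 1) := by omega
      obtain ⟨c, hc⟩ : ∃ c, c = (PB K J ((2 ^ j) ^ w)).card := ⟨_, rfl⟩
      rw [← hc] at h2 ⊢
      have h4 : (2 ^ j) ^ w ≤ C * (2 * (j + 1)) * c := by
        refine h2.trans ?_
        gcongr
      have h5 : c < M * (c / M + 1) := Nat.lt_mul_div_succ c hM0
      have h6 : 1 ≤ c / M := by
        by_contra hcon
        have h7 : c / M = 0 := Nat.lt_one_iff.1 (not_le.1 hcon)
        rw [h7, zero_add, mul_one] at h5
        have h8 : C * (2 * (j + 1)) * c ≤ 4 * C * M * (j + 1) := by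
          calc C * (2 * (j + 1)) * c ≤ C * (2 * (j + 1)) * M := by
                exact Nat.mul_le_mul_left _ h5.le
            _ = 2 * (C * M * (j + 1)) := by ring
            _ ≤ 4 * (C * M * (j + 1)) := by omega
            _ = 4 * C * M * (j + 1) := by ring
        omega
      have h7 : c ≤ 2 * M * (c / M) := by
        have h8 : M * (c / M + 1) ≤ M * (c / M + c / M) := by gcongr
        have h9 : M * (c / M + c / M) = 2 * M * (c / M) := by ring
        omega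
      calc (2 ^ j) ^ w ≤ C * (2 * (j + 1)) * c := h4
        _ ≤ C * (2 * (j + 1)) * (2 * M * (c / M)) := by gcongr
        _ = Q * (c / M) := by rw [hQ]; ring
    have hprod : (2 ^ j) ^ (2 * k * k) ≤
        Q ^ M * ∏ s : Slot k, ((PB K J ((2 ^ j) ^ wt s)).card / M) := by
      calc (2 ^ j) ^ (2 * k * k) = ∏ s : Slot k, (2 ^ j) ^ wt s := by
            rw [Fintype.prod_sigma, pow_mul]
            have h2 : ∀ l : Fin k, ∏ i : Fin (2 * k - l.val), (2 ^ j) ^ wt (⟨l, i⟩ : Slot k) =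
                (2 ^ j) ^ (2 * k) := by
              intro l
              rw [prod_pow_eq_pow_sum, sum_wt]
            rw [prod_congr rfl fun l _ => h2 l, prod_const, card_univ, Fintype.card_fin]
        _ ≤ ∏ s : Slot k, (Q * ((PB K J ((2 ^ j) ^ wt s)).card / M)) :=
            prod_le_prod' fun s _ => hterm s
        _ = _ := by rw [prod_mul_distrib, prod_const, card_univ, ← hM]
    have hQM : (R + 1) * 4 ^ k * Q ^ M < 2 ^ j := by
      refine lt_of_le_of_lt (le_of_eq ?_) h0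
      rw [hQ, mul_pow]
      ring
    have hpos : 0 < ∏ s : Slot k, ((PB K J ((2 ^ j) ^ wt s)).card / M) := by
      rcases Nat.eq_zero_or_pos (∏ s : Slot k, ((PB K J ((2 ^ j) ^ wt s)).card / M)) with h | h
      · rw [h, mul_zero] at hprod
        have : 0 < (2 ^ j) ^ (2 * k * k) := by positivity
        omega
      · exact h
    calc (R + 1) * 4 ^ k * (2 ^ j) ^ (2 * k * k) ≤ (R + 1) * 4 ^ k *
          (Q ^ M * ∏ s : Slot k, ((PB K J ((2 ^ j) ^ wt s)).card / M)) := Nat.mul_le_mul_left _ hprod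
      _ = ((R + 1) * 4 ^ k * Q ^ M) * ∏ s : Slot k, ((PB K J ((2 ^ j) ^ wt s)).card / M) := by ring
      _ < 2 ^ j * ∏ s : Slot k, ((PB K J ((2 ^ j) ^ wt s)).card / M) :=
          Nat.mul_lt_mul_of_pos_right hQM hpos

theorem exists_pattern (k R K p0 W : ℕ) (hk : 0 < k) (hK : 0 < K) (hW : 0 < W) :
    ∃ (h : Fin k → ℤ) (θ : Fin R → ℤ) (D : Fin R → Fin k → ℕ),
      (∀ t l, (D t l : ℤ) = θ t + K * h l) ∧
      (∀ t l, W * (K * |h l|) ≤ θ t) ∧
      (∀ t, (W * K : ℤ) ≤ θ t) ∧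
      (∀ t l, ∃ s : Finset ℕ, s.card = 2 * k - l.val ∧
        (∀ p ∈ s, p.Prime ∧ p0 ≤ p ∧ p ≡ 1 [MOD K]) ∧ D t l = ∏ p ∈ s, p) ∧
      (∀ t l t' l', (t, l) ≠ (t', l') → Nat.Coprime (D t l) (D t' l')) := by
  classical
  obtain ⟨z, hz2, hzp, hzW, nn, hnn, hbig⟩ := exists_params k R K p0 W hk hK hW
  obtain ⟨J, hJ⟩ : ∃ J, J = 4 * k * W := ⟨_, rfl⟩
  have hJ0 : 0 < J := by rw [hJ]; positivity
  rw [← hJ] at hnn
  obtain ⟨l0, hl0⟩ : ∃ l0 : Fin k, l0 = ⟨0, hk⟩ := ⟨_, rfl⟩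
  have hz0 : 0 < z := by omega
  -- the families
  have hfam : ∀ w, ∃ Q : Slot k → ℕ → ℕ, (∀ s a, a < nn w → Q s a ∈ PB K J (z ^ w)) ∧
      (∀ s a s' a', a < nn w → a' < nn w → Q s a = Q s' a' → s = s' ∧ a = a') :=
    fun w => exists_family _ _ (hnn w)
  choose Q hQ1 hQ2 using hfam
  obtain ⟨P, hP⟩ : ∃ P : Slot k → ℕ → ℕ, P = fun s a => Q (wt s) s a := ⟨_, rfl⟩
  have hPmem : ∀ s a, a < nn (wt s) → z ^ wt s ≤ P s a ∧ P s a < z ^ wt s + z ^ wt s / J ∧
      (P s a).Prime ∧ P s a ≡ 1 [MOD K] := by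
    intro s a ha
    rw [hP]
    exact mem_PB.1 (hQ1 _ s a ha)
  have hPz : ∀ s a, a < nn (wt s) → z ≤ P s a := by
    intro s a ha
    refine le_trans ?_ (hPmem s a ha).1
    exact Nat.le_self_pow (by have := wt_pos s; omega) z
  have hPinj : ∀ s a s' a', a < nn (wt s) → a' < nn (wt s') → P s a = P s' a' →
      s = s' ∧ a = a' := by
    intro s a s' a' ha ha' h
    have hsm : ∀ t b, b < nn (wt t) → P t b < 2 * z ^ wt t := by
      intro t b hb
      have h1 := (hPmem t b hb).2.1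
      have h2 : z ^ wt t / J ≤ z ^ wt t := Nat.div_le_self _ _
      omega
    have hzz : 2 * z ≤ z ^ 2 := by
      rw [sq]; exact Nat.mul_le_mul_right _ hz2
    rcases Nat.lt_trichotomy (wt s) (wt s') with hlt | heq | hlt
    · have h1 : wt s = 1 := by have := wt_pos s; have := wt_le s'; omega
      have h2 : wt s' = 2 := by have := wt_pos s; have := wt_le s'; omega
      have h3 := hsm s a ha
      have h4 := (hPmem s' a' ha').1
      rw [h1, pow_one] at h3
      rw [h2] at h4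
      omega
    · rw [hP] at h
      simp only at h
      rw [← heq] at h ha'
      exact hQ2 _ s a s' a' ha ha' h
    · have h1 : wt s' = 1 := by have := wt_pos s'; have := wt_le s; omega
      have h2 : wt s = 2 := by have := wt_pos s'; have := wt_le s; omega
      have h3 := hsm s' a' ha'
      have h4 := (hPmem s a ha).1
      rw [h1, pow_one] at h3
      rw [h2] at h4
      omega
  -- the tuples
  obtain ⟨F0, hF0⟩ : ∃ F0 : Finset (Slot k → ℕ),
    F0 = Fintype.piFinset (fun s : Slot k => range (nn (wt s))) := ⟨_, rfl⟩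
  have hF0mem : ∀ f, f ∈ F0 ↔ ∀ s, f s < nn (wt s) := by
    intro f
    rw [hF0, Fintype.mem_piFinset]
    simp only [mem_range]
  have hF0card : F0.card = ∏ s : Slot k, nn (wt s) := by
    rw [hF0, Fintype.card_piFinset]
    simp only [card_range]
  obtain ⟨DD, hDD⟩ : ∃ DD : (Slot k → ℕ) → Fin k → ℕ,
    DD = fun f l => ∏ i : Fin (2 * k - l.val), P ⟨l, i⟩ (f ⟨l, i⟩) := ⟨_, rfl⟩
  have hDDge : ∀ f ∈ F0, ∀ l, z ^ (2 * k) ≤ DD f l := by
    intro f hf l
    rw [hF0mem] at hf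
    have h1 : z ^ (2 * k) = ∏ i : Fin (2 * k - l.val), z ^ wt (⟨l, i⟩ : Slot k) := by
      rw [prod_pow_eq_pow_sum, sum_wt]
    rw [hDD, h1]
    exact prod_le_prod' fun i _ => (hPmem _ _ (hf _)).1
  have hDDle : ∀ f ∈ F0, ∀ l, W * DD f l ≤ (W + 1) * z ^ (2 * k) := by
    intro f hf l
    rw [hF0mem] at hf
    have h1 : DD f l * J ^ (2 * k - l.val) ≤ z ^ (2 * k) * (J + 1) ^ (2 * k - l.val) := by
      rw [hDD]
      simp only
      calc (∏ i : Fin (2 * k - l.val), P ⟨l, i⟩ (f ⟨l, i⟩)) * J ^ (2 * k - l.val)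
          = ∏ i : Fin (2 * k - l.val), (P ⟨l, i⟩ (f ⟨l, i⟩) * J) := by
            rw [prod_mul_distrib, prod_const, card_univ, Fintype.card_fin]
        _ ≤ ∏ i : Fin (2 * k - l.val), (z ^ wt (⟨l, i⟩ : Slot k) * (J + 1)) := by
            apply prod_le_prod'
            intro i _
            have h2 := (hPmem ⟨l, i⟩ (f ⟨l, i⟩) (hf _)).2.1
            have h3 : z ^ wt (⟨l, i⟩ : Slot k) / J * J ≤ z ^ wt (⟨l, i⟩ : Slot k) :=
              Nat.div_mul_le_self _ _
            calc P ⟨l, i⟩ (f ⟨l, i⟩) * J ≤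
                  (z ^ wt (⟨l, i⟩ : Slot k) + z ^ wt (⟨l, i⟩ : Slot k) / J) * J :=
                    Nat.mul_le_mul_right _ h2.le
              _ = z ^ wt (⟨l, i⟩ : Slot k) * J + z ^ wt (⟨l, i⟩ : Slot k) / J * J := by ring
              _ ≤ z ^ wt (⟨l, i⟩ : Slot k) * J + z ^ wt (⟨l, i⟩ : Slot k) := by omega
              _ = _ := by ring
        _ = _ := by
            rw [prod_mul_distrib, prod_pow_eq_pow_sum, sum_wt, prod_const, card_univ,
              Fintype.card_fin]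
    have h2 := bern (n := 2 * k - l.val) hW (Nat.sub_le _ _) hJ
    have h3 : 0 < J ^ (2 * k - l.val) := by positivity
    have h4 : W * DD f l * J ^ (2 * k - l.val) ≤ (W + 1) * z ^ (2 * k) * J ^ (2 * k - l.val) := by
      calc W * DD f l * J ^ (2 * k - l.val) = W * (DD f l * J ^ (2 * k - l.val)) := by ring
        _ ≤ W * (z ^ (2 * k) * (J + 1) ^ (2 * k - l.val)) := Nat.mul_le_mul_left _ h1
        _ = z ^ (2 * k) * (W * (J + 1) ^ (2 * k - l.val)) := by ring
        _ ≤ z ^ (2 * k) * ((W + 1) * J ^ (2 * k - l.val)) := Nat.mul_le_mul_left _ h2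
        _ = _ := by ring
    exact Nat.le_of_mul_le_mul_right h4 h3
  have hDDle2 : ∀ f ∈ F0, ∀ l, DD f l ≤ 2 * z ^ (2 * k) := by
    intro f hf l
    have h1 := hDDle f hf l
    have h2 : (W + 1) * z ^ (2 * k) ≤ W * (2 * z ^ (2 * k)) := by
      calc (W + 1) * z ^ (2 * k) ≤ (W + W) * z ^ (2 * k) := by gcongr; exact hW
        _ = _ := by ring
    exact Nat.le_of_mul_le_mul_left (h1.trans h2) hW
  have hDDmod : ∀ f ∈ F0, ∀ l, DD f l ≡ 1 [MOD K] := by
    intro f hf l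
    rw [hF0mem] at hf
    rw [hDD]
    simp only
    have h1 : ∀ s : Finset (Fin (2 * k - l.val)), (∏ i ∈ s, P ⟨l, i⟩ (f ⟨l, i⟩)) ≡ 1 [MOD K] := by
      intro s
      induction s using Finset.induction_on with
      | empty => simp [Nat.ModEq.refl]
      | insert a s ha ih =>
        rw [prod_insert ha]
        have := (hPmem ⟨l, a⟩ (f ⟨l, a⟩) (hf _)).2.2.2.mul ih
        rwa [one_mul] at this
    exact h1 univ
  -- pigeonhole
  obtain ⟨G, hG⟩ : ∃ G : (Slot k → ℕ) → ℕ × (Fin k → ℤ),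
    G = fun f => (DD f l0 / z, fun l => (DD f l : ℤ) - DD f l0) := ⟨_, rfl⟩
  obtain ⟨T, hT⟩ : ∃ T : Finset (ℕ × (Fin k → ℤ)), T = (range (2 * z ^ (2 * k - 1) + 1)) ×ˢ
    Fintype.piFinset (fun l : Fin k =>
    if l = l0 then ({0} : Finset ℤ) else Icc (-(z ^ (2 * k) : ℤ)) (z ^ (2 * k))) := ⟨_, rfl⟩
  have hzk : z ^ (2 * k) = z * z ^ (2 * k - 1) := by
    rw [← pow_succ', Nat.sub_add_cancel (by omega)]
  have hGT : ∀ f ∈ F0, G f ∈ T := by
    intro f hf
    rw [hT, hG, mem_product, mem_range, Fintype.mem_piFinset]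
    refine ⟨?_, ?_⟩
    · simp only
      have h1 := hDDle2 f hf l0
      rw [hzk] at h1
      have h2 : DD f l0 / z ≤ 2 * z ^ (2 * k - 1) := by
        apply Nat.div_le_of_le_mul
        calc DD f l0 ≤ 2 * (z * z ^ (2 * k - 1)) := h1
          _ = z * (2 * z ^ (2 * k - 1)) := by ring
      omega
    · intro l
      simp only
      split_ifs with h
      · rw [h]; simp
      · rw [mem_Icc]
        have h1 : ((z ^ (2 * k) : ℕ) : ℤ) ≤ DD f l := by exact_mod_cast hDDge f hf l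
        have h2 : ((z ^ (2 * k) : ℕ) : ℤ) ≤ DD f l0 := by exact_mod_cast hDDge f hf l0
        have h3 : (DD f l : ℤ) ≤ ((2 * z ^ (2 * k) : ℕ) : ℤ) := by exact_mod_cast hDDle2 f hf l
        have h4 : (DD f l0 : ℤ) ≤ ((2 * z ^ (2 * k) : ℕ) : ℤ) := by exact_mod_cast hDDle2 f hf l0
        push_cast at h1 h2 h3 h4
        constructor <;> linarith
  have hTcard : z * T.card ≤ 4 ^ k * z ^ (2 * k * k) := by
    have h1 : z * (2 * z ^ (2 * k - 1) + 1) ≤ 4 * z ^ (2 * k) := by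
      rw [hzk]
      have h2 : 1 ≤ z ^ (2 * k - 1) := Nat.one_le_pow _ _ hz0
      calc z * (2 * z ^ (2 * k - 1) + 1) ≤ z * (2 * z ^ (2 * k - 1) + 2 * z ^ (2 * k - 1)) := by
            apply Nat.mul_le_mul_left; omega
        _ = _ := by ring
    have h3 : (Fintype.piFinset (fun l : Fin k =>
        if l = l0 then ({0} : Finset ℤ) else Icc (-(z ^ (2 * k) : ℤ)) (z ^ (2 * k)))).card ≤
        ∏ l ∈ univ.erase l0, (4 * z ^ (2 * k)) := by
      rw [Fintype.card_piFinset, ← Finset.mul_prod_erase univ _ (mem_univ l0), if_pos rfl,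
        card_singleton, one_mul]
      apply prod_le_prod'
      intro l hl
      rw [if_neg (Finset.ne_of_mem_erase hl), Int.card_Icc]
      have h4 : 1 ≤ z ^ (2 * k) := Nat.one_le_pow _ _ hz0
      have h5 : ((z : ℤ) ^ (2 * k) + 1 - -(z : ℤ) ^ (2 * k)).toNat ≤
          ((4 * z ^ (2 * k) : ℕ) : ℤ).toNat := by
        apply Int.toNat_le_toNat
        have h4' : (1 : ℤ) ≤ (z : ℤ) ^ (2 * k) := by exact_mod_cast h4
        push_cast
        linarith
      rwa [Int.toNat_natCast] at h5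
    calc z * T.card = (z * (2 * z ^ (2 * k - 1) + 1)) * (Fintype.piFinset (fun l : Fin k =>
        if l = l0 then ({0} : Finset ℤ) else Icc (-(z ^ (2 * k) : ℤ)) (z ^ (2 * k)))).card := by
          rw [hT, card_product, card_range, mul_assoc]
      _ ≤ (4 * z ^ (2 * k)) * ∏ l ∈ univ.erase l0, (4 * z ^ (2 * k)) := Nat.mul_le_mul h1 h3
      _ = ∏ l : Fin k, (4 * z ^ (2 * k)) :=
          Finset.mul_prod_erase univ (fun _ => 4 * z ^ (2 * k)) (mem_univ l0)
      _ = 4 ^ k * z ^ (2 * k * k) := by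
          rw [prod_const, card_univ, Fintype.card_fin, mul_pow, ← pow_mul]
  have hlt : T.card * R < F0.card := by
    rw [hF0card]
    by_contra hcon
    push Not at hcon
    have h1 : z * ∏ s : Slot k, nn (wt s) ≤ (R + 1) * 4 ^ k * z ^ (2 * k * k) := by
      calc z * ∏ s : Slot k, nn (wt s) ≤ z * (T.card * R) := Nat.mul_le_mul_left _ hcon
        _ = (z * T.card) * R := by ring
        _ ≤ (4 ^ k * z ^ (2 * k * k)) * R := Nat.mul_le_mul_right _ hTcard
        _ = R * (4 ^ k * z ^ (2 * k * k)) := by ring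
        _ ≤ (R + 1) * (4 ^ k * z ^ (2 * k * k)) := Nat.mul_le_mul_right _ (Nat.le_succ _)
        _ = _ := by ring
    omega
  obtain ⟨v, _, hv⟩ := Finset.exists_lt_card_fiber_of_mul_lt_card_of_maps_to hGT hlt
  obtain ⟨F, hF⟩ : ∃ F, F = F0.filter (fun f => G f = v) := ⟨_, rfl⟩
  rw [← hF] at hv
  have hF0' : ∀ f ∈ F, f ∈ F0 := by
    intro f hf
    rw [hF, mem_filter] at hf
    exact hf.1
  have hFmem : ∀ f ∈ F, ∀ l, (DD f l : ℤ) - DD f l0 = v.2 l := by
    intro f hf l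
    rw [hF, mem_filter] at hf
    rw [← hf.2, hG]
  have hFdiv : ∀ f ∈ F, DD f l0 / z = v.1 := by
    intro f hf
    rw [hF, mem_filter] at hf
    rw [← hf.2, hG]
  obtain ⟨f0, hf0⟩ : F.Nonempty := by
    rw [← card_pos]; omega
  have hKv : ∀ l, (K : ℤ) ∣ v.2 l := by
    intro l
    rw [← hFmem f0 hf0 l]
    have h1 := (hDDmod f0 (hF0' f0 hf0) l).trans (hDDmod f0 (hF0' f0 hf0) l0).symm
    have h2 := (Int.natCast_modEq_iff.2 h1.symm).dvd
    exact h2
  have hemb2 : Nonempty (Fin R ↪ {x // x ∈ F}) := by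
    apply Function.Embedding.nonempty_of_card_le
    rw [Fintype.card_fin, Fintype.card_coe]
    exact hv.le
  obtain ⟨φ⟩ := hemb2
  choose h hh using hKv
  refine ⟨h, fun t => DD (φ t).1 l0, fun t l => DD (φ t).1 l, ?_, ?_, ?_, ?_, ?_⟩
  · intro t l
    have := hFmem _ (φ t).2 l
    rw [hh] at this
    simp only
    linarith
  · intro t l
    have h1 := hFmem _ (φ t).2 l
    rw [hh] at h1
    have hf := hF0' _ (φ t).2
    have h2 : ((z ^ (2 * k) : ℕ) : ℤ) ≤ DD (φ t).1 l := by exact_mod_cast hDDge _ hf l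
    have h3 : ((z ^ (2 * k) : ℕ) : ℤ) ≤ DD (φ t).1 l0 := by exact_mod_cast hDDge _ hf l0
    have h4 : ((W * DD (φ t).1 l : ℕ) : ℤ) ≤ (((W + 1) * z ^ (2 * k) : ℕ) : ℤ) := by
      exact_mod_cast hDDle _ hf l
    have h5 : ((W * DD (φ t).1 l0 : ℕ) : ℤ) ≤ (((W + 1) * z ^ (2 * k) : ℕ) : ℤ) := by
      exact_mod_cast hDDle _ hf l0
    push_cast at h2 h3 h4 h5
    have hW' : (0 : ℤ) ≤ W := Int.natCast_nonneg _
    have h6 : (W : ℤ) * (z : ℤ) ^ (2 * k) ≤ W * DD (φ t).1 l := mul_le_mul_of_nonneg_left h2 hW'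
    have h7 : (W : ℤ) * (z : ℤ) ^ (2 * k) ≤ W * DD (φ t).1 l0 := mul_le_mul_of_nonneg_left h3 hW'
    have h8 : (K : ℤ) * |h l| = |(K : ℤ) * h l| := by
      rw [abs_mul, abs_of_nonneg (Int.natCast_nonneg K)]
    have h9 : (W : ℤ) * |(K : ℤ) * h l| = |(W : ℤ) * (K * h l)| := by
      rw [abs_mul (W : ℤ), abs_of_nonneg hW']
    simp only
    rw [h8, h9, ← h1, abs_le]
    constructor <;> linarith
  · intro t
    have h3 : z ^ (2 * k) ≤ DD (φ t).1 l0 := hDDge _ (hF0' _ (φ t).2) l0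
    have h4 : z ≤ z ^ (2 * k) := Nat.le_self_pow (by omega) z
    have h5 : W * K ≤ DD (φ t).1 l0 := hzW.trans (h4.trans h3)
    have h6 : ((W * K : ℕ) : ℤ) ≤ ((DD (φ t).1 l0 : ℕ) : ℤ) := Int.ofNat_le.2 h5
    push_cast at h6
    exact h6
  · intro t l
    have hf := hF0' _ (φ t).2
    rw [hF0mem] at hf
    have hinj : ∀ i i' : Fin (2 * k - l.val), P ⟨l, i⟩ ((φ t).1 ⟨l, i⟩) =
        P ⟨l, i'⟩ ((φ t).1 ⟨l, i'⟩) → i = i' := by
      intro i i' hi
      have := (hPinj _ _ _ _ (hf _) (hf _) hi).1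
      exact eq_of_heq (Sigma.mk.inj this).2
    refine ⟨univ.image (fun i : Fin (2 * k - l.val) => P ⟨l, i⟩ ((φ t).1 ⟨l, i⟩)), ?_, ?_, ?_⟩
    · rw [card_image_of_injective, card_univ, Fintype.card_fin]
      intro i i' hi
      exact hinj i i' hi
    · intro p hp
      rw [mem_image] at hp
      obtain ⟨i, _, rfl⟩ := hp
      obtain ⟨h1, h2, h3, h4⟩ := hPmem ⟨l, i⟩ ((φ t).1 ⟨l, i⟩) (hf _)
      exact ⟨h3, hzp.trans (hPz _ _ (hf _)), h4⟩
    · rw [prod_image]
      · rw [hDD]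
      · intro i _ i' _ hi
        exact hinj i i' hi
  · intro t l t' l' hne
    simp only
    have hf := hF0' _ (φ t).2
    have hf' := hF0' _ (φ t').2
    rw [hF0mem] at hf hf'
    rw [Nat.coprime_iff_gcd_eq_one]
    by_contra hg
    obtain ⟨p, hp, hpd⟩ := Nat.exists_prime_and_dvd hg
    have hp1 := hpd.trans (Nat.gcd_dvd_left _ _)
    have hp2 := hpd.trans (Nat.gcd_dvd_right _ _)
    have key : ∀ f, (∀ s, f s < nn (wt s)) → ∀ l, p ∣ DD f l →
        ∃ i : Fin (2 * k - l.val), p = P ⟨l, i⟩ (f ⟨l, i⟩) := by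
      intro f hf l hd
      rw [hDD] at hd
      simp only at hd
      rw [Prime.dvd_finsetProd_iff hp.prime] at hd
      obtain ⟨i, _, hi⟩ := hd
      exact ⟨i, (Nat.prime_dvd_prime_iff_eq hp (hPmem _ _ (hf _)).2.2.1).1 hi⟩
    obtain ⟨i, hi⟩ := key _ hf _ hp1
    obtain ⟨i', hi'⟩ := key _ hf' _ hp2
    have h1 := (hPinj _ _ _ _ (hf _) (hf' _) (hi.symm.trans hi')).1
    have hll : l = l' := (Sigma.mk.inj h1).1
    subst hll
    have htt : t ≠ t' := fun h => hne (by rw [h])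
    have e1 := hFmem _ (φ t).2 l
    have e2 := hFmem _ (φ t').2 l
    have hz' : z ≤ p := by rw [hi]; exact hPz _ _ (hf _)
    have hd : (p : ℤ) ∣ (DD (φ t).1 l0 : ℤ) - DD (φ t').1 l0 := by
      have h2 : (DD (φ t).1 l0 : ℤ) - DD (φ t').1 l0 = DD (φ t).1 l - DD (φ t').1 l := by linarith
      rw [h2]
      exact dvd_sub (Int.natCast_dvd_natCast.2 hp1) (Int.natCast_dvd_natCast.2 hp2)
    have hb1 := hFdiv _ (φ t).2
    have hb2 := hFdiv _ (φ t').2
    have hc1 := Nat.div_add_mod (DD (φ t).1 l0) z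
    have hc2 := Nat.div_add_mod (DD (φ t').1 l0) z
    have hc3 := Nat.mod_lt (DD (φ t).1 l0) hz0
    have hc4 := Nat.mod_lt (DD (φ t').1 l0) hz0
    rw [hb1] at hc1
    rw [hb2] at hc2
    have heq : (DD (φ t).1 l0 : ℤ) - DD (φ t').1 l0 = 0 := by
      apply Int.eq_zero_of_abs_lt_dvd hd
      rw [abs_lt]
      constructor <;> omega
    apply htt
    apply φ.injective
    apply Subtype.ext
    funext ⟨j, a⟩
    have e3 := hFmem _ (φ t).2 j
    have e4 := hFmem _ (φ t').2 j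
    have e5 : DD (φ t).1 j = DD (φ t').1 j := by
      have : (DD (φ t).1 j : ℤ) = DD (φ t').1 j := by linarith
      exact_mod_cast this
    have e6 : P ⟨j, a⟩ ((φ t).1 ⟨j, a⟩) ∣ DD (φ t').1 j := by
      rw [← e5, hDD]
      exact Finset.dvd_prod_of_mem (fun i : Fin (2 * k - j.val) => P ⟨j, i⟩ ((φ t).1 ⟨j, i⟩))
        (mem_univ a)
    rw [hDD] at e6
    simp only at e6
    rw [Prime.dvd_finsetProd_iff (hPmem _ _ (hf _)).2.2.1.prime] at e6
    obtain ⟨a', _, ha'⟩ := e6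
    have e7 := (Nat.prime_dvd_prime_iff_eq (hPmem _ _ (hf _)).2.2.1
      (hPmem _ _ (hf' _)).2.2.1).1 ha'
    obtain ⟨e8, e9⟩ := hPinj _ _ _ _ (hf _) (hf' _) e7
    have e10 : a = a' := eq_of_heq (Sigma.mk.inj e8).2
    rw [e10] at e9 ⊢
    exact e9

end Pool.Agent.GA
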