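import Mathlib
import Pool.Agent.GA.Defs
import Pool.Agent.GA.Pattern

set_option autoImplicit false

/-!
# The local theorem: a finite system of edges from the Hales-Jewett theorem
-/

namespace Pool.Agent.GA

open Finset Combinatorics

theorem g_prod {k : ℕ} (g : ℕ → ZMod k) (hg : ∀ m n : ℕ, m ≠ 0 → n ≠ 0 → g (m * n) = g m + g n)
    (s : Finset ℕ) (hs : ∀ p ∈ s, p ≠ 0 ∧ g p = 1) : g (∏ p ∈ s, p) = s.card := by
  have h1 : g 1 = 0 := by
    have := hg 1 1 one_ne_zero one_ne_zero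
    rw [mul_one] at this
    exact left_eq_add.1 this
  induction s using Finset.induction_on with
  | empty => simp [h1]
  | insert a s ha ih =>
    rw [prod_insert ha, card_insert_of_notMem ha, hg _ _ (hs a (mem_insert_self _ _)).1
      (prod_ne_zero_iff.2 fun p hp => (hs p (mem_insert_of_mem hp)).1),
      ih fun p hp => hs p (mem_insert_of_mem hp), (hs a (mem_insert_self _ _)).2]
    push_cast
    ring

theorem squarefree_prod (s : Finset ℕ) (hs : ∀ p ∈ s, p.Prime) : Squarefree (∏ p ∈ s, p) := by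
  induction s using Finset.induction_on with
  | empty => simp
  | insert a s ha ih =>
    rw [prod_insert ha, Nat.squarefree_mul_iff]
    refine ⟨?_, (hs a (mem_insert_self _ _)).squarefree, ih fun p hp => hs p (mem_insert_of_mem hp)⟩
    apply Nat.Coprime.prod_right
    intro p hp
    rw [Nat.coprime_primes (hs a (mem_insert_self _ _)) (hs p (mem_insert_of_mem hp))]
    rintro rfl
    exact ha hp

/-- number of moving coordinates -/
def act {α ι : Type} [Fintype ι] [DecidableEq α] (L : Line α ι) : ℕ :=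
  (univ.filter (fun i => L.idxFun i = none)).card

/-- the constant part -/
def fixedPart {α ι : Type} [Fintype ι] (L : Line α ι) (h : α → ℤ) : ℤ :=
  ∑ i, (L.idxFun i).elim 0 h

theorem sum_line {α ι : Type} [Fintype ι] [DecidableEq α] (L : Line α ι) (h : α → ℤ) (l : α) :
    ∑ i, h (L l i) = fixedPart L h + act L * h l := by
  have h1 : (act L : ℤ) * h l = ∑ i, if L.idxFun i = none then h l else 0 := by
    rw [← Finset.sum_filter, sum_const, act, nsmul_eq_mul]
  rw [h1, fixedPart, ← sum_add_distrib]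
  apply sum_congr rfl
  intro i _
  rw [Line.coe_apply]
  cases h2 : L.idxFun i with
  | none => simp
  | some a => simp

theorem act_pos {α ι : Type} [Fintype ι] [DecidableEq α] (L : Line α ι) : 0 < act L := by
  obtain ⟨i, hi⟩ := L.proper
  rw [act, card_pos]
  exact ⟨i, by simp [hi]⟩

theorem act_le {α ι : Type} [Fintype ι] [DecidableEq α] (L : Line α ι) :
    act L ≤ Fintype.card ι := by
  rw [act, ← card_univ]
  exact card_filter_le _ _

theorem abs_fixedPart_le {α ι : Type} [Fintype ι] (L : Line α ι) (h : α → ℤ) (H : ℤ)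
    (hH : ∀ a, |h a| ≤ H) (hH0 : 0 ≤ H) : |fixedPart L h| ≤ Fintype.card ι * H := by
  rw [fixedPart]
  refine (abs_sum_le_sum_abs _ _).trans ?_
  calc ∑ i, |(L.idxFun i).elim 0 h| ≤ ∑ _i : ι, H := by
        apply sum_le_sum
        intro i _
        cases L.idxFun i with
        | none => simpa using hH0
        | some a => exact hH a
    _ = Fintype.card ι * H := by rw [sum_const, card_univ, nsmul_eq_mul]

theorem finite_line (α ι : Type) [Finite α] [Finite ι] : Finite (Line α ι) := by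
  apply Finite.of_injective (fun L : Line α ι => L.idxFun)
  intro L L' h
  cases L; cases L'
  simp only at h
  subst h
  rfl

/-- The star theorem: for every colouring a whole class of residues `s + 2 j` is reached. -/
theorem exists_star (k m0 p0 : ℕ) (hk : 0 < k) (hm0 : 0 < m0) :
    ∃ (S : Finset Edge) (z : ℕ), Good S ∧
      ∀ g : ℕ → ZMod k, (∀ m n : ℕ, m ≠ 0 → n ≠ 0 → g (m * n) = g m + g n) →
        (∀ p, p.Prime → p0 ≤ p → p ≤ z → p ≡ 1 [MOD m0] → g p = 1) →
        ∀ (cR : ℕ → ZMod k) (cL : ℕ × ℕ → ZMod k), ∃ s : ZMod k, ∀ j : ZMod k, ∃ e ∈ S,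
          cR e.Y + cL (e.E, e.B) - 2 * g e.D = s + 2 * j := by
  classical
  have : NeZero k := ⟨hk.ne'⟩
  obtain ⟨ι, hι, HJ⟩ := Line.exists_mono_in_high_dimension (Fin k) (ZMod k)
  obtain ⟨n, hn⟩ : ∃ n, n = Fintype.card ι := ⟨_, rfl⟩
  have hfin := finite_line (Fin k) ι
  obtain ⟨R, ⟨e⟩⟩ := Finite.exists_equiv_fin (Line (Fin k) ι)
  obtain ⟨K, hK⟩ : ∃ K, K = m0 * n.factorial := ⟨_, rfl⟩
  have hKpos : 0 < K := by rw [hK]; positivity
  obtain ⟨h, θ, D, hD1, hD2, hD2', hD3, hD4⟩ :=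
    exists_pattern k R K p0 (k * (4 * n + 2)) hk hKpos (by positivity)
  have hDpos : ∀ t l, 0 < D t l := by
    intro t l
    obtain ⟨s, _, hs, hs'⟩ := hD3 t l
    rw [hs']
    exact prod_pos fun p hp => (hs p hp).1.pos
  obtain ⟨H, hH⟩ : ∃ H : ℕ, H = ∑ l, (h l).natAbs := ⟨_, rfl⟩
  have hHle : ∀ l, |h l| ≤ H := by
    intro l
    rw [hH, Int.abs_eq_natAbs]
    exact_mod_cast single_le_sum (f := fun l => (h l).natAbs) (fun _ _ => Nat.zero_le _) (mem_univ l)
  obtain ⟨Θ, hΘ⟩ : ∃ Θ : ℕ, Θ = ∑ t, ∑ l, D t l := ⟨_, rfl⟩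
  have hDΘ : ∀ t l, D t l ≤ Θ := by
    intro t l
    rw [hΘ]
    refine le_trans ?_ (single_le_sum (f := fun t => ∑ l, D t l) (fun _ _ => Nat.zero_le _)
      (mem_univ t))
    exact single_le_sum (f := fun l => D t l) (fun _ _ => Nat.zero_le _) (mem_univ l)
  -- the size condition
  have hk1 : (1 : ℤ) ≤ k := by exact_mod_cast hk
  have hn0 : (0 : ℤ) ≤ n := Int.natCast_nonneg _
  have hK1 : (1 : ℤ) ≤ K := by exact_mod_cast hKpos
  have hsize : ∀ t, (K : ℤ) * (2 * n * H) + K ≤ θ t := by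
    intro t
    have h1 : (k : ℤ) * ((4 * n + 2) * (K * H)) ≤ k * θ t := by
      have h2 : ∑ l : Fin k, ((k * (4 * n + 2) : ℕ) : ℤ) * (K * |h l|) ≤ ∑ _l : Fin k, θ t :=
        sum_le_sum fun l _ => hD2 t l
      rw [← mul_sum, ← mul_sum, sum_const, card_univ, Fintype.card_fin, nsmul_eq_mul] at h2
      have h3 : ∑ l : Fin k, |h l| = H := by
        rw [hH]; push_cast
        exact sum_congr rfl fun l _ => by rfl
      rw [h3] at h2
      push_cast at h2
      linarith
    have h4 : ((4 * n + 2) * (K * H) : ℤ) ≤ θ t := le_of_mul_le_mul_left h1 (by linarith)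
    have h5 : (2 * K : ℤ) ≤ θ t := by
      refine le_trans ?_ (hD2' t)
      push_cast
      have h6 : (2 : ℤ) ≤ k * (4 * n + 2) := by nlinarith
      nlinarith
    have h7 : (0 : ℤ) ≤ K * H := by positivity
    nlinarith
  obtain ⟨Y0, hY0⟩ : ∃ Y0 : ℕ, Y0 = n * H := ⟨_, rfl⟩
  -- positions
  have hpos : ∀ w : ι → Fin k, 0 ≤ (Y0 : ℤ) + ∑ i, h (w i) := by
    intro w
    have h1 : |∑ i, h (w i)| ≤ n * H := by
      refine (abs_sum_le_sum_abs _ _).trans ?_
      calc ∑ i, |h (w i)| ≤ ∑ _i : ι, (H : ℤ) := sum_le_sum fun i _ => hHle _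
        _ = n * H := by rw [sum_const, card_univ, nsmul_eq_mul, hn]
    have h3 := neg_abs_le (∑ i, h (w i))
    rw [hY0]
    push_cast
    linarith
  obtain ⟨Y, hY⟩ : ∃ Y : (ι → Fin k) → ℕ, Y = fun w => ((Y0 : ℤ) + ∑ i, h (w i)).toNat := ⟨_, rfl⟩
  have hYz : ∀ w, (Y w : ℤ) = Y0 + ∑ i, h (w i) := by
    intro w
    rw [hY]
    exact Int.toNat_of_nonneg (hpos w)
  -- the centre of a line
  have hact : ∀ L : Line (Fin k) ι, act L ∣ n.factorial := by
    intro L
    apply Nat.dvd_factorial (act_pos L)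
    rw [hn]
    exact act_le L
  have hB : ∀ L : Line (Fin k) ι, ∃ B : ℕ, 0 < B ∧ act L * B = K := by
    intro L
    obtain ⟨c, hc⟩ := hact L
    have hc0 : 0 < c := by
      rcases Nat.eq_zero_or_pos c with h0 | h0
      · rw [h0, mul_zero] at hc
        exact absurd hc (Nat.factorial_ne_zero n)
      · exact h0
    refine ⟨m0 * c, by positivity, ?_⟩
    rw [hK, hc]; ring
  choose B hB0 hBK using hB
  have hBle : ∀ L : Line (Fin k) ι, B L ≤ K := by
    intro L
    rw [← hBK L]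
    exact Nat.le_mul_of_pos_left _ (act_pos L)
  have hA : ∀ L : Line (Fin k) ι, ∃ E : ℕ, (E : ℤ) = θ (e L) - B L * (Y0 + fixedPart L h) ∧
      B L ≤ E := by
    intro L
    have h1 : |fixedPart L h| ≤ n * H := by
      rw [hn]
      exact abs_fixedPart_le L h H hHle (Int.natCast_nonneg _)
    have h2 := neg_abs_le (fixedPart L h)
    have h2' := le_abs_self (fixedPart L h)
    have h3 : (B L : ℤ) ≤ K := by exact_mod_cast hBle L
    have h4 : (1 : ℤ) ≤ B L := by exact_mod_cast hB0 L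
    have h5 : (0 : ℤ) ≤ Y0 + fixedPart L h := by
      rw [hY0]; push_cast; linarith
    have h6 : (Y0 : ℤ) + fixedPart L h ≤ 2 * n * H := by
      rw [hY0]; push_cast; linarith
    have h7 : (B L : ℤ) * (Y0 + fixedPart L h) ≤ K * (2 * n * H) :=
      mul_le_mul h3 h6 h5 (by linarith)
    have h8 := hsize (e L)
    have h9 : (B L : ℤ) ≤ θ (e L) - B L * (Y0 + fixedPart L h) := by linarith
    refine ⟨(θ (e L) - B L * (Y0 + fixedPart L h)).toNat, Int.toNat_of_nonneg (by linarith), ?_⟩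
    have h10 : ((B L : ℕ) : ℤ) ≤ ((θ (e L) - B L * (Y0 + fixedPart L h)).toNat : ℤ) := by
      rw [Int.toNat_of_nonneg (by linarith)]; exact h9
    exact_mod_cast h10
  choose E hE hBE using hA
  have hedge : ∀ (L : Line (Fin k) ι) (l : Fin k), B L * Y (L l) + E L = D (e L) l := by
    intro L l
    have h1 : ((B L * Y (L l) + E L : ℕ) : ℤ) = (D (e L) l : ℤ) := by
      push_cast
      rw [hYz, sum_line, hE, hD1]
      have h2 : ((act L * B L : ℕ) : ℤ) = K := by rw [hBK]
      push_cast at h2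
      rw [← h2]
      ring
    exact_mod_cast h1
  have : Fintype (Line (Fin k) ι) := Fintype.ofFinite _
  refine ⟨(univ : Finset (Line (Fin k) ι × Fin k)).image
    (fun x => ⟨Y (x.1 x.2), E x.1, B x.1, D (e x.1) x.2⟩), Θ, ⟨?_, ?_, ?_, ?_, ?_⟩, ?_⟩
  · intro x hx
    rw [mem_image] at hx
    obtain ⟨⟨L, l⟩, _, rfl⟩ := hx
    exact hB0 L
  · intro x hx
    rw [mem_image] at hx
    obtain ⟨⟨L, l⟩, _, rfl⟩ := hx
    exact hBE L
  · intro x hx
    rw [mem_image] at hx
    obtain ⟨⟨L, l⟩, _, rfl⟩ := hx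
    exact hedge L l
  · intro x hx
    rw [mem_image] at hx
    obtain ⟨⟨L, l⟩, _, rfl⟩ := hx
    obtain ⟨s, _, hs, hs'⟩ := hD3 (e L) l
    simp only
    rw [hs']
    exact squarefree_prod s fun p hp => (hs p hp).1
  · intro x hx x' hx' hne
    rw [mem_image] at hx hx'
    obtain ⟨⟨L, l⟩, _, rfl⟩ := hx
    obtain ⟨⟨L', l'⟩, _, rfl⟩ := hx'
    apply hD4
    intro heq
    apply hne
    have h1 := Prod.mk.inj heq
    have h2 := e.injective h1.1
    have h3 := h1.2
    simp only at h2 h3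
    subst h2
    subst h3
    rfl
  · intro g hg hgp cR cL
    have hgD : ∀ t l, g (D t l) = (2 * k - l.val : ℕ) := by
      intro t l
      obtain ⟨s, hs1, hs, hs'⟩ := hD3 t l
      rw [hs', g_prod g hg s, hs1]
      intro p hp
      refine ⟨(hs p hp).1.ne_zero, hgp p (hs p hp).1 (hs p hp).2.1 ?_ ?_⟩
      · refine le_trans ?_ (hDΘ t l)
        apply Nat.le_of_dvd (hDpos _ _)
        rw [hs']
        exact dvd_prod_of_mem (fun p => p) hp
      · exact (hs p hp).2.2.of_dvd (by rw [hK]; exact dvd_mul_right _ _)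
    obtain ⟨L, β, hL⟩ := HJ (fun w => cR (Y w))
    refine ⟨β + cL (E L, B L), ?_⟩
    intro j
    obtain ⟨l, hl⟩ : ∃ l : Fin k, ((l.val : ℕ) : ZMod k) = j := by
      refine ⟨⟨j.val, ZMod.val_lt _⟩, ?_⟩
      rw [ZMod.natCast_val, ZMod.cast_id]
    refine ⟨⟨Y (L l), E L, B L, D (e L) l⟩, mem_image.2 ⟨(L, l), mem_univ _, rfl⟩, ?_⟩
    simp only
    rw [hgD, Nat.cast_sub (by have := l.2; omega), hl]
    have h7 : cR (Y (L l)) = β := hL l
    rw [h7]
    push_cast
    rw [ZMod.natCast_self]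
    ring

end Pool.Agent.GA
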