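import Mathlib
import Pool.Agent.GA.Defs
import Pool.Agent.H6.AP3.Sieve
import Pool.Agent.H6.AP3.Omega

set_option autoImplicit false

/-!
# M4: many `a` all of whose nodes have boundedly many prime factors
-/

namespace Pool.Agent.GA

open Finset ArithmeticFunction Filter
open Pool.Agent.H6.Hooley Pool.Agent.H6.AP3

/-- a class mod `p` contains an integer at which no form is divisible by `p ^ J` -/
theorem exists_avoid (p J : ℕ) (hp : p.Prime) (hJ : 1 ≤ J) (F : Finset (ℤ × ℤ)) (N : ℤ) (r : ℕ)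
    (hF : ∀ f ∈ F, f.1 ≠ 0 ∧ f.1.natAbs * F.card < 2 ^ (J - 1)) :
    ∃ a : ℕ, a ≡ r [MOD p] ∧ ∀ f ∈ F, ¬ ((p : ℤ) ^ J ∣ f.1 * a + f.2 * N) := by
  classical
  by_contra hcon
  push Not at hcon
  have h1 : ∀ i : ℕ, ∃ f ∈ F, (p : ℤ) ^ J ∣ f.1 * ((r + p * i : ℕ) : ℤ) + f.2 * N := by
    intro i
    apply hcon (r + p * i)
    simp [Nat.ModEq]
  choose f hf hd using h1
  obtain ⟨i, hi, i', hi', hne, he⟩ := Finset.exists_ne_map_eq_of_card_lt_of_maps_to
    (s := range (F.card + 1)) (t := F) (by simp) (fun i _ => hf i)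
  have hi2 := mem_range.1 hi
  have hi2' := mem_range.1 hi'
  have e1 := hd i
  have e2 := hd i'
  rw [← he] at e2
  have e3 := dvd_sub e1 e2
  have e4 : (f i).1 * ((r + p * i : ℕ) : ℤ) + (f i).2 * N -
      ((f i).1 * ((r + p * i' : ℕ) : ℤ) + (f i).2 * N) =
      (p : ℤ) * ((f i).1 * ((i : ℤ) - i')) := by
    push_cast; ring
  have e5 : (p : ℤ) ^ J = (p : ℤ) * (p : ℤ) ^ (J - 1) := by
    rw [← pow_succ', Nat.sub_add_cancel hJ]
  rw [e4, e5] at e3
  have hp0 : (p : ℤ) ≠ 0 := by exact_mod_cast hp.ne_zero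
  have e6 := (mul_dvd_mul_iff_left hp0).1 e3
  obtain ⟨hf0, hfc⟩ := hF _ (hf i)
  have hdiff : ((i : ℤ) - i') ≠ 0 := by
    intro h
    apply hne
    omega
  have e7 : p ^ (J - 1) ∣ (f i).1.natAbs * ((i : ℤ) - i').natAbs := by
    have := Int.natAbs_dvd_natAbs.2 e6
    rwa [Int.natAbs_mul, Int.natAbs_pow, Int.natAbs_natCast] at this
  have e8 : 0 < (f i).1.natAbs * ((i : ℤ) - i').natAbs :=
    Nat.mul_pos (Int.natAbs_pos.2 hf0) (Int.natAbs_pos.2 hdiff)
  have e9 := Nat.le_of_dvd e8 e7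
  have e10 : ((i : ℤ) - i').natAbs ≤ F.card := by omega
  have e11 : 2 ^ (J - 1) ≤ p ^ (J - 1) := Nat.pow_le_pow_left hp.two_le _
  have e12 : (f i).1.natAbs * ((i : ℤ) - i').natAbs ≤ (f i).1.natAbs * F.card :=
    Nat.mul_le_mul_left _ e10
  omega

/-- the number of prime factors of a number without small prime powers -/
theorem omega_le (T1 J M C S' R : ℕ) (hM : ∀ p : ℕ, p.Prime → p ≤ T1 → p ^ J ∣ M) (hM0 : M ≠ 0)
    (hR0 : R ≠ 0) (h1 : ∀ p : ℕ, p.Prime → p ≤ T1 → ¬ p ^ J ∣ R)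
    (h2 : ∀ q : ℕ, q.Prime → T1 < q → q ∣ R → S' ≤ q ^ C) (hS' : 2 ≤ S') (hR : R ≤ S' ^ 2) :
    cardFactors R ≤ cardFactors M + 2 * C := by
  have hg0 : Nat.gcd R M ≠ 0 := Nat.gcd_ne_zero_left hR0
  have hdvd : Nat.gcd R M ∣ R := Nat.gcd_dvd_left _ _
  have hmul : Nat.gcd R M * (R / Nat.gcd R M) = R := Nat.mul_div_cancel' hdvd
  have hq0 : R / Nat.gcd R M ≠ 0 := by
    intro h; rw [h, mul_zero] at hmul; exact hR0 hmul.symm
  have e1 : cardFactors R = cardFactors (Nat.gcd R M) + cardFactors (R / Nat.gcd R M) := by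
    conv_lhs => rw [← hmul]
    exact cardFactors_mul hg0 hq0
  have e2 : cardFactors (Nat.gcd R M) ≤ cardFactors M :=
    cardFactors_le_of_dvd (Nat.gcd_dvd_right _ _) hM0
  have e3 : cardFactors (R / Nat.gcd R M) ≤ 2 * C := by
    refine cardFactors_le S' C 2 hS' _ hq0 ?_ ((Nat.div_le_self _ _).trans hR)
    intro q hq hqd
    have hqR : q ∣ R := hqd.trans (Nat.div_dvd_of_dvd hdvd)
    by_cases hqT : q ≤ T1
    · exfalso
      have hv1 : R.factorization q < J := by
        by_contra hcon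
        push Not at hcon
        exact h1 q hq hqT ((hq.pow_dvd_iff_le_factorization hR0).2 hcon)
      have hv2 : J ≤ M.factorization q :=
        (hq.pow_dvd_iff_le_factorization hM0).1 (hM q hq hqT)
      have hv3 : (R / Nat.gcd R M).factorization q = 0 := by
        rw [Nat.factorization_div hdvd, Nat.factorization_gcd hR0 hM0]
        simp only [Finsupp.coe_tsub, Pi.sub_apply, Finsupp.inf_apply]
        omega
      have hv4 := (hq.dvd_iff_one_le_factorization hq0).1 hqd
      omega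
    · exact h2 q hq (by omega) hqR
  omega

/-- the linear forms in `a, N` of a system -/
def forms (S : Finset Edge) : Finset (ℤ × ℤ) :=
  S.image (fun e => ((1 : ℤ), (e.Y : ℤ))) ∪ S.image (fun e => (-(e.B : ℤ), (e.E : ℤ)))

theorem forms_card (S : Finset Edge) : (forms S).card ≤ 2 * S.card := by
  refine (card_union_le _ _).trans ?_
  have h1 := card_image_le (s := S) (f := fun e => ((1 : ℤ), (e.Y : ℤ)))
  have h2 := card_image_le (s := S) (f := fun e => (-(e.B : ℤ), (e.E : ℤ)))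
  omega

/-- a common bound -/
def bnd (S : Finset Edge) : ℕ := ∑ e ∈ S, (e.B + e.D) + 1

theorem forms_fst {S : Finset Edge} (hS : Good S) {f : ℤ × ℤ} (hf : f ∈ forms S) :
    f.1 ≠ 0 ∧ f.1.natAbs ≤ bnd S := by
  rw [forms, mem_union, mem_image, mem_image] at hf
  rcases hf with ⟨e, he, rfl⟩ | ⟨e, he, rfl⟩
  · refine ⟨one_ne_zero, ?_⟩
    simp only [Int.natAbs_one, bnd]
    omega
  · have hB := hS.B_pos e he
    have h1 : e.B + e.D ≤ ∑ e ∈ S, (e.B + e.D) :=
      single_le_sum (f := fun e : Edge => e.B + e.D) (fun _ _ => Nat.zero_le _) he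
    refine ⟨by simp; omega, ?_⟩
    simp only [Int.natAbs_neg, Int.natAbs_natCast, bnd]
    omega

theorem D_le_bnd {S : Finset Edge} {e : Edge} (he : e ∈ S) : e.D ≤ bnd S := by
  have h1 : e.B + e.D ≤ ∑ e ∈ S, (e.B + e.D) :=
    single_le_sum (f := fun e : Edge => e.B + e.D) (fun _ _ => Nat.zero_le _) he
  rw [bnd]; omega

/-- the modulus -/
def modu (T1 J : ℕ) : ℕ := ∏ p ∈ (range (T1 + 1)).filter Nat.Prime, p ^ J

theorem modu_ne_zero (T1 J : ℕ) : modu T1 J ≠ 0 := by
  rw [modu, prod_ne_zero_iff]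
  intro p hp
  exact pow_ne_zero _ (mem_filter.1 hp).2.ne_zero

theorem pow_dvd_modu (T1 J : ℕ) {p : ℕ} (hp : p.Prime) (h : p ≤ T1) : p ^ J ∣ modu T1 J := by
  apply dvd_prod_of_mem (fun p => p ^ J)
  exact mem_filter.2 ⟨mem_range.2 (by omega), hp⟩

theorem not_dvd_modu (T1 J : ℕ) {q : ℕ} (hq : q.Prime) (h : T1 < q) : ¬ q ∣ modu T1 J := by
  intro hd
  rw [modu, hq.prime.dvd_finsetProd_iff] at hd
  obtain ⟨p, hp, hd⟩ := hd
  rw [mem_filter, mem_range] at hp
  have := (Nat.prime_dvd_prime_iff_eq hq hp.2).1 (hq.dvd_of_dvd_pow hd)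
  omega

/-- the class `a0` modulo `M` -/
theorem exists_class {S : Finset Edge} (hS : Good S) (T1 J : ℕ) (hT1 : bnd S ≤ T1) (hJ : 1 ≤ J)
    (hJ2 : bnd S * (2 * S.card) < 2 ^ (J - 1)) (N : ℕ) :
    ∃ a0 : ℕ, ∀ a : ℕ, a ≡ a0 [MOD modu T1 J] →
      (∀ e ∈ S, e.D ∣ a + e.Y * N) ∧
      ∀ p : ℕ, p.Prime → p ≤ T1 → ∀ f ∈ forms S, ¬ ((p : ℤ) ^ J ∣ f.1 * a + f.2 * N) := by
  classical
  have hr : ∀ p : ℕ, ∃ r : ℕ, p.Prime → ∀ e ∈ S, p ∣ e.D → p ∣ r + e.Y * N := by
    intro p
    by_cases h : ∃ e ∈ S, p ∣ e.D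
    · obtain ⟨e, he, hpe⟩ := h
      refine ⟨(p - 1) * (e.Y * N), fun hp e' he' hpe' => ?_⟩
      have hee : e = e' := by
        by_contra hne
        have := hS.cop e he e' he' hne
        exact hp.one_lt.ne' (Nat.dvd_one.1 (this ▸ Nat.dvd_gcd hpe hpe'))
      subst hee
      have : (p - 1) * (e.Y * N) + e.Y * N = p * (e.Y * N) := by
        have hp1 := hp.one_lt
        obtain ⟨m, rfl⟩ : ∃ m, p = m + 1 := ⟨p - 1, by omega⟩
        simp only [Nat.add_sub_cancel]; ring
      rw [this]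
      exact dvd_mul_right _ _
    · push Not at h
      exact ⟨0, fun _ e he hpe => absurd hpe (h e he)⟩
  choose r hr using hr
  have ha : ∀ p : ℕ, ∃ a : ℕ, p.Prime → a ≡ r p [MOD p] ∧
      ∀ f ∈ forms S, ¬ ((p : ℤ) ^ J ∣ f.1 * a + f.2 * N) := by
    intro p
    by_cases hp : p.Prime
    · obtain ⟨a, h1, h2⟩ := exists_avoid p J hp hJ (forms S) N (r p) (fun f hf => by
        obtain ⟨h1, h2⟩ := forms_fst hS hf
        refine ⟨h1, lt_of_le_of_lt ?_ hJ2⟩
        exact Nat.mul_le_mul h2 (forms_card S))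
      exact ⟨a, fun _ => ⟨h1, h2⟩⟩
    · exact ⟨0, fun h => absurd h hp⟩
  choose a ha using ha
  obtain ⟨a0, ha0⟩ := Nat.chineseRemainderOfFinset a (fun p => p ^ J)
    ((range (T1 + 1)).filter Nat.Prime)
    (fun p hp => pow_ne_zero _ (mem_filter.1 hp).2.ne_zero)
    (fun p hp q hq hpq => Nat.Coprime.pow _ _ ((Nat.coprime_primes (mem_filter.1 hp).2
      (mem_filter.1 hq).2).2 hpq))
  refine ⟨a0, fun b hb => ?_⟩
  have hb2 : ∀ p : ℕ, p.Prime → p ≤ T1 → b ≡ a p [MOD p ^ J] := by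
    intro p hp hpT
    exact (hb.of_dvd (pow_dvd_modu T1 J hp hpT)).trans
      (ha0 p (mem_filter.2 ⟨mem_range.2 (by omega), hp⟩))
  refine ⟨fun e he => ?_, fun p hp hpT f hf hd => ?_⟩
  · have hsq := hS.sqf e he
    rw [← Nat.prod_primeFactors_of_squarefree hsq]
    apply Finset.prod_primes_dvd
    · intro p hp
      exact (Nat.prime_of_mem_primeFactors hp).prime
    · intro p hp
      have hpp := Nat.prime_of_mem_primeFactors hp
      have hpd := Nat.dvd_of_mem_primeFactors hp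
      have hD0 : e.D ≠ 0 := hsq.ne_zero
      have hpT : p ≤ T1 :=
        (Nat.le_of_dvd (Nat.pos_of_ne_zero hD0) hpd).trans ((D_le_bnd he).trans hT1)
      have h1 : b ≡ r p [MOD p] := by
        have h2 := hb2 p hpp hpT
        have h3 : p ∣ p ^ J := dvd_pow_self p (by omega)
        exact (h2.of_dvd h3).trans (ha p hpp).1
      have h4 : b + e.Y * N ≡ r p + e.Y * N [MOD p] := h1.add_right _
      exact (h4.dvd_iff dvd_rfl).2 (hr p hpp e he hpd)
  · apply (ha p hp).2 f hf
    have h1 := hb2 p hp hpT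
    have h2 : ((p : ℤ) ^ J) ∣ (a p : ℤ) - b := by
      have := (Nat.modEq_iff_dvd).1 h1
      rwa [Nat.cast_pow] at this
    have h3 : f.1 * (a p : ℤ) + f.2 * N = f.1 * b + f.2 * N + f.1 * ((a p : ℤ) - b) := by ring
    rw [h3]
    exact dvd_add hd (h2.mul_left _)

open scoped Classical in
/-- the sieve step -/
theorem sieve_step {S : Finset Edge} (hS : Good S) {C T S0 : ℕ}
    (H : SieveProp (2 * S.card) C T S0) (T1 J : ℕ) (hT1 : bnd S ≤ T1) (N c : ℕ) (X : ℕ)
    (hX : S0 ≤ X) :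
    (X : ℝ) / Real.log X ^ C ≤
      (((range X).filter (fun s => ∀ q : ℕ, q.Prime → T < q → q ^ C ≤ X →
        ¬ (T1 < q ∧ ∃ f ∈ forms S, (q : ℤ) ∣ f.1 * ((c + modu T1 J * s : ℕ) : ℤ) + f.2 * N))).card
          : ℕ) := by
  refine H (fun q s => T1 < q ∧ ∃ f ∈ forms S,
    (q : ℤ) ∣ f.1 * ((c + modu T1 J * s : ℕ) : ℤ) + f.2 * N) ?_ ?_ X hX
  · intro q s
    have key : ∀ f : ℤ × ℤ, ((q : ℤ) ∣ f.1 * ((c + modu T1 J * (s % q) : ℕ) : ℤ) + f.2 * N) ↔
        ((q : ℤ) ∣ f.1 * ((c + modu T1 J * s : ℕ) : ℤ) + f.2 * N) := by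
      intro f
      have h1 : f.1 * ((c + modu T1 J * s : ℕ) : ℤ) + f.2 * N =
          (q : ℤ) * (f.1 * modu T1 J * ((s / q : ℕ) : ℤ)) +
          (f.1 * ((c + modu T1 J * (s % q) : ℕ) : ℤ) + f.2 * N) := by
        have h2 : (s : ℤ) = (q : ℤ) * ((s / q : ℕ) : ℤ) + ((s % q : ℕ) : ℤ) := by
          exact_mod_cast (Nat.div_add_mod s q).symm
        have h3 : ((c + modu T1 J * s : ℕ) : ℤ) = c + modu T1 J * (s : ℤ) := by push_cast; ring
        have h4 : ((c + modu T1 J * (s % q) : ℕ) : ℤ) = c + modu T1 J * ((s % q : ℕ) : ℤ) := by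
          push_cast; ring
        rw [h3, h4, h2]; ring
      rw [h1]
      exact (dvd_add_right (dvd_mul_right _ _)).symm
    simp only [key]
  · intro q hq hT
    by_cases hqT : T1 < q
    · refine rho_le ((forms S).biUnion (fun f => (range q).filter (fun s =>
        (q : ℤ) ∣ f.1 * ((c + modu T1 J * s : ℕ) : ℤ) + f.2 * N))) ?_ ?_
      · intro s hs
        rintro ⟨_, f, hf, hd⟩
        rw [mem_biUnion]
        exact ⟨f, hf, mem_filter.2 ⟨mem_range.2 hs, hd⟩⟩
      · refine (card_biUnion_le_card_mul _ _ 1 ?_).trans ?_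
        · intro f hf
          rw [card_le_one]
          intro s hs s' hs'
          rw [mem_filter, mem_range] at hs hs'
          have h1 := dvd_sub hs.2 hs'.2
          have h2 : f.1 * ((c + modu T1 J * s : ℕ) : ℤ) + f.2 * N -
              (f.1 * ((c + modu T1 J * s' : ℕ) : ℤ) + f.2 * N) =
              f.1 * (modu T1 J * ((s : ℤ) - s')) := by push_cast; ring
          rw [h2] at h1
          have hqp : Prime (q : ℤ) := Nat.prime_iff_prime_int.1 hq
          obtain ⟨hf0, hfb⟩ := forms_fst hS hf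
          rcases hqp.dvd_or_dvd h1 with h3 | h3
          · exfalso
            have h4 : q ∣ f.1.natAbs := by
              have := Int.natAbs_dvd_natAbs.2 h3
              rwa [Int.natAbs_natCast] at this
            have h5 := Nat.le_of_dvd (Int.natAbs_pos.2 hf0) h4
            omega
          · rcases hqp.dvd_or_dvd h3 with h4 | h4
            · exfalso
              exact not_dvd_modu T1 J hq hqT (by exact_mod_cast h4)
            · have h5 : ((s : ℤ) - s') = 0 := by
                apply Int.eq_zero_of_abs_lt_dvd h4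
                rw [abs_lt]
                constructor <;> omega
              omega
        · rw [mul_one]
          exact forms_card S
    · refine rho_le ∅ ?_ (by simp)
      intro s _ hs
      exact absurd hs.1 hqT

/-- M4 -/
theorem exists_many (S : Finset Edge) (hS : Good S) :
    ∃ K C N0 : ℕ, ∀ N : ℕ, N0 ≤ N → ∃ A : Finset ℕ,
      (N : ℝ) / Real.log N ^ C ≤ A.card ∧
      ∀ a ∈ A, N ≤ 4 * a ∧ 2 * a ≤ N ∧ ∀ e ∈ S, e.D ∣ a + e.Y * N ∧
        cardFactors (a + e.Y * N) ≤ K ∧ cardFactors (e.E * N - e.B * a) ≤ K := by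
  classical
  obtain ⟨C, T, S0, hC1, H0⟩ := hooley (2 * S.card)
  have H : SieveProp (2 * S.card) C T S0 := H0
  set T1 := T + bnd S with hT1
  set J := bnd S * (2 * S.card) + 1 with hJ
  have hJ1 : 1 ≤ J := by omega
  have hJ2 : bnd S * (2 * S.card) < 2 ^ (J - 1) := by
    rw [hJ, Nat.add_sub_cancel]; exact Nat.lt_two_pow_self
  set M := modu T1 J with hM
  have hM0 : M ≠ 0 := modu_ne_zero T1 J
  have hMpos : 0 < M := Nat.pos_of_ne_zero hM0
  set W := ∑ e ∈ S, (e.E + e.Y) + 1 with hW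
  have hWe : ∀ e ∈ S, e.E + e.Y + 1 ≤ W := by
    intro e he
    have h1 : e.E + e.Y ≤ ∑ e ∈ S, (e.E + e.Y) :=
      single_le_sum (f := fun e : Edge => e.E + e.Y) (fun _ _ => Nat.zero_le _) he
    omega
  obtain ⟨N1, hN1⟩ := eventually_atTop.1
    ((Real.tendsto_log_atTop.comp tendsto_natCast_atTop_atTop).eventually_ge_atTop
      ((16 * M : ℕ) : ℝ))
  refine ⟨cardFactors M + 2 * C, C + 1, max N1 (8 * M * (S0 + 2) + 256 * M ^ 2 * W), ?_⟩
  intro N hN
  have hNa : N1 ≤ N := (le_max_left _ _).trans hN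
  have hNb : 8 * M * (S0 + 2) + 256 * M ^ 2 * W ≤ N := (le_max_right _ _).trans hN
  have hlog : ((16 * M : ℕ) : ℝ) ≤ Real.log N := hN1 N hNa
  obtain ⟨a0, ha0⟩ := exists_class hS T1 J (by omega) hJ1 hJ2 N
  set X := N / (8 * M) with hX
  have hX1 : S0 + 2 ≤ X := by
    rw [hX, Nat.le_div_iff_mul_le (by positivity)]
    nlinarith
  have hX2 : X * (8 * M) ≤ N := Nat.div_mul_le_self _ _
  have hX3 : N < (X + 1) * (8 * M) := by
    have := Nat.lt_mul_div_succ N (show 0 < 8 * M by positivity)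
    rw [mul_comm]; exact this
  have hX4 : N ≤ 16 * M * X := by
    have : (X + 1) * (8 * M) ≤ (2 * X) * (8 * M) := Nat.mul_le_mul_right _ (by omega)
    nlinarith
  set s0 := N / (4 * M) + 1 with hs0
  have hs1 : N < s0 * (4 * M) := by
    have := Nat.lt_mul_div_succ N (show 0 < 4 * M by positivity)
    rw [mul_comm]; exact this
  have hs2 : (N / (4 * M)) * (4 * M) ≤ N := Nat.div_mul_le_self _ _
  set c := a0 % M + M * s0 with hc
  have hsv := sieve_step hS H T1 J (by omega) N c X (by omega)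
  set G := (range X).filter (fun s => ∀ q : ℕ, q.Prime → T < q → q ^ C ≤ X →
        ¬ (T1 < q ∧ ∃ f ∈ forms S, (q : ℤ) ∣ f.1 * ((c + modu T1 J * s : ℕ) : ℤ) + f.2 * N))
    with hG
  have hinj : Function.Injective (fun s : ℕ => c + M * s) := by
    intro s s' h
    have h' : c + M * s = c + M * s' := h
    exact Nat.eq_of_mul_eq_mul_left hMpos (by omega)
  refine ⟨G.image (fun s => c + M * s), ?_, ?_⟩
  · rw [card_image_of_injective _ hinj]
    refine le_trans ?_ hsv
    have hXR : (2 : ℝ) ≤ X := by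
      have : 2 ≤ X := by omega
      exact_mod_cast this
    have hXN : (X : ℝ) ≤ N := by
      have : X ≤ N := Nat.div_le_self _ _
      exact_mod_cast this
    have hNR : (2 : ℝ) ≤ N := hXR.trans hXN
    have hlX : 0 < Real.log X := Real.log_pos (by linarith)
    have hlN : 0 < Real.log N := Real.log_pos (by linarith)
    have hlXN : Real.log X ≤ Real.log N := Real.log_le_log (by linarith) hXN
    have h1 : (N : ℝ) ≤ Real.log N * X := by
      have h2 : (N : ℝ) ≤ ((16 * M : ℕ) : ℝ) * X := by exact_mod_cast hX4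
      exact h2.trans (mul_le_mul_of_nonneg_right hlog (by linarith))
    rw [div_le_div_iff₀ (by positivity) (by positivity)]
    calc (N : ℝ) * Real.log X ^ C ≤ (Real.log N * X) * Real.log N ^ C := by
          apply mul_le_mul h1 (pow_le_pow_left₀ hlX.le hlXN C) (by positivity) (by positivity)
      _ = X * Real.log N ^ (C + 1) := by ring
  · intro a ha
    obtain ⟨s, hs, rfl⟩ := mem_image.1 ha
    rw [hG, mem_filter, mem_range] at hs
    obtain ⟨hsX, hsq⟩ := hs
    have hr : a0 % M < M := Nat.mod_lt _ hMpos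
    have hMs : M * s + M ≤ M * X := by
      have : s + 1 ≤ X := hsX
      nlinarith
    have hs1' : N < 4 * (M * s0) := by
      have : s0 * (4 * M) = 4 * (M * s0) := by ring
      omega
    have hlow : N ≤ 4 * (c + M * s) := by
      rw [hc]; omega
    have h16 : 16 * M ≤ N := by
      have h1 : 8 * M * (S0 + 2) = 8 * (M * S0) + 16 * M := by ring
      omega
    have hup : 2 * (c + M * s) ≤ N := by
      have h1 : 4 * (M * s0) ≤ N + 4 * M := by
        have : 4 * (M * s0) = (N / (4 * M)) * (4 * M) + 4 * M := by rw [hs0]; ring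
        omega
      have h2 : 8 * (M * X) ≤ N := by
        have : X * (8 * M) = 8 * (M * X) := by ring
        omega
      rw [hc]; omega
    refine ⟨hlow, hup, fun e he => ?_⟩
    have hmod : c + M * s ≡ a0 [MOD modu T1 J] := by
      rw [← hM, hc]
      have h1 : a0 % M + M * s0 + M * s = a0 % M + M * (s0 + s) := by ring
      rw [h1]
      have h2 : a0 % M + M * (s0 + s) ≡ a0 % M [MOD M] := by
        simp [Nat.ModEq]
      exact h2.trans (Nat.mod_modEq _ _)
    obtain ⟨hD, hav⟩ := ha0 _ hmod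
    have hN0 : 0 < N := by omega
    have hsize : W * N ≤ X ^ 2 := by
      have h1 : 256 * M ^ 2 * W ≤ N := by nlinarith
      have h2 : 256 * M ^ 2 * (W * N) ≤ 256 * M ^ 2 * X ^ 2 := by
        calc 256 * M ^ 2 * (W * N) = (256 * M ^ 2 * W) * N := by ring
          _ ≤ N * N := Nat.mul_le_mul_right _ h1
          _ ≤ (16 * M * X) * (16 * M * X) := Nat.mul_le_mul hX4 hX4
          _ = 256 * M ^ 2 * X ^ 2 := by ring
      exact Nat.le_of_mul_le_mul_left h2 (by positivity)
    -- the bound for one node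
    have key : ∀ (R : ℕ) (f : ℤ × ℤ), f ∈ forms S → (R : ℤ) = f.1 * ((c + M * s : ℕ) : ℤ) + f.2 * N →
        R ≠ 0 → R ≤ W * N → cardFactors R ≤ cardFactors M + 2 * C := by
      intro R f hf hRf hR0 hRW
      refine omega_le T1 J M C X R (fun p hp h => pow_dvd_modu T1 J hp h) hM0 hR0 ?_ ?_ (by omega)
        (hRW.trans hsize)
      · intro p hp hpT hd
        apply hav p hp hpT f hf
        rw [← hRf]
        exact_mod_cast hd
      · intro q hq hqT hqR
        by_contra hcon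
        push Not at hcon
        apply hsq q hq (by omega) hcon.le
        refine ⟨hqT, f, hf, ?_⟩
        rw [← hM, ← hRf]
        exact_mod_cast hqR
    refine ⟨hD e he, ?_, ?_⟩
    · refine key _ ((1 : ℤ), (e.Y : ℤ)) ?_ ?_ ?_ ?_
      · exact mem_union_left _ (mem_image.2 ⟨e, he, rfl⟩)
      · push_cast; ring
      · intro h
        have : c + M * s = 0 := by omega
        omega
      · have h1 := hWe e he
        calc c + M * s + e.Y * N ≤ N + e.Y * N := by omega
          _ ≤ (e.E + e.Y + 1) * N := by nlinarith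
          _ ≤ W * N := Nat.mul_le_mul_right _ h1
    · have hBE := hS.E_ge e he
      have hB := hS.B_pos e he
      have hle : e.B * (c + M * s) * 2 ≤ e.E * N := by
        calc e.B * (c + M * s) * 2 = e.B * (2 * (c + M * s)) := by ring
          _ ≤ e.E * N := Nat.mul_le_mul hBE hup
      have hpos : 0 < e.E * N := Nat.mul_pos (by omega) hN0
      refine key _ (-(e.B : ℤ), (e.E : ℤ)) ?_ ?_ ?_ ?_
      · exact mem_union_right _ (mem_image.2 ⟨e, he, rfl⟩)
      · rw [Nat.cast_sub (by omega)]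
        push_cast; ring
      · omega
      · have h1 := hWe e he
        calc e.E * N - e.B * (c + M * s) ≤ e.E * N := Nat.sub_le _ _
          _ ≤ (e.E + e.Y + 1) * N := by nlinarith
          _ ≤ W * N := Nat.mul_le_mul_right _ h1

end Pool.Agent.GA
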