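import Mathlib
import Pool.Agent.GA.Local
import Pool.Agent.GA.Count
import Pool.Agent.GA.Many

set_option autoImplicit false

/-!
# Pairs of almost primes with sum `N` in every class
-/

namespace Pool.Agent.GA

open Finset ArithmeticFunction

theorem main (k : ℕ) (hk : 0 < k) (m : ℕ) (hm : 0 < m) (p0 : ℕ) :
    ∃ z K N0 : ℕ, ∀ N : ℕ, N0 ≤ N → ∀ g : ℕ → ZMod k,
      (∀ u v : ℕ, u ≠ 0 → v ≠ 0 → g (u * v) = g u + g v) →
      (∀ p : ℕ, p.Prime → p0 ≤ p → p ≤ z → p ≡ 1 [MOD m] → g p = 1) →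
      ∃ t : ZMod k, ∀ s : ZMod k,
      (N : ℝ) / Real.log N ^ K ≤ ((range N).filter (fun a => N < a ^ 2 ∧ 2 * a ≤ N ∧
        cardFactors a ≤ K ∧ cardFactors (N - a) ≤ K ∧ g a + g (N - a) = t + 2 * s)).card := by
  classical
  obtain ⟨S, z, hS, hstar⟩ := exists_star k m p0 hk hm
  obtain ⟨K, C, N1, hmany⟩ := exists_many S hS
  obtain ⟨W, hW⟩ : ∃ W, W = K + ∑ e ∈ S, cardFactors e.B := ⟨_, rfl⟩
  obtain ⟨V, hV⟩ : ∃ V : ℕ, V = ∑ e ∈ S, 16 * e.D ^ 2 := ⟨_, rfl⟩
  obtain ⟨N2, hN2⟩ : ∃ N2 : ℕ, ∀ N : ℕ, N2 ≤ N → ((S.card * 4 + 1 : ℕ) : ℝ) ≤ Real.log N := by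
    have h := (Real.tendsto_log_atTop.comp tendsto_natCast_atTop_atTop).eventually_ge_atTop
      ((S.card * 4 + 1 : ℕ) : ℝ)
    obtain ⟨N2, hN2⟩ := Filter.eventually_atTop.1 h
    exact ⟨N2, fun N hN => hN2 N hN⟩
  refine ⟨z, W + C + 1, max (max N1 (V + 2)) N2, ?_⟩
  intro N hN g hg hgp
  have hNa : N1 ≤ N := ((le_max_left _ _).trans (le_max_left _ _)).trans hN
  have hNb : V + 2 ≤ N := ((le_max_right _ _).trans (le_max_left _ _)).trans hN
  have hNc : N2 ≤ N := (le_max_right _ _).trans hN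
  obtain ⟨A, hAcard, hA⟩ := hmany N hNa
  have hL := hN2 N hNc
  have hL1 : (1 : ℝ) ≤ Real.log N := by
    refine le_trans ?_ hL
    push_cast
    have : (0 : ℝ) ≤ S.card := Nat.cast_nonneg _
    linarith
  obtain ⟨t, ht⟩ := count_class (K := K) hk hS (fun n => cardFactors n) (fun _ _ hm hn => cardFactors_mul hm hn) g hg A hA (hstar g hg hgp)
    (by
      intro e he
      have h1 : 16 * e.D ^ 2 ≤ V := by
        rw [hV]
        exact single_le_sum (f := fun e : Edge => 16 * e.D ^ 2) (fun _ _ => Nat.zero_le _) he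
      omega) (by omega)
  refine ⟨t, ?_⟩
  intro s
  have h1 := ht s
  rw [← hW] at h1
  obtain ⟨G, hG⟩ : ∃ G, G = ((range N).filter (fun a => N < a ^ 2 ∧ 2 * a ≤ N ∧
      cardFactors a ≤ W ∧ cardFactors (N - a) ≤ W ∧ g a + g (N - a) = t + 2 * s)) := ⟨_, rfl⟩
  rw [← hG] at h1
  have hsub : G ⊆ ((range N).filter (fun a => N < a ^ 2 ∧ 2 * a ≤ N ∧
        cardFactors a ≤ W + C + 1 ∧ cardFactors (N - a) ≤ W + C + 1 ∧
        g a + g (N - a) = t + 2 * s)) := by
    intro a ha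
    rw [hG, mem_filter] at ha
    rw [mem_filter]
    obtain ⟨h2, h3, h4, h5, h6, h7⟩ := ha
    exact ⟨h2, h3, h4, by omega, by omega, h7⟩
  have h2 : (G.card : ℝ) ≤ (((range N).filter (fun a => N < a ^ 2 ∧ 2 * a ≤ N ∧
        cardFactors a ≤ W + C + 1 ∧ cardFactors (N - a) ≤ W + C + 1 ∧
        g a + g (N - a) = t + 2 * s)).card : ℝ) := by
    exact_mod_cast card_le_card hsub
  refine le_trans ?_ h2
  have h3 : (A.card : ℝ) ≤ (S.card * 4 : ℕ) * G.card := by exact_mod_cast h1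
  have h4 : (N : ℝ) / Real.log N ^ C ≤ Real.log N * G.card := by
    refine hAcard.trans (h3.trans ?_)
    have h5 : (0 : ℝ) ≤ G.card := Nat.cast_nonneg _
    apply mul_le_mul_of_nonneg_right _ h5
    refine le_trans ?_ hL
    push_cast
    linarith
  have hLp : 0 < Real.log N := by linarith
  have hNp : (0 : ℝ) ≤ N := Nat.cast_nonneg _
  calc (N : ℝ) / Real.log N ^ (W + C + 1) ≤ N / Real.log N ^ (C + 1) := by
        apply div_le_div_of_nonneg_left hNp (by positivity)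
        apply pow_le_pow_right₀ hL1
        omega
    _ = (N / Real.log N ^ C) / Real.log N := by
        rw [pow_succ, div_div]
    _ ≤ (Real.log N * G.card) / Real.log N := by gcongr
    _ = G.card := by field_simp

end Pool.Agent.GA
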