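import Mathlib
import Pool.Agent.GA.Defs

set_option autoImplicit false

/-!
# The number of prime factors `≤ y`, counted with multiplicity
-/

namespace Pool.Agent.GA

/-- the number of prime factors `≤ y` of `n`, counted with multiplicity -/
def omY (y n : ℕ) : ℕ := (n.primeFactorsList.filter (fun p => decide (p ≤ y))).length

theorem omY_mul (y : ℕ) {m n : ℕ} (hm : m ≠ 0) (hn : n ≠ 0) : omY y (m * n) = omY y m + omY y n := by
  have h := Nat.perm_primeFactorsList_mul hm hn
  rw [omY, omY, omY, (h.filter _).length_eq, List.filter_append, List.length_append]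

theorem omY_le (y n : ℕ) : omY y n ≤ ArithmeticFunction.cardFactors n := by
  rw [omY, ArithmeticFunction.cardFactors_apply]
  exact List.length_filter_le _ _

theorem omY_eq {y n : ℕ} (h : ∀ p : ℕ, p.Prime → p ∣ n → p ≤ y) :
    omY y n = ArithmeticFunction.cardFactors n := by
  rw [omY, ArithmeticFunction.cardFactors_apply]
  rcases Nat.eq_zero_or_pos n with h0 | h0
  · subst h0; simp
  · congr 1
    rw [List.filter_eq_self]
    intro p hp
    have h1 := Nat.prime_of_mem_primeFactorsList hp
    have h2 := Nat.dvd_of_mem_primeFactorsList hp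
    simpa using h p h1 h2

end Pool.Agent.GA
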