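import Mathlib
import Pool.Agent.GA.Defs
import Pool.Agent.GA.OmY
import Pool.Agent.GA.Many
import Pool.Agent.H6.Hooley

set_option autoImplicit false

/-!
# M4y: many `a` all of whose nodes have boundedly many prime factors `≤ y`
-/

namespace Pool.Agent.GA

open Finset ArithmeticFunction Filter
open Pool.Agent.H6.Hooley Pool.Agent.H6.AP3

open scoped Classical in
/-- the sieve with sifting limit `y`, as a property of its constants -/
def SieveY (κ C K T S0 : ℕ) : Prop := ∀ bad : ℕ → ℕ → Prop, Per bad →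
    (∀ q : ℕ, q.Prime → T < q → rho bad q ≤ κ) → ∀ S : ℕ, S0 ≤ S → ∀ y : ℕ, 3 ≤ y →
    (S : ℝ) / (K * Real.log y ^ C) ≤
      (((range S).filter (fun s => ∀ q : ℕ, q.Prime → T < q → q ≤ y → q ^ C ≤ S →
        ¬ bad q s)).card : ℕ)

theorem one_le_log_three : (1 : ℝ) ≤ Real.log 3 := by
  rw [Real.le_log_iff_exp_le (by norm_num)]
  have := Real.exp_one_lt_d9
  linarith

open scoped Classical in
/-- Brun-Hooley sieve with a sifting limit `y` -/
theorem hooleyY (κ : ℕ) : ∃ C K T S0 : ℕ, 1 ≤ C ∧ 1 ≤ K ∧ SieveY κ C K T S0 := by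
  obtain ⟨k, hk⟩ : ∃ k, k = κ + 1 := ⟨_, rfl⟩
  obtain ⟨A, lam0, lam1, hA, hlam0, H⟩ := hooley_real k (by omega)
  have hk1 : (1 : ℝ) ≤ k := by rw [hk]; push_cast; linarith [Nat.cast_nonneg (α := ℝ) κ]
  obtain ⟨C, hC⟩ : ∃ C : ℕ, C = ⌈2 * A⌉₊ + (4 * k + 1) := ⟨_, rfl⟩
  have hC2 : 2 * A ≤ C := by
    rw [hC]; push_cast
    have := Nat.le_ceil (2 * A)
    linarith
  have hC1 : (1 : ℝ) ≤ C := by linarith
  have hC0 : (0 : ℝ) < C := by linarith
  obtain ⟨K, hK⟩ : ∃ K : ℕ, K = ⌈4 * lam0 ^ (4 * k)⌉₊ := ⟨_, rfl⟩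
  have hK1 : 4 * lam0 ^ (4 * k) ≤ K := by rw [hK]; exact Nat.le_ceil _
  have hlp : 1 ≤ lam0 ^ (4 * k) := one_le_pow₀ hlam0
  have hK2 : (1 : ℝ) ≤ K := by linarith
  have hev : ∀ᶠ S : ℕ in Filter.atTop, (36 * k * Real.log S ^ (4 * k) ≤ √(S : ℝ)) ∧
      max 4 (C * lam0) ≤ Real.log S ∧ 1 ≤ S := by
    refine (log_ev (4 * k) (36 * k) (by positivity)).and
      (Filter.Eventually.and ?_ (Filter.eventually_ge_atTop 1))
    exact (Real.tendsto_log_atTop.comp tendsto_natCast_atTop_atTop).eventually_ge_atTop _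
  obtain ⟨S0, hS0⟩ := Filter.eventually_atTop.1 hev
  refine ⟨C, K, ⌈Real.exp lam1⌉₊, S0, by omega, by exact_mod_cast hK2, ?_⟩
  intro bad hper hrho S hS y hy
  obtain ⟨h1, h2, h3⟩ := hS0 S hS
  have hS1 : (1 : ℝ) ≤ S := by exact_mod_cast h3
  have hSp : (0 : ℝ) < S := by linarith
  have hyR : (3 : ℝ) ≤ y := by exact_mod_cast hy
  have hly : 1 ≤ Real.log y := one_le_log_three.trans (Real.log_le_log (by norm_num) hyR)
  obtain ⟨L, hL⟩ : ∃ L, L = Real.log S := ⟨_, rfl⟩
  rw [← hL] at h1 h2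
  have hL4 : 4 ≤ L := (le_max_left _ _).trans h2
  have hLl : C * lam0 ≤ L := (le_max_right _ _).trans h2
  have hLp : 0 < L := by linarith
  obtain ⟨T, hT⟩ : ∃ T, T = ⌈Real.exp lam1⌉₊ := ⟨_, rfl⟩
  rw [← hT] at hrho ⊢
  have hTe : Real.exp lam1 ≤ T := by rw [hT]; exact Nat.le_ceil _
  obtain ⟨bad', hbad'⟩ : ∃ bad' : ℕ → ℕ → Prop, bad' = fun q s => bad q s ∧ T < q := ⟨_, rfl⟩
  have hper' : Per bad' := by
    intro q s
    rw [hbad']
    simp only [hper q s]
  have hrho' : ∀ q : ℕ, q.Prime → rho bad' q ≤ k := by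
    intro q hq
    rcases Nat.lt_or_ge T q with h | h
    · have h4 : rho bad' q ≤ rho bad q := by
        apply card_le_card
        intro s hs
        rw [mem_filter] at hs ⊢
        rw [hbad'] at hs
        exact ⟨hs.1, hs.2.1⟩
      have := hrho q hq h
      omega
    · have h4 : rho bad' q = 0 := by
        rw [rho, card_eq_zero, filter_eq_empty_iff]
        intro s _ hs
        rw [hbad'] at hs
        have := hs.2
        omega
      omega
  obtain ⟨lam, hlam⟩ : ∃ lam, lam = max lam0 (min (Real.log y) (L / C)) := ⟨_, rfl⟩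
  have hlam0' : lam0 ≤ lam := by rw [hlam]; exact le_max_left _ _
  have hLC : lam0 ≤ L / C := by rw [le_div_iff₀ hC0]; linarith
  have hlamLC : lam ≤ L / C := by
    rw [hlam]; exact max_le hLC (min_le_right _ _)
  have hlamy : lam ≤ lam0 * Real.log y := by
    rw [hlam]
    apply max_le
    · nlinarith
    · refine (min_le_left _ _).trans ?_
      nlinarith
  have hlamL : lam ≤ L := by
    refine hlamLC.trans ?_
    rw [div_le_iff₀ hC0]
    nlinarith
  obtain ⟨F, hF1, hF2, hF3⟩ := H bad' hper' hrho' S lam hlam0'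
  have hcount : ∑ s ∈ range S, F s ≤
      (((range S).filter (fun s => ∀ q : ℕ, q.Prime → T < q → q ≤ y → q ^ C ≤ S →
        ¬ bad q s)).card : ℕ) := by
    rw [card_filter]
    push_cast
    apply sum_le_sum
    intro s _
    split_ifs with hs
    · rcases hF1 s with h | h
      · rw [h]; norm_num
      · rw [h]
    · rcases hF1 s with h | h
      · rw [h]
      · exfalso
        apply hs
        intro q hq hTq hqy hqS hb
        have hq0 : (0 : ℝ) < q := by exact_mod_cast hq.pos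
        refine hF2 s h q hq ?_ ?_ (by rw [hbad']; exact ⟨hb, hTq⟩)
        · rw [Real.lt_log_iff_exp_lt hq0]
          have : (T : ℝ) < q := by exact_mod_cast hTq
          linarith
        · rw [hlam]
          refine le_trans ?_ (le_max_right _ _)
          apply le_min
          · exact Real.log_le_log hq0 (by exact_mod_cast hqy)
          · rw [le_div_iff₀ hC0, hL]
            have h5 : ((q : ℝ)) ^ C ≤ S := by exact_mod_cast hqS
            have h6 := Real.log_le_log (by positivity) h5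
            rw [Real.log_pow] at h6
            linarith
  refine le_trans ?_ hcount
  refine le_trans ?_ hF3
  have hlamp : 0 < lam := by linarith
  have e2 : Real.exp (A * lam) ≤ √(S : ℝ) := by
    have h7 : √(S : ℝ) = Real.exp (L / 2) := by
      rw [Real.sqrt_eq_rpow, Real.rpow_def_of_pos hSp, hL]; congr 1; ring
    rw [h7]
    apply Real.exp_le_exp.2
    calc A * lam ≤ A * (L / C) := by gcongr
      _ ≤ L / 2 := by
        rw [mul_div_assoc', div_le_div_iff₀ hC0 two_pos]
        nlinarith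
  have e3 : √(S : ℝ) * √(S : ℝ) = S := Real.mul_self_sqrt hSp.le
  have e5 : 9 * k * √(S : ℝ) ≤ S / (lam ^ (4 * k) * 4) := by
    rw [le_div_iff₀ (by positivity)]
    calc 9 * k * √(S : ℝ) * (lam ^ (4 * k) * 4) = (36 * k * lam ^ (4 * k)) * √(S : ℝ) := by ring
      _ ≤ (36 * k * L ^ (4 * k)) * √(S : ℝ) := by gcongr
      _ ≤ √(S : ℝ) * √(S : ℝ) := by gcongr
      _ = S := e3
  have e6 : (S : ℝ) * ((1 / lam) ^ (4 * k) / 2) =
      S / (lam ^ (4 * k) * 4) + S / (lam ^ (4 * k) * 4) := by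
    rw [one_div_pow]
    field_simp; ring
  have e7 : (S : ℝ) / (K * Real.log y ^ C) ≤ S / (lam ^ (4 * k) * 4) := by
    apply div_le_div_of_nonneg_left hSp.le (by positivity)
    calc lam ^ (4 * k) * 4 ≤ (lam0 * Real.log y) ^ (4 * k) * 4 := by gcongr
      _ = (4 * lam0 ^ (4 * k)) * Real.log y ^ (4 * k) := by ring
      _ ≤ K * Real.log y ^ (4 * k) := by gcongr
      _ ≤ K * Real.log y ^ C := by
          have : 4 * k ≤ C := by omega
          gcongr
  calc (S : ℝ) / (K * Real.log y ^ C) ≤ S / (lam ^ (4 * k) * 4) := e7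
    _ = S / (lam ^ (4 * k) * 4) + S / (lam ^ (4 * k) * 4) - S / (lam ^ (4 * k) * 4) := by ring
    _ ≤ S / (lam ^ (4 * k) * 4) + S / (lam ^ (4 * k) * 4) - 9 * k * √(S : ℝ) := by gcongr
    _ = S * ((1 / lam) ^ (4 * k) / 2) - 9 * k * √(S : ℝ) := by rw [e6]
    _ ≤ S * ((1 / lam) ^ (4 * k) / 2) - 9 * k * Real.exp (A * lam) := by gcongr

theorem pow_length_le (S C : ℕ) (l : List ℕ) (h : ∀ q ∈ l, S ≤ q ^ C) :
    S ^ l.length ≤ l.prod ^ C := by
  induction l with
  | nil => simp
  | cons a l ih =>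
    rw [List.length_cons, List.prod_cons, pow_succ', mul_pow]
    exact Nat.mul_le_mul (h a List.mem_cons_self) (ih fun q hq => h q (List.mem_cons_of_mem _ hq))

theorem omY_le_of_large (y S C e n : ℕ) (hn : n ≠ 0) (hS : 2 ≤ S)
    (h : ∀ q : ℕ, q.Prime → q ≤ y → q ∣ n → S ≤ q ^ C) (hnS : n ≤ S ^ e) : omY y n ≤ e * C := by
  set l := n.primeFactorsList.filter (fun p => decide (p ≤ y)) with hl
  have h1 : S ^ l.length ≤ l.prod ^ C := by
    apply pow_length_le
    intro q hq
    rw [hl, List.mem_filter] at hq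
    exact h q (Nat.prime_of_mem_primeFactorsList hq.1) (by simpa using hq.2)
      (Nat.dvd_of_mem_primeFactorsList hq.1)
  have h2 : l.prod ∣ n := by
    have h3 : l.prod ∣ n.primeFactorsList.prod := (List.filter_sublist).prod_dvd_prod
    rwa [Nat.prod_primeFactorsList hn] at h3
  have h3 : l.prod ≤ n := Nat.le_of_dvd (Nat.pos_of_ne_zero hn) h2
  have h4 : S ^ l.length ≤ S ^ (e * C) := by
    refine h1.trans ((Nat.pow_le_pow_left (h3.trans hnS) C).trans ?_)
    rw [← pow_mul]
  exact (Nat.pow_le_pow_iff_right (by omega)).1 h4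

/-- the number of prime factors of a number without small prime powers -/
theorem omY_le_node (y T1 J M C S' R : ℕ) (hM : ∀ p : ℕ, p.Prime → p ≤ T1 → p ^ J ∣ M)
    (hM0 : M ≠ 0) (hR0 : R ≠ 0) (h1 : ∀ p : ℕ, p.Prime → p ≤ T1 → ¬ p ^ J ∣ R)
    (h2 : ∀ q : ℕ, q.Prime → T1 < q → q ≤ y → q ∣ R → S' ≤ q ^ C) (hS' : 2 ≤ S')
    (hR : R ≤ S' ^ 2) : omY y R ≤ cardFactors M + 2 * C := by
  have hg0 : Nat.gcd R M ≠ 0 := Nat.gcd_ne_zero_left hR0
  have hdvd : Nat.gcd R M ∣ R := Nat.gcd_dvd_left _ _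
  have hmul : Nat.gcd R M * (R / Nat.gcd R M) = R := Nat.mul_div_cancel' hdvd
  have hq0 : R / Nat.gcd R M ≠ 0 := by
    intro h; rw [h, mul_zero] at hmul; exact hR0 hmul.symm
  have e1 : omY y R = omY y (Nat.gcd R M) + omY y (R / Nat.gcd R M) := by
    conv_lhs => rw [← hmul]
    exact omY_mul y hg0 hq0
  have e2 : omY y (Nat.gcd R M) ≤ cardFactors M :=
    (omY_le y _).trans (cardFactors_le_of_dvd (Nat.gcd_dvd_right _ _) hM0)
  have e3 : omY y (R / Nat.gcd R M) ≤ 2 * C := by
    refine omY_le_of_large y S' C 2 _ hq0 hS' ?_ ((Nat.div_le_self _ _).trans hR)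
    intro q hq hqy hqd
    have hqR : q ∣ R := hqd.trans (Nat.div_dvd_of_dvd hdvd)
    by_cases hqT : q ≤ T1
    · exfalso
      have hv1 : R.factorization q < J := by
        by_contra hcon
        push Not at hcon
        exact h1 q hq hqT ((hq.pow_dvd_iff_le_factorization hR0).2 hcon)
      have hv2 : J ≤ M.factorization q :=
        (hq.pow_dvd_iff_le_factorization hM0).1 (hM q hq hqT)
      have hv3 : (R / Nat.gcd R M).factorization q = 0 := by
        rw [Nat.factorization_div hdvd, Nat.factorization_gcd hR0 hM0]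
        simp only [Finsupp.coe_tsub, Pi.sub_apply, Finsupp.inf_apply]
        omega
      have hv4 := (hq.dvd_iff_one_le_factorization hq0).1 hqd
      omega
    · exact h2 q hq (by omega) hqy hqR
  omega

open scoped Classical in
/-- the sieve step -/
theorem sieve_stepY {S : Finset Edge} (hS : Good S) {C K T S0 : ℕ}
    (H : SieveY (2 * S.card) C K T S0) (T1 J : ℕ) (hT1 : bnd S ≤ T1) (N c : ℕ) (X : ℕ)
    (hX : S0 ≤ X) (y : ℕ) (hy : 3 ≤ y) :
    (X : ℝ) / (K * Real.log y ^ C) ≤
      (((range X).filter (fun s => ∀ q : ℕ, q.Prime → T < q → q ≤ y → q ^ C ≤ X →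
        ¬ (T1 < q ∧ ∃ f ∈ forms S, (q : ℤ) ∣ f.1 * ((c + modu T1 J * s : ℕ) : ℤ) + f.2 * N))).card
          : ℕ) := by
  refine H (fun q s => T1 < q ∧ ∃ f ∈ forms S,
    (q : ℤ) ∣ f.1 * ((c + modu T1 J * s : ℕ) : ℤ) + f.2 * N) ?_ ?_ X hX y hy
  · intro q s
    have key : ∀ f : ℤ × ℤ, ((q : ℤ) ∣ f.1 * ((c + modu T1 J * (s % q) : ℕ) : ℤ) + f.2 * N) ↔
        ((q : ℤ) ∣ f.1 * ((c + modu T1 J * s : ℕ) : ℤ) + f.2 * N) := by
      intro f
      have h1 : f.1 * ((c + modu T1 J * s : ℕ) : ℤ) + f.2 * N =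
          (q : ℤ) * (f.1 * modu T1 J * ((s / q : ℕ) : ℤ)) +
          (f.1 * ((c + modu T1 J * (s % q) : ℕ) : ℤ) + f.2 * N) := by
        have h2 : (s : ℤ) = (q : ℤ) * ((s / q : ℕ) : ℤ) + ((s % q : ℕ) : ℤ) := by
          exact_mod_cast (Nat.div_add_mod s q).symm
        have h3 : ((c + modu T1 J * s : ℕ) : ℤ) = c + modu T1 J * (s : ℤ) := by push_cast; ring
        have h4 : ((c + modu T1 J * (s % q) : ℕ) : ℤ) = c + modu T1 J * ((s % q : ℕ) : ℤ) := by
          push_cast; ring
        rw [h3, h4, h2]; ring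
      rw [h1]
      exact (dvd_add_right (dvd_mul_right _ _)).symm
    simp only [key]
  · intro q hq hT
    by_cases hqT : T1 < q
    · refine rho_le ((forms S).biUnion (fun f => (range q).filter (fun s =>
        (q : ℤ) ∣ f.1 * ((c + modu T1 J * s : ℕ) : ℤ) + f.2 * N))) ?_ ?_
      · intro s hs
        rintro ⟨_, f, hf, hd⟩
        rw [mem_biUnion]
        exact ⟨f, hf, mem_filter.2 ⟨mem_range.2 hs, hd⟩⟩
      · refine (card_biUnion_le_card_mul _ _ 1 ?_).trans ?_
        · intro f hf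
          rw [card_le_one]
          intro s hs s' hs'
          rw [mem_filter, mem_range] at hs hs'
          have h1 := dvd_sub hs.2 hs'.2
          have h2 : f.1 * ((c + modu T1 J * s : ℕ) : ℤ) + f.2 * N -
              (f.1 * ((c + modu T1 J * s' : ℕ) : ℤ) + f.2 * N) =
              f.1 * (modu T1 J * ((s : ℤ) - s')) := by push_cast; ring
          rw [h2] at h1
          have hqp : Prime (q : ℤ) := Nat.prime_iff_prime_int.1 hq
          obtain ⟨hf0, hfb⟩ := forms_fst hS hf
          rcases hqp.dvd_or_dvd h1 with h3 | h3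
          · exfalso
            have h4 : q ∣ f.1.natAbs := by
              have := Int.natAbs_dvd_natAbs.2 h3
              rwa [Int.natAbs_natCast] at this
            have h5 := Nat.le_of_dvd (Int.natAbs_pos.2 hf0) h4
            omega
          · rcases hqp.dvd_or_dvd h3 with h4 | h4
            · exfalso
              exact not_dvd_modu T1 J hq hqT (by exact_mod_cast h4)
            · have h5 : ((s : ℤ) - s') = 0 := by
                apply Int.eq_zero_of_abs_lt_dvd h4
                rw [abs_lt]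
                constructor <;> omega
              omega
        · rw [mul_one]
          exact forms_card S
    · refine rho_le ∅ ?_ (by simp)
      intro s _ hs
      exact absurd hs.1 hqT

/-- M4y -/
theorem exists_many_y (S : Finset Edge) (hS : Good S) :
    ∃ K C N0 : ℕ, 0 < K ∧ ∀ N : ℕ, N0 ≤ N → ∀ y : ℕ, 3 ≤ y → y ≤ N → ∃ A : Finset ℕ,
      (N : ℝ) / (K * Real.log y ^ C) ≤ A.card ∧
      ∀ a ∈ A, N ≤ 4 * a ∧ 2 * a ≤ N ∧ ∀ e ∈ S, e.D ∣ a + e.Y * N ∧
        omY y (a + e.Y * N) ≤ K ∧ omY y (e.E * N - e.B * a) ≤ K := by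
  classical
  obtain ⟨C, K0, T, S0, hC1, hK0, H⟩ := hooleyY (2 * S.card)
  set T1 := T + bnd S with hT1
  set J := bnd S * (2 * S.card) + 1 with hJ
  have hJ1 : 1 ≤ J := by omega
  have hJ2 : bnd S * (2 * S.card) < 2 ^ (J - 1) := by
    rw [hJ, Nat.add_sub_cancel]; exact Nat.lt_two_pow_self
  set M := modu T1 J with hM
  have hM0 : M ≠ 0 := modu_ne_zero T1 J
  have hMpos : 0 < M := Nat.pos_of_ne_zero hM0
  set W := ∑ e ∈ S, (e.E + e.Y) + 1 with hW
  have hWe : ∀ e ∈ S, e.E + e.Y + 1 ≤ W := by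
    intro e he
    have h1 : e.E + e.Y ≤ ∑ e ∈ S, (e.E + e.Y) :=
      single_le_sum (f := fun e : Edge => e.E + e.Y) (fun _ _ => Nat.zero_le _) he
    omega
  have hMK : 0 < 16 * M * K0 := by positivity
  refine ⟨cardFactors M + 2 * C + 16 * M * K0, C, 8 * M * (S0 + 2) + 256 * M ^ 2 * W,
    by omega, ?_⟩
  intro N hNb y hy _
  obtain ⟨a0, ha0⟩ := exists_class hS T1 J (by omega) hJ1 hJ2 N
  set X := N / (8 * M) with hX
  have hX1 : S0 + 2 ≤ X := by
    rw [hX, Nat.le_div_iff_mul_le (by positivity)]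
    nlinarith
  have hX2 : X * (8 * M) ≤ N := Nat.div_mul_le_self _ _
  have hX3 : N < (X + 1) * (8 * M) := by
    have := Nat.lt_mul_div_succ N (show 0 < 8 * M by positivity)
    rw [mul_comm]; exact this
  have hX4 : N ≤ 16 * M * X := by
    have : (X + 1) * (8 * M) ≤ (2 * X) * (8 * M) := Nat.mul_le_mul_right _ (by omega)
    nlinarith
  set s0 := N / (4 * M) + 1 with hs0
  have hs1 : N < s0 * (4 * M) := by
    have := Nat.lt_mul_div_succ N (show 0 < 4 * M by positivity)
    rw [mul_comm]; exact this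
  have hs2 : (N / (4 * M)) * (4 * M) ≤ N := Nat.div_mul_le_self _ _
  set c := a0 % M + M * s0 with hc
  have hsv := sieve_stepY hS H T1 J (by omega) N c X (by omega) y hy
  set G := (range X).filter (fun s => ∀ q : ℕ, q.Prime → T < q → q ≤ y → q ^ C ≤ X →
        ¬ (T1 < q ∧ ∃ f ∈ forms S, (q : ℤ) ∣ f.1 * ((c + modu T1 J * s : ℕ) : ℤ) + f.2 * N))
    with hG
  have hinj : Function.Injective (fun s : ℕ => c + M * s) := by
    intro s s' h
    have h' : c + M * s = c + M * s' := h
    exact Nat.eq_of_mul_eq_mul_left hMpos (by omega)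
  refine ⟨G.image (fun s => c + M * s), ?_, ?_⟩
  · rw [card_image_of_injective _ hinj]
    refine le_trans ?_ hsv
    have hyR : (3 : ℝ) ≤ y := by exact_mod_cast hy
    have hly : 1 ≤ Real.log y := one_le_log_three.trans (Real.log_le_log (by norm_num) hyR)
    have hlC : 0 < Real.log y ^ C := by positivity
    have hK0R : (0 : ℝ) < K0 := by exact_mod_cast hK0
    have hXR : (0 : ℝ) ≤ X := Nat.cast_nonneg _
    have h2 : (N : ℝ) ≤ ((16 * M : ℕ) : ℝ) * X := by exact_mod_cast hX4
    have h3 : (((16 * M * K0 : ℕ)) : ℝ) ≤ ((cardFactors M + 2 * C + 16 * M * K0 : ℕ) : ℝ) := by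
      have : 16 * M * K0 ≤ cardFactors M + 2 * C + 16 * M * K0 := by omega
      exact_mod_cast this
    have h4 : (0 : ℝ) < ((16 * M * K0 : ℕ) : ℝ) := by exact_mod_cast hMK
    calc (N : ℝ) / (((cardFactors M + 2 * C + 16 * M * K0 : ℕ) : ℝ) * Real.log y ^ C)
        ≤ (N : ℝ) / (((16 * M * K0 : ℕ) : ℝ) * Real.log y ^ C) := by
          gcongr
      _ ≤ (((16 * M : ℕ) : ℝ) * X) / (((16 * M * K0 : ℕ) : ℝ) * Real.log y ^ C) := by
          gcongr
      _ = X / (K0 * Real.log y ^ C) := by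
          have hMR : (M : ℝ) ≠ 0 := by exact_mod_cast hM0
          push_cast
          field_simp
  · intro a ha
    obtain ⟨s, hs, rfl⟩ := mem_image.1 ha
    rw [hG, mem_filter, mem_range] at hs
    obtain ⟨hsX, hsq⟩ := hs
    have hr : a0 % M < M := Nat.mod_lt _ hMpos
    have hMs : M * s + M ≤ M * X := by
      have : s + 1 ≤ X := hsX
      nlinarith
    have hs1' : N < 4 * (M * s0) := by
      have : s0 * (4 * M) = 4 * (M * s0) := by ring
      omega
    have hlow : N ≤ 4 * (c + M * s) := by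
      rw [hc]; omega
    have h16 : 16 * M ≤ N := by
      have h1 : 8 * M * (S0 + 2) = 8 * (M * S0) + 16 * M := by ring
      omega
    have hup : 2 * (c + M * s) ≤ N := by
      have h1 : 4 * (M * s0) ≤ N + 4 * M := by
        have : 4 * (M * s0) = (N / (4 * M)) * (4 * M) + 4 * M := by rw [hs0]; ring
        omega
      have h2 : 8 * (M * X) ≤ N := by
        have : X * (8 * M) = 8 * (M * X) := by ring
        omega
      rw [hc]; omega
    refine ⟨hlow, hup, fun e he => ?_⟩
    have hmod : c + M * s ≡ a0 [MOD modu T1 J] := by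
      rw [← hM, hc]
      have h1 : a0 % M + M * s0 + M * s = a0 % M + M * (s0 + s) := by ring
      rw [h1]
      have h2 : a0 % M + M * (s0 + s) ≡ a0 % M [MOD M] := by
        simp [Nat.ModEq]
      exact h2.trans (Nat.mod_modEq _ _)
    obtain ⟨hD, hav⟩ := ha0 _ hmod
    have hN0 : 0 < N := by omega
    have hsize : W * N ≤ X ^ 2 := by
      have h1 : 256 * M ^ 2 * W ≤ N := by nlinarith
      have h2 : 256 * M ^ 2 * (W * N) ≤ 256 * M ^ 2 * X ^ 2 := by
        calc 256 * M ^ 2 * (W * N) = (256 * M ^ 2 * W) * N := by ring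
          _ ≤ N * N := Nat.mul_le_mul_right _ h1
          _ ≤ (16 * M * X) * (16 * M * X) := Nat.mul_le_mul hX4 hX4
          _ = 256 * M ^ 2 * X ^ 2 := by ring
      exact Nat.le_of_mul_le_mul_left h2 (by positivity)
    -- the bound for one node
    have key : ∀ (R : ℕ) (f : ℤ × ℤ), f ∈ forms S → (R : ℤ) = f.1 * ((c + M * s : ℕ) : ℤ) + f.2 * N →
        R ≠ 0 → R ≤ W * N → omY y R ≤ cardFactors M + 2 * C + 16 * M * K0 := by
      intro R f hf hRf hR0 hRW
      refine (omY_le_node y T1 J M C X R (fun p hp h => pow_dvd_modu T1 J hp h) hM0 hR0 ?_ ?_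
        (by omega) (hRW.trans hsize)).trans (by omega)
      · intro p hp hpT hd
        apply hav p hp hpT f hf
        rw [← hRf]
        exact_mod_cast hd
      · intro q hq hqT hqy hqR
        by_contra hcon
        push Not at hcon
        apply hsq q hq (by omega) hqy hcon.le
        refine ⟨hqT, f, hf, ?_⟩
        rw [← hM, ← hRf]
        exact_mod_cast hqR
    refine ⟨hD e he, ?_, ?_⟩
    · refine key _ ((1 : ℤ), (e.Y : ℤ)) ?_ ?_ ?_ ?_
      · exact mem_union_left _ (mem_image.2 ⟨e, he, rfl⟩)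
      · push_cast; ring
      · intro h
        have : c + M * s = 0 := by omega
        omega
      · have h1 := hWe e he
        calc c + M * s + e.Y * N ≤ N + e.Y * N := by omega
          _ ≤ (e.E + e.Y + 1) * N := by nlinarith
          _ ≤ W * N := Nat.mul_le_mul_right _ h1
    · have hBE := hS.E_ge e he
      have hB := hS.B_pos e he
      have hle : e.B * (c + M * s) * 2 ≤ e.E * N := by
        calc e.B * (c + M * s) * 2 = e.B * (2 * (c + M * s)) := by ring
          _ ≤ e.E * N := Nat.mul_le_mul hBE hup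
      have hpos : 0 < e.E * N := Nat.mul_pos (by omega) hN0
      refine key _ (-(e.B : ℤ), (e.E : ℤ)) ?_ ?_ ?_ ?_
      · exact mem_union_right _ (mem_image.2 ⟨e, he, rfl⟩)
      · rw [Nat.cast_sub (by omega)]
        push_cast; ring
      · omega
      · have h1 := hWe e he
        calc e.E * N - e.B * (c + M * s) ≤ e.E * N := Nat.sub_le _ _
          _ ≤ (e.E + e.Y + 1) * N := by nlinarith
          _ ≤ W * N := Nat.mul_le_mul_right _ h1

end Pool.Agent.GA
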