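import Mathlib
import Pool.Agent.GA.Local
import Pool.Agent.GA.Count
import Pool.Agent.GA.ManyY

set_option autoImplicit false

/-!
# Pairs with sum `N` and few prime factors `≤ y` in every class
-/

namespace Pool.Agent.GA

open Finset

theorem mainY (k : ℕ) (hk : 0 < k) (m : ℕ) (hm : 0 < m) (p0 : ℕ) :
    ∃ z K N0 : ℕ, 0 < K ∧ ∀ N y : ℕ, N0 ≤ N → 3 ≤ y → y ≤ N → ∀ g : ℕ → ZMod k,
      (∀ u v : ℕ, u ≠ 0 → v ≠ 0 → g (u * v) = g u + g v) →
      (∀ p : ℕ, p.Prime → p0 ≤ p → p ≤ z → p ≡ 1 [MOD m] → g p = 1) →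
      ∃ t : ZMod k, ∀ s : ZMod k,
      (N : ℝ) / (K * Real.log y ^ K) ≤ ((range N).filter (fun a => N < a ^ 2 ∧ 2 * a ≤ N ∧
        omY y a ≤ K ∧ omY y (N - a) ≤ K ∧ g a + g (N - a) = t + 2 * s)).card := by
  classical
  obtain ⟨S, z, hS, hstar⟩ := exists_star k m p0 hk hm
  obtain ⟨K, C, N1, hK, hmany⟩ := exists_many_y S hS
  obtain ⟨W, hW⟩ : ∃ W, W = ∑ e ∈ S, ArithmeticFunction.cardFactors e.B := ⟨_, rfl⟩
  obtain ⟨V, hV⟩ : ∃ V : ℕ, V = ∑ e ∈ S, 16 * e.D ^ 2 := ⟨_, rfl⟩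
  refine ⟨z, (K + W + C) * (S.card * 4 + 1), max N1 (V + 2), Nat.mul_pos (by omega) (by omega), ?_⟩
  intro N y hN hy hyN g hg hgp
  have hNa : N1 ≤ N := (le_max_left _ _).trans hN
  have hNb : V + 2 ≤ N := (le_max_right _ _).trans hN
  obtain ⟨A, hAcard, hA⟩ := hmany N hNa y hy hyN
  have hL1 : (1 : ℝ) ≤ Real.log y := by
    have h1 : Real.exp 1 ≤ (y : ℝ) := by
      have h2 : (3 : ℝ) ≤ y := by exact_mod_cast hy
      have := Real.exp_one_lt_d9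
      linarith
    have h3 := Real.log_le_log (Real.exp_pos 1) h1
    rwa [Real.log_exp] at h3
  obtain ⟨t, ht⟩ := count_class (K := K) hk hS (omY y) (fun _ _ hm hn => omY_mul y hm hn) g hg A hA
    (hstar g hg hgp)
    (by
      intro e he
      have h1 : 16 * e.D ^ 2 ≤ V := by
        rw [hV]
        exact single_le_sum (f := fun e : Edge => 16 * e.D ^ 2) (fun _ _ => Nat.zero_le _) he
      omega) (by omega)
  refine ⟨t, ?_⟩
  intro s
  have h1 := ht s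
  have hKW : K + ∑ e ∈ S, omY y e.B ≤ (K + W + C) * (S.card * 4 + 1) := by
    have h2 : ∑ e ∈ S, omY y e.B ≤ W := by
      rw [hW]
      exact sum_le_sum fun e _ => omY_le y e.B
    calc K + ∑ e ∈ S, omY y e.B ≤ (K + W + C) * 1 := by omega
      _ ≤ (K + W + C) * (S.card * 4 + 1) := Nat.mul_le_mul_left _ (by omega)
  obtain ⟨Q, hQ⟩ : ∃ Q, Q = (K + W + C) * (S.card * 4 + 1) := ⟨_, rfl⟩
  rw [← hQ] at hKW ⊢
  obtain ⟨G, hG⟩ : ∃ G, G = ((range N).filter (fun a => N < a ^ 2 ∧ 2 * a ≤ N ∧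
      omY y a ≤ K + ∑ e ∈ S, omY y e.B ∧ omY y (N - a) ≤ K + ∑ e ∈ S, omY y e.B ∧
      g a + g (N - a) = t + 2 * s)) := ⟨_, rfl⟩
  rw [← hG] at h1
  have hsub : G ⊆ ((range N).filter (fun a => N < a ^ 2 ∧ 2 * a ≤ N ∧
        omY y a ≤ Q ∧ omY y (N - a) ≤ Q ∧ g a + g (N - a) = t + 2 * s)) := by
    intro a ha
    rw [hG, mem_filter] at ha
    rw [mem_filter]
    obtain ⟨h2, h3, h4, h5, h6, h7⟩ := ha
    exact ⟨h2, h3, h4, h5.trans hKW, h6.trans hKW, h7⟩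
  have h2 : (G.card : ℝ) ≤ (((range N).filter (fun a => N < a ^ 2 ∧ 2 * a ≤ N ∧
        omY y a ≤ Q ∧ omY y (N - a) ≤ Q ∧ g a + g (N - a) = t + 2 * s)).card : ℝ) := by
    exact_mod_cast card_le_card hsub
  refine le_trans ?_ h2
  have h3 : (A.card : ℝ) ≤ (S.card * 4 : ℕ) * G.card := by exact_mod_cast h1
  have hG0 : (0 : ℝ) ≤ G.card := Nat.cast_nonneg _
  have h4 : (N : ℝ) / (K * Real.log y ^ C) ≤ (S.card * 4 + 1 : ℕ) * G.card := by
    refine hAcard.trans (h3.trans ?_)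
    apply mul_le_mul_of_nonneg_right _ hG0
    push_cast
    linarith
  have hLp : 0 < Real.log y := by linarith
  have hNp : (0 : ℝ) ≤ N := Nat.cast_nonneg _
  have hK0 : (0 : ℝ) < K := by exact_mod_cast hK
  have hS0 : (0 : ℝ) < ((S.card * 4 + 1 : ℕ) : ℝ) := by positivity
  have hCQ : C ≤ Q := by
    rw [hQ]
    calc C ≤ (K + W + C) * 1 := by omega
      _ ≤ _ := Nat.mul_le_mul_left _ (by omega)
  have hKQ : (S.card * 4 + 1) * K ≤ Q := by
    rw [hQ, mul_comm]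
    exact Nat.mul_le_mul_right _ (by omega)
  have h5 : ((S.card * 4 + 1 : ℕ) : ℝ) * (K * Real.log y ^ C) ≤ Q * Real.log y ^ Q := by
    have h6 : (((S.card * 4 + 1) * K : ℕ) : ℝ) ≤ Q := by exact_mod_cast hKQ
    have h7 : Real.log y ^ C ≤ Real.log y ^ Q := pow_le_pow_right₀ hL1 hCQ
    calc ((S.card * 4 + 1 : ℕ) : ℝ) * (K * Real.log y ^ C) =
          (((S.card * 4 + 1) * K : ℕ) : ℝ) * Real.log y ^ C := by push_cast; ring
      _ ≤ Q * Real.log y ^ Q := mul_le_mul h6 h7 (by positivity) (Nat.cast_nonneg _)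
  calc (N : ℝ) / (Q * Real.log y ^ Q) ≤
        N / (((S.card * 4 + 1 : ℕ) : ℝ) * (K * Real.log y ^ C)) :=
        div_le_div_of_nonneg_left hNp (by positivity) h5
    _ = (N / (K * Real.log y ^ C)) / ((S.card * 4 + 1 : ℕ) : ℝ) := by
        rw [div_div, mul_comm]
    _ ≤ (((S.card * 4 + 1 : ℕ) : ℝ) * G.card) / ((S.card * 4 + 1 : ℕ) : ℝ) := by gcongr
    _ = G.card := by field_simp

end Pool.Agent.GA
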